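import Mathlib

open scoped ContDiff

namespace Pool.Agent.KS6_36.BO

/-- first Dirichlet eigenvalue of an open set of Euclidean space: the infimum of the Rayleigh
quotient over nonzero smooth functions with compact support in the set -/
noncomputable def lam {N : ℕ} (U : Set (EuclideanSpace ℝ (Fin N))) : ℝ :=
  sInf {r | ∃ φ : EuclideanSpace ℝ (Fin N) → ℝ, ContDiff ℝ ∞ φ ∧ HasCompactSupport φ ∧
    tsupport φ ⊆ U ∧ φ ≠ 0 ∧ r = (∫ x, ‖gradient φ x‖ ^ 2) / ∫ x, φ x ^ 2}

end Pool.Agent.KS6_36.BO
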