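import Pool.Graph.R_pool_sql_team_39128cda.H.MP_677f70_an.A
import Pool.Agent.KS6_36.BO.Defs

open Set Metric Filter Topology InnerProductSpace MeasureTheory Real
open scoped Laplacian ContDiff
open Pool.Agent.H

namespace Pool.Agent.KS6_36.BO

variable {n : ℕ}

noncomputable abbrev d (f : (EuclideanSpace ℝ (Fin (n + 2))) → ℝ) (j : Fin (n + 2)) (x : (EuclideanSpace ℝ (Fin (n + 2)))) : ℝ := fderiv ℝ f x (EuclideanSpace.single j 1)

def Sol (k : ℝ) (W : (EuclideanSpace ℝ (Fin (n + 2))) → ℝ) (x : (EuclideanSpace ℝ (Fin (n + 2)))) : Prop := ContDiffAt ℝ ∞ W x ∧ Δ W x = -k ^ 2 * W x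

variable {k : ℝ} {W V φ ψ : (EuclideanSpace ℝ (Fin (n + 2))) → ℝ} {x : (EuclideanSpace ℝ (Fin (n + 2)))}

lemma two : (2 : WithTop ℕ∞) ≤ ∞ := by
  exact WithTop.coe_le_coe.2 (le_top (a := (2 : ℕ∞)))

lemma Sol.sub (a : Sol k W x) (b : Sol k V x) : Sol k (fun y => W y - V y) x :=
  ⟨a.1.sub b.1, ((a.1.of_le two).laplacian_sub (b.1.of_le two)).trans (by rw [a.2, b.2]; ring)⟩

lemma Sol.add (a : Sol k W x) (b : Sol k V x) : Sol k (fun y => W y + V y) x :=
  ⟨a.1.add b.1, ((a.1.of_le two).laplacian_add (b.1.of_le two)).trans (by rw [a.2, b.2]; ring)⟩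

lemma Sol.mul (a : Sol k W x) (c : ℝ) : Sol k (fun y => c * W y) x :=
  ⟨contDiffAt_const.mul a.1, (laplacian_smul c (a.1.of_le two)).trans (by rw [a.2, smul_eq_mul]; ring)⟩

lemma Sol.sum {ι : Type*} (s : Finset ι) {G : ι → (EuclideanSpace ℝ (Fin (n + 2))) → ℝ} (h : ∀ i ∈ s, Sol k (G i) x) :
    Sol k (fun y => ∑ i ∈ s, G i y) x := by
  classical
  induction s using Finset.induction_on with
  | empty => exact ⟨contDiffAt_const, by simp⟩
  | insert i s hi ih =>
    simp only [Finset.sum_insert hi]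
    exact (h i (by simp)).add (ih fun j hj => h j (by simp [hj]))

lemma cm {q : WithTop ℕ∞} {g : (EuclideanSpace ℝ (Fin (n + 2))) → ℝ} (h : ContDiff ℝ q ψ) (hg : ∀ x ∈ tsupport ψ, ContDiffAt ℝ q g x) :
    ContDiff ℝ q fun x => ψ x * g x := contDiff_iff_contDiffAt.2 fun x => by
  by_cases i : x ∈ tsupport ψ
  · exact h.contDiffAt.mul (hg x i)
  · exact (contDiffAt_const (c := 0)).congr_of_eventuallyEq
      ((notMem_tsupport_iff_eventuallyEq.1 i).mono fun y hy => by simp [hy])

lemma cd {q : ℕ} (h : ContDiffAt ℝ ∞ W x) (j : Fin (n + 2)) : ContDiffAt ℝ q (d W j) x :=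
  (h.fderiv_right (m := q) (by exact_mod_cast le_top)).clm_apply contDiffAt_const

lemma d0 (h : x ∉ tsupport ψ) (j : Fin (n + 2)) : ψ x = 0 ∧ d ψ j x = 0 := by
  have := notMem_tsupport_iff_eventuallyEq.1 h
  exact ⟨this.eq_of_nhds, by simp [d, this.fderiv_eq]⟩

lemma ibp (h : ContDiff ℝ 1 ψ) (hs : HasCompactSupport ψ) (hW : ∀ x ∈ tsupport ψ, Sol k W x) :
    ∫ x, ∑ j, d ψ j x * d W j x = k ^ 2 * ∫ x, ψ x * W x := by
  have c : ∀ j, ContDiff ℝ 1 fun x => ψ x * d W j x := fun j => cm h fun x hx => cd (q := 1) (hW x hx).1 j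
  have s : ∀ j, HasCompactSupport fun x => ψ x * d W j x := fun j => hs.mul_right
  have i : ∀ j, Integrable (d (fun x => ψ x * d W j x) j) := fun j =>
    (((c j).continuous_fderiv one_ne_zero).clm_apply continuous_const).integrable_of_hasCompactSupport
      ((s j).fderiv_apply ℝ _)
  have z : ∀ j, ∫ x, d (fun x => ψ x * d W j x) j x = 0 := fun j => by
    simpa using integral_mul_fderiv_eq_neg_fderiv_mul_of_integrable (μ := volume) (f := fun _ => (1 : ℝ))
      (v := EuclideanSpace.single j 1) (by simp) (by simpa using i j)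
      (by simpa using (c j).continuous.integrable_of_hasCompactSupport (s j)) (by simp)
      fun x _ => (c j).differentiable one_ne_zero x
  have i2 : Integrable fun x => ψ x * W x := (cm (q := 0) (h.of_le zero_le_one) fun x hx =>
    (hW x hx).1.of_le (by simp)).continuous.integrable_of_hasCompactSupport hs.mul_right
  rw [← integral_const_mul, ← zero_add (∫ x, k ^ 2 * _), ← Finset.sum_eq_zero fun j (_ : j ∈ Finset.univ) => z j,
    ← integral_finsetSum _ fun j _ => i j, ← integral_add (integrable_finsetSum _ fun j _ => i j)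
      (i2.const_mul _)]
  refine integral_congr_ae (.of_forall fun x => ?_)
  by_cases hx : x ∈ tsupport ψ
  · have := (hW x hx).2
    rw [laplacian_eq_iteratedFDeriv_orthonormalBasis _ (EuclideanSpace.basisFun (Fin (n + 2)) ℝ)] at this
    simp only [MP_677f70_an.iter ((hW x hx).1.of_le two), EuclideanSpace.basisFun_apply] at this
    have e : ∀ j, d (fun x => ψ x * d W j x) j x = ψ x * d (d W j) j x + d W j x * d ψ j x := fun j => by
      rw [d, fderiv_fun_mul (h.differentiable one_ne_zero x)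
        ((cd (q := 1) (hW x hx).1 j).differentiableAt one_ne_zero)]
      rfl
    simp only [e, Finset.sum_add_distrib, ← Finset.mul_sum, mul_comm (d W _ x)]
    change ∑ j, d (d W j) j x = _ at this
    rw [this]
    ring
  · have : ∀ j, d (fun x => ψ x * d W j x) j x = 0 := fun j =>
      (d0 (fun i => hx (tsupport_mul_subset_left i)) j).2
    simp [this, d0 hx, (d0 hx 0).1]

lemma gsq (φ : (EuclideanSpace ℝ (Fin (n + 2))) → ℝ) (x : (EuclideanSpace ℝ (Fin (n + 2)))) : ‖gradient φ x‖ ^ 2 = ∑ j, d φ j x ^ 2 := by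
  rw [EuclideanSpace.real_norm_sq_eq]
  refine Finset.sum_congr rfl fun j _ => ?_
  rw [d, ← inner_gradient_left, EuclideanSpace.inner_single_right]
  simp

lemma igr (h : ContDiff ℝ ∞ φ) (hs : HasCompactSupport φ) : Integrable fun x => ‖gradient φ x‖ ^ 2 := by
  simp only [gsq]
  simp only [sq]
  exact integrable_finsetSum _ fun j _ => by
    have := (h.continuous_fderiv (by simp)).clm_apply (continuous_const (y := EuclideanSpace.single j 1))
    exact (this.mul this).integrable_of_hasCompactSupport (hs.fderiv_apply ℝ _).mul_right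

lemma mpos (h : ContDiff ℝ ∞ φ) (hs : HasCompactSupport φ) (h0 : φ ≠ 0) : 0 < ∫ x, φ x ^ 2 := by
  obtain ⟨x, hx⟩ := Function.ne_iff.1 h0
  refine (h.continuous.pow 2).integral_pos_of_hasCompactSupport_nonneg_nonzero ?_ (fun _ => sq_nonneg _)
    (pow_ne_zero 2 hx)
  simpa only [sq] using hs.mul_right

lemma ident (h : ContDiff ℝ ∞ φ) (hs : HasCompactSupport φ) (hW : ∀ x ∈ tsupport φ, Sol k W x ∧ W x ≠ 0) :
    ∫ x, ‖gradient φ x‖ ^ 2 = k ^ 2 * (∫ x, φ x ^ 2) + ∫ x, ∑ j, (d φ j x - φ x * (d W j x / W x)) ^ 2 := by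
  have h1 : ContDiff ℝ 1 φ := h.of_le (by simp)
  have t : tsupport (fun x => φ x * (φ x / W x)) ⊆ tsupport φ := tsupport_mul_subset_left
  have a := ibp (ψ := fun x => φ x * (φ x / W x))
    (cm h1 fun x hx => h1.contDiffAt.div ((hW x hx).1.1.of_le (by simp)) (hW x hx).2)
    hs.mul_right fun x hx => (hW x (t hx)).1
  have i : Integrable fun x => ∑ j, (d φ j x - φ x * (d W j x / W x)) ^ 2 :=
    integrable_finsetSum _ fun j _ => by
      have := ((h.continuous_fderiv (by simp)).clm_apply (continuous_const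
        (y := EuclideanSpace.single j 1))).sub (cm (q := 0) (h.of_le (by simp)) fun x hx =>
        (cd (q := 0) (hW x hx).1.1 j).div ((hW x hx).1.1.of_le (by simp)) (hW x hx).2).continuous
      simp only [sq]
      exact (this.mul this).integrable_of_hasCompactSupport
        ((hs.fderiv_apply ℝ _).sub hs.mul_right).mul_right
  rw [← sub_eq_iff_eq_add, ← integral_sub (igr h hs) i]
  convert a using 2
  · ext x
    rw [gsq, ← Finset.sum_sub_distrib]
    refine Finset.sum_congr rfl fun j _ => ?_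
    by_cases hx : x ∈ tsupport φ
    · have p := (h1.differentiable one_ne_zero x).hasFDerivAt
      have q := ((hW x hx).1.1.differentiableAt (by simp)).hasFDerivAt
      have := (hW x hx).2
      have r := (p.fun_mul (p.fun_mul ((hasDerivAt_inv this).comp_hasFDerivAt x q))).fderiv
      simp only [d, div_eq_mul_inv]
      erw [r]
      simp
      field_simp
      ring
    · have := (d0 (fun i => hx (t i)) j).2
      simp [d0 hx, (d0 hx 0).1, this]
  · refine integral_congr_ae (.of_forall fun x => ?_)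
    by_cases hx : x ∈ tsupport φ
    · have := (hW x hx).2
      simp only
      field_simp
    · simp [(d0 hx 0).1]

lemma bdd (U : Set (EuclideanSpace ℝ (Fin (n + 2)))) : BddBelow {r | ∃ φ : (EuclideanSpace ℝ (Fin (n + 2))) → ℝ, ContDiff ℝ ∞ φ ∧ HasCompactSupport φ ∧
    tsupport φ ⊆ U ∧ φ ≠ 0 ∧ r = (∫ x, ‖gradient φ x‖ ^ 2) / ∫ x, φ x ^ 2} :=
  ⟨0, by rintro _ ⟨φ, -, -, -, -, rfl⟩; positivity⟩

lemma nem {U : Set (EuclideanSpace ℝ (Fin (n + 2)))} (h : U ∈ 𝓝 x) : {r | ∃ φ : (EuclideanSpace ℝ (Fin (n + 2))) → ℝ, ContDiff ℝ ∞ φ ∧ HasCompactSupport φ ∧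
    tsupport φ ⊆ U ∧ φ ≠ 0 ∧ r = (∫ x, ‖gradient φ x‖ ^ 2) / ∫ x, φ x ^ 2}.Nonempty := by
  obtain ⟨f, a, b, c, -, e⟩ := exists_contDiff_tsupport_subset (n := ⊤) h
  exact ⟨_, f, c, b, a, fun i => by simp [i] at e, rfl⟩

lemma barta {U : Set (EuclideanSpace ℝ (Fin (n + 2)))} (h : U ∈ 𝓝 x) (hW : ∀ x ∈ U, Sol k W x ∧ W x ≠ 0) : k ^ 2 ≤ lam U :=
  le_csInf (nem h) (by
    rintro _ ⟨φ, a, b, c, e, rfl⟩
    rw [le_div_iff₀ (mpos a b e), ident a b fun x hx => hW x (c hx)]
    exact le_add_of_nonneg_right (by positivity))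

lemma ub {T V U : Set (EuclideanSpace ℝ (Fin (n + 2)))} (hT : IsCompact T) (hV : IsOpen V) (vt : V ⊆ T) (vu : V ⊆ U)
    (hW : ∀ x ∈ T, Sol k W x) (h0 : ∀ x ∈ T, 0 < W x → x ∈ V) (hx : x ∈ T) (hp : 0 < W x) :
    lam U ≤ k ^ 2 := by
  let θ := smoothTransition
  have tc : ContDiff ℝ ∞ θ := smoothTransition.contDiff
  let φ : ℝ → (EuclideanSpace ℝ (Fin (n + 2))) → ℝ := fun δ => T.indicator fun x => W x * θ (W x / δ - 1)
  let b : ℝ → ℝ := fun u => u * deriv θ (u - 1)
  have b0 : ∀ u ∉ Icc (1 : ℝ) 2, b u = 0 := fun u hu => by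
    have : ∃ c, θ =ᶠ[𝓝 (u - 1)] fun _ => c := by
      rcases lt_or_ge u 1 with h | h
      · exact ⟨0, (eventually_lt_nhds (sub_neg.2 h)).mono fun y hy => smoothTransition.zero_of_nonpos hy.le⟩
      · exact ⟨1, (eventually_gt_nhds (show 1 < u - 1 by linarith [not_le.1 fun i => hu ⟨h, i⟩])).mono
          fun y hy => smoothTransition.one_of_one_le hy.le⟩
    obtain ⟨c, hc⟩ := this
    simp [b, hc.deriv_eq]
  have bc : Continuous b := continuous_id.mul ((tc.continuous_deriv (by simp)).comp (by fun_prop))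
  obtain ⟨K, hK⟩ := bc.bounded_above_of_compact_support (.intro isCompact_Icc b0)
  have z : ∀ δ, 0 < δ → ∀ y, (y ∈ T → W y < δ) → φ δ =ᶠ[𝓝 y] 0 := fun δ d0 y hy => by
    by_cases i : y ∈ T
    · filter_upwards [(hW y i).1.continuousAt.eventually (gt_mem_nhds (hy i))] with w hw
      refine indicator_apply_eq_zero.2 fun _ => mul_eq_zero_of_right _ (smoothTransition.zero_of_nonpos ?_)
      linarith [(div_lt_one d0).2 hw]
    · filter_upwards [hT.isClosed.isOpen_compl.mem_nhds i] with w hw using indicator_of_notMem hw _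
  have ts : ∀ δ, 0 < δ → ∀ y ∈ tsupport (φ δ), y ∈ V ∧ δ ≤ W y := fun δ d0 y hy => by
    have := mt (fun i => notMem_tsupport_iff_eventuallyEq.2 (z δ d0 y i)) (not_not.2 hy)
    push Not at this
    exact ⟨h0 y this.1 (d0.trans_le this.2), this.2⟩
  have ev : ∀ δ, ∀ y ∈ V, φ δ =ᶠ[𝓝 y] fun x => W x * θ (W x / δ - 1) := fun δ y hy =>
    mem_of_superset (hV.mem_nhds hy) fun w hw => indicator_of_mem (vt hw) _
  have sm : ∀ δ, 0 < δ → ContDiff ℝ ∞ (φ δ) := fun δ d0 => contDiff_iff_contDiffAt.2 fun y => by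
    by_cases i : y ∈ tsupport (φ δ)
    · have := (hW y (vt (ts δ d0 y i).1)).1
      exact (this.mul (tc.contDiffAt.comp y ((this.div_const δ).sub contDiffAt_const))).congr_of_eventuallyEq
        (ev δ y (ts δ d0 y i).1)
    · exact contDiffAt_const.congr_of_eventuallyEq (notMem_tsupport_iff_eventuallyEq.1 i)
  have cs : ∀ δ, 0 < δ → HasCompactSupport (φ δ) := fun δ d0 =>
    hT.of_isClosed_subset (isClosed_tsupport _) fun y hy => vt (ts δ d0 y hy).1
  let D : ℝ → (EuclideanSpace ℝ (Fin (n + 2))) → ℝ := fun δ => V.indicator fun y => b (W y / δ) ^ 2 * ∑ j, d W j y ^ 2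
  have e : ∀ δ, 0 < δ → ∀ y, ∑ j, (d (φ δ) j y - φ δ y * (d W j y / W y)) ^ 2 = D δ y := fun δ p y => by
    by_cases i : y ∈ T → W y < δ
    · have := d0 (notMem_tsupport_iff_eventuallyEq.2 (z δ p y i))
      simp only [this, (this 0).1, D]
      by_cases i2 : y ∈ V
      · simp [i2, b0 _ fun i3 => ((div_lt_one p).2 (i (vt i2))).not_ge i3.1]
      · simp [i2]
    · push Not at i
      have w := p.trans_le i.2
      have v := h0 y i.1 w
      have q := ((hW y i.1).1.differentiableAt (by simp)).hasFDerivAt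
      have r := (q.fun_mul ((tc.differentiable (by simp) _).hasDerivAt.comp_hasFDerivAt y
        ((q.mul_const δ⁻¹).sub_const 1))).fderiv
      simp only [D, indicator_of_mem v, d, (ev δ y v).fderiv_eq, (ev δ y v).eq_of_nhds, Finset.mul_sum,
        div_eq_mul_inv, b]
      refine Finset.sum_congr rfl fun j _ => ?_
      erw [r]
      simp
      field_simp
      ring
  obtain ⟨M, hM⟩ := hT.exists_bound_of_continuousOn (f := fun y => ∑ j, d W j y ^ 2) fun y hy =>
    (ContDiffAt.sum fun j _ => (cd (q := 0) (hW y hy).1 j).pow 2).continuousAt.continuousWithinAt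
  have l : Tendsto (fun δ => ∫ y, D δ y) (𝓝[>] 0) (𝓝 (∫ y : (EuclideanSpace ℝ (Fin (n + 2))), 0)) := by
    refine tendsto_integral_filter_of_dominated_convergence (T.indicator fun _ => K ^ 2 * M)
      (mem_of_superset self_mem_nhdsWithin fun δ p => ?_) (.of_forall fun δ => .of_forall fun y => ?_)
      ((integrable_indicator_iff hT.measurableSet).2 (integrableOn_const hT.measure_lt_top.ne))
      (.of_forall fun y => ?_)
    · refine (aestronglyMeasurable_indicator_iff hV.measurableSet).2 (ContinuousOn.aestronglyMeasurable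
        (fun y hy => ContinuousAt.continuousWithinAt ?_) hV.measurableSet)
      have := (hW y (vt hy)).1
      exact ((bc.continuousAt.comp (this.continuousAt.div_const δ)).pow 2).mul
        (ContDiffAt.sum fun j _ => (cd (q := 0) this j).pow 2).continuousAt
    · have K0 := (norm_nonneg _).trans (hK 0)
      by_cases i : y ∈ V
      · simp only [D, indicator_of_mem i, indicator_of_mem (vt i), norm_mul, norm_pow]
        gcongr
        exacts [hK _, hM y (vt i)]
      · simp only [D, indicator_of_notMem i, norm_zero]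
        exact indicator_nonneg (fun _ _ => mul_nonneg (sq_nonneg _) ((norm_nonneg _).trans (hM x hx))) _
    · refine tendsto_const_nhds.congr' ?_
      by_cases i : 0 < W y
      · filter_upwards [Ioo_mem_nhdsGT (show 0 < W y / 2 by positivity)] with δ p
        refine (indicator_apply_eq_zero.2 fun _ => ?_).symm
        rw [b0 _ fun i3 => by linarith [(div_le_iff₀ p.1).1 i3.2, p.2]]
        simp
      · filter_upwards [self_mem_nhdsWithin] with δ p
        refine (indicator_apply_eq_zero.2 fun _ => ?_).symm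
        rw [b0 _ fun i3 => by linarith [(one_le_div p).1 i3.1, mem_Ioi.1 p]]
        simp
  have n0 : ∀ δ, 0 < δ → δ ≤ W x / 2 → φ δ ≠ 0 := fun δ p q i => by
    have := congrFun i x
    simp only [φ, indicator_of_mem hx, Pi.zero_apply, θ] at this
    rw [smoothTransition.one_of_one_le (by linarith [(le_div_iff₀ p).2 (by linarith : 2 * δ ≤ W x)])] at this
    linarith
  have m0 := mpos (sm _ (half_pos hp)) (cs _ (half_pos hp)) (n0 _ (half_pos hp) le_rfl)
  have l2 := (l.div_const (∫ y, φ (W x / 2) y ^ 2)).const_add (k ^ 2)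
  simp only [integral_zero, zero_div, add_zero] at l2
  refine ge_of_tendsto l2 (mem_of_superset (Ioc_mem_nhdsGT (half_pos hp)) fun δ p => ?_)
  refine (csInf_le (bdd U) ⟨φ δ, sm δ p.1, cs δ p.1, fun y hy => vu (ts δ p.1 y hy).1, n0 δ p.1 p.2,
    rfl⟩).trans ?_
  have m1 := mpos (sm δ p.1) (cs δ p.1) (n0 δ p.1 p.2)
  rw [ident (W := W) (k := k) (sm δ p.1) (cs δ p.1) fun y hy => ⟨hW y (vt (ts δ p.1 y hy).1),
    (p.1.trans_le (ts δ p.1 y hy).2).ne'⟩, add_div, mul_div_cancel_right₀ _ m1.ne']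
  simp only [e δ p.1]
  refine add_le_add_right (div_le_div_of_nonneg_left
    (integral_nonneg fun y => indicator_nonneg (fun _ _ => by positivity) _) m0 ?_) _
  have ig : ∀ δ, 0 < δ → Integrable fun y => φ δ y ^ 2 := fun δ p =>
    ((sm δ p).continuous.pow 2).integrable_of_hasCompactSupport (by simpa only [sq] using (cs δ p).mul_right)
  refine integral_mono (ig _ (half_pos hp)) (ig δ p.1) fun y => ?_
  by_cases i : y ∈ T → W y < W x / 2
  · simp only [(z _ (half_pos hp) y i).eq_of_nhds]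
    simpa using sq_nonneg _
  · push Not at i
    have w := (half_pos hp).trans_le i.2
    simp only [φ, indicator_of_mem i.1]
    have := smoothTransition.nonneg (W y / (W x / 2) - 1)
    refine pow_le_pow_left₀ (mul_nonneg w.le this) (mul_le_mul_of_nonneg_left
      (smoothTransition.monotone ?_) w.le) 2
    gcongr
    exacts [p.1, p.2]

end Pool.Agent.KS6_36.BO
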