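import Pool.Agent.KS6_36.BO.A

open Set Metric Filter Topology MeasureTheory Real
open scoped ContDiff
open Pool.Agent.H

namespace Pool.Agent.KS6_36.BO

variable {n : ℕ}

variable {k : ℝ} {W : (EuclideanSpace ℝ (Fin (n + 2))) → ℝ} {x p : (EuclideanSpace ℝ (Fin (n + 2)))}

lemma ubp {T V : Set (EuclideanSpace ℝ (Fin (n + 2)))} (hT : IsCompact T) (hV : IsOpen V) (vt : V ⊆ T) (F : Finset (EuclideanSpace ℝ (Fin (n + 2))))
    (hW : ∀ x ∈ T, Sol k W x) {m : ℝ} (hm : 0 < m) (h0 : ∀ x ∈ T, x ∉ V → W x ≤ -m)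
    (P : (EuclideanSpace ℝ (Fin (n + 2))) → (EuclideanSpace ℝ (Fin (n + 2))) → ℝ) (hP : ∀ p ∈ F, ∀ y, y ≠ p → Sol k (P p) y) {b : ℝ} (b0 : 0 ≤ b)
    (hb : ∀ p ∈ F, ∀ y ∈ T, y ≠ p → -b ≤ P p y)
    (hinf : ∀ M : ℝ, ∀ᶠ r in 𝓝[>] (0 : ℝ), ∀ p ∈ F, ∀ y, ‖y - p‖ = r → M ≤ P p y)
    (hx : x ∈ T) (xF : x ∉ F) (hp : 0 < W x) :
    ∀ᶠ r in 𝓝[>] 0, ∀ U, V \ ⋃ p ∈ F, closedBall p r ⊆ U → lam U ≤ k ^ 2 := by
  obtain ⟨M, M0, hM⟩ := (hT.image_of_continuousOn fun y hy =>
    (hW y hy).1.continuousAt.continuousWithinAt).isBounded.exists_pos_norm_le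
  have a1 : ContinuousAt (fun ε : ℝ => ε * (F.card * b)) 0 := by fun_prop
  have a2 : ContinuousAt (fun ε : ℝ => W x - ε * ∑ p ∈ F, P p x) 0 := by fun_prop
  obtain ⟨ε, ⟨e1, e2⟩, e0⟩ := ((((a1.eventually (gt_mem_nhds (by simpa using hm))).and (a2.eventually
    (lt_mem_nhds (by simpa using hp)))).filter_mono nhdsWithin_le_nhds).and
    (self_mem_nhdsWithin (s := Ioi (0 : ℝ)))).exists
  have e0 : 0 < ε := e0
  filter_upwards [(((F.eventually_all (p := fun p r => r < dist x p)).2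
      fun p hp => eventually_lt_nhds (dist_pos.2 fun i => xF (i ▸ hp))).filter_mono nhdsWithin_le_nhds),
    hinf ((M + m + 1) / ε), (self_mem_nhdsWithin (s := Ioi (0 : ℝ)))] with r r3 r2 r0 U vu
  have r0 : 0 < r := r0
  refine ub (T := T \ ⋃ p ∈ F, ball p r) (V := V \ ⋃ p ∈ F, closedBall p r)
    (W := fun y => W y - ε * ∑ p ∈ F, P p y) (hT.diff (isOpen_biUnion fun _ _ => isOpen_ball))
    (hV.sdiff (F.finite_toSet.isClosed_biUnion fun _ _ => isClosed_closedBall))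
    (sdiff_subset_sdiff vt (iUnion₂_mono fun _ _ => ball_subset_closedBall))
    vu
    (fun y hy => (hW y hy.1).sub ((Sol.sum F fun p hp => hP p hp y fun i =>
      hy.2 (mem_iUnion₂.2 ⟨p, hp, by simpa [i]⟩)).mul ε)) (fun y hy w => ?_)
    ⟨hx, fun i => ?_⟩ e2
  · have b1 : ∑ p ∈ F, (P p y + b) = ∑ p ∈ F, P p y + F.card * b := by simp [Finset.sum_add_distrib]
    have nb : ∀ p ∈ F, 0 ≤ P p y + b := fun p hp => by
      have := hb p hp y hy.1 fun i => hy.2 (mem_iUnion₂.2 ⟨p, hp, by simpa [i]⟩)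
      linarith
    refine ⟨by_contra fun i => ?_, fun i => ?_⟩
    · have := Finset.sum_nonneg (s := F) nb
      nlinarith [h0 y hy.1 i]
    obtain ⟨p, hp, i⟩ := mem_iUnion₂.1 i
    have nr : ‖y - p‖ = r := le_antisymm (mem_closedBall_iff_norm.1 i)
      (not_lt.1 fun j => hy.2 (mem_iUnion₂.2 ⟨p, hp, mem_ball_iff_norm.2 j⟩))
    have b2 := Finset.single_le_sum nb hp
    have b4 := r2 p hp y nr
    rw [div_le_iff₀ e0] at b4
    nlinarith [(le_abs_self _).trans (hM _ ⟨y, hy.1, rfl⟩)]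
  · obtain ⟨p, hp, i⟩ := mem_iUnion₂.1 i
    exact (r3 p hp).not_gt i

lemma surg {Y : Set (EuclideanSpace ℝ (Fin (n + 2)))} (hY : IsPreconnected Y) {c : (EuclideanSpace ℝ (Fin (n + 2)))} {ρ : ℝ} (h : (Y ∩ closedBall c ρ).Nonempty) :
    IsPreconnected (Y \ ball c ρ ∪ sphere c ρ) := by
  have hZ := IsPreconnected.union' h hY (convex_closedBall c ρ).isPreconnected
  have kk : ∀ u v, IsClosed u → IsClosed v → Y \ ball c ρ ∪ sphere c ρ ⊆ u ∪ v →
      (Y \ ball c ρ ∪ sphere c ρ) ∩ (u ∩ v) = ∅ → sphere c ρ ⊆ u → Y \ ball c ρ ∪ sphere c ρ ⊆ u :=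
    fun u v hu hv h1 h2 h3 z hz => by
      by_contra j
      have j2 := (h1 hz).resolve_left j
      have j3 := hz.resolve_right fun i => j (h3 i)
      obtain ⟨y, -, hy⟩ := h
      obtain ⟨w, w1, w2, w3⟩ := isPreconnected_closed_iff.1 hZ (u ∪ closedBall c ρ) (v \ ball c ρ)
        (hu.union isClosed_closedBall) (hv.sdiff isOpen_ball) (fun w hw => by
          by_cases i : w ∈ closedBall c ρ
          · exact .inl (.inr i)
          · have i2 : w ∉ ball c ρ := fun i' => i (ball_subset_closedBall i')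
            exact (h1 (.inl ⟨hw.resolve_right i, i2⟩)).imp .inl fun i3 => ⟨i3, i2⟩)
        ⟨y, .inr hy, .inr hy⟩ ⟨z, .inl j3.1, j2, j3.2⟩
      by_cases i : w ∈ closedBall c ρ
      · have : w ∈ sphere c ρ := le_antisymm i (not_lt.1 w3.2)
        exact h2.subset ⟨.inr this, h3 this, w3.1⟩
      · exact h2.subset ⟨.inl ⟨w1.resolve_right i, w3.2⟩, w2.resolve_right i, w3.1⟩
  refine isPreconnected_iff_subset_of_disjoint_closed.2 fun u v hu hv h1 h2 => ?_
  refine (isPreconnected_iff_subset_of_disjoint_closed.1 (isPreconnected_sphere (by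
    rw [← Module.finrank_eq_rank, finrank_euclideanSpace_fin]
    exact_mod_cast (by omega : 1 < n + 2)) c ρ) u v hu hv
    (subset_union_right.trans h1) (eq_empty_of_subset_empty (h2 ▸ inter_subset_inter_left _
      subset_union_right))).imp (kk u v hu hv h1 h2) (kk v u hv hu (union_comm u v ▸ h1) (inter_comm u v ▸ h2))

lemma holes {ι : Type*} (I : Finset ι) (a : ι → (EuclideanSpace ℝ (Fin (n + 2)))) (r : ι → ℝ) {G : Set (EuclideanSpace ℝ (Fin (n + 2)))} (ho : IsOpen G)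
    (hG : IsPreconnected G) (h : ∀ i ∈ I, 0 < r i ∧ closedBall (a i) (r i) ⊆ G)
    (hd : ∀ i ∈ I, ∀ j ∈ I, i ≠ j → Disjoint (closedBall (a i) (r i)) (closedBall (a j) (r j))) :
    IsPreconnected (G \ ⋃ i ∈ I, closedBall (a i) (r i)) := by
  classical
  induction I using Finset.induction_on with
  | empty => simpa
  | insert i I hi ih =>
    have ih := ih (fun j hj => h j (by simp [hj])) fun j hj l hl => hd j (by simp [hj]) l (by simp [hl])
    rw [Finset.set_biUnion_insert, union_comm, ← Set.sdiff_sdiff]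
    set Y := G \ ⋃ i ∈ I, closedBall (a i) (r i)
    have hs := (h i (by simp)).1.le
    obtain ⟨δ, d0, hδ⟩ := (isCompact_closedBall (a i) (r i)).exists_cthickening_subset_open (t := Y)
      (ho.sdiff (I.finite_toSet.isClosed_biUnion fun _ _ => isClosed_closedBall))
      (subset_sdiff.2 ⟨(h i (by simp)).2, disjoint_iUnion₂_right.2 fun j hj =>
        hd i (by simp) j (Finset.mem_insert_of_mem hj) fun e => hi (e ▸ hj)⟩)
    rw [cthickening_closedBall d0.le hs] at hδ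
    refine isPreconnected_of_forall_pair fun x hx y hy => ?_
    obtain ⟨σ, s1, s2⟩ := exists_between (lt_min (lt_add_of_pos_left (r i) d0)
      (lt_min (not_le.1 hx.2) (not_le.1 hy.2)))
    simp only [lt_min_iff] at s2
    refine ⟨_, union_subset (sdiff_subset_sdiff le_rfl (closedBall_subset_ball s1)) fun z hz =>
      ⟨hδ (sphere_subset_closedBall.trans (closedBall_subset_closedBall s2.1.le) hz),
        not_le.2 (s1.trans_eq (mem_sphere.1 hz).symm)⟩, .inl ⟨hx.1, not_lt.2 s2.2.1.le⟩,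
      .inl ⟨hy.1, not_lt.2 s2.2.2.le⟩, surg ih ⟨a i, hδ (mem_closedBall_self (by linarith)),
        mem_closedBall_self (by linarith)⟩⟩

lemma move {Ω : Set (EuclideanSpace ℝ (Fin (n + 2)))} (hb : Bornology.IsBounded Ω) {ρ R R' ε : ℝ} (h1 : 0 < R + ρ) (h2 : R + ρ < R')
    (h3 : ball 0 R' ⊆ Ω) (e0 : 0 < ε) (e1 : ε < 1) : ∃ δ > 0, ∀ x ∈ closedBall (0 : (EuclideanSpace ℝ (Fin (n + 2)))) R, ∀ v : (EuclideanSpace ℝ (Fin (n + 2))), ‖v‖ < δ →
      (∃ z, Ω \ closedBall (x + v) ρ ∈ 𝓝 z) →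
      (1 - ε) / (1 + ε) ^ 3 * lam (Ω \ closedBall x ρ) ≤ lam (Ω \ closedBall (x + v) ρ) := by
  let θ : ContDiffBump (0 : (EuclideanSpace ℝ (Fin (n + 2)))) := ⟨R + ρ, R', h1, h2⟩
  have tc : ContDiff ℝ ∞ θ := θ.contDiff
  obtain ⟨K, hK⟩ := (tc.continuous_fderiv (by simp)).bounded_above_of_compact_support
    (θ.hasCompactSupport.fderiv ℝ)
  obtain ⟨η, n0, hη⟩ := Metric.continuousAt_iff.1
    (ContinuousLinearMap.continuous_det.continuousAt (x := ContinuousLinearMap.id ℝ (EuclideanSpace ℝ (Fin (n + 2))))) ε e0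
  have K0 : 0 < K + 1 := by linarith [(norm_nonneg _).trans (hK 0)]
  refine ⟨min η ε / (K + 1), by positivity, fun x hx v hv ⟨z, hz⟩ => le_csInf (nem hz) ?_⟩
  rintro _ ⟨φ, a, b, c, e, rfl⟩
  let T : (EuclideanSpace ℝ (Fin (n + 2))) → (EuclideanSpace ℝ (Fin (n + 2))) := fun z => z + θ z • v
  let T' : (EuclideanSpace ℝ (Fin (n + 2))) → (EuclideanSpace ℝ (Fin (n + 2))) →L[ℝ] (EuclideanSpace ℝ (Fin (n + 2))) := fun z => ContinuousLinearMap.id ℝ (EuclideanSpace ℝ (Fin (n + 2))) + (fderiv ℝ θ z).smulRight v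
  have hT : ∀ z, HasFDerivAt T (T' z) z := fun z =>
    (hasFDerivAt_id z).add ((tc.differentiable (by simp) z).hasFDerivAt.smul_const v)
  have nn : ∀ z, ‖(fderiv ℝ θ z).smulRight v‖ < min η ε := fun z => by
    rw [ContinuousLinearMap.norm_smulRight_apply]
    nlinarith [(lt_div_iff₀ K0).1 hv, hK z, norm_nonneg v]
  have ap : ApproximatesLinearOn T ((ContinuousLinearEquiv.refl ℝ (EuclideanSpace ℝ (Fin (n + 2))) : (EuclideanSpace ℝ (Fin (n + 2))) ≃L[ℝ] (EuclideanSpace ℝ (Fin (n + 2)))) : (EuclideanSpace ℝ (Fin (n + 2))) →L[ℝ] (EuclideanSpace ℝ (Fin (n + 2)))) univ ⟨ε, e0.le⟩ :=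
    fun y _ z _ => convex_univ.norm_image_sub_le_of_norm_hasFDerivWithin_le' (f' := T')
      (fun w _ => (hT w).hasFDerivWithinAt) (fun w _ => by
        simpa [T'] using! ((nn w).trans_le (min_le_right _ _)).le) trivial trivial
  have lt : (⟨ε, e0.le⟩ : NNReal) < ‖((ContinuousLinearEquiv.refl ℝ (EuclideanSpace ℝ (Fin (n + 2)))).symm : (EuclideanSpace ℝ (Fin (n + 2))) →L[ℝ] (EuclideanSpace ℝ (Fin (n + 2))))‖₊⁻¹ := by
    simpa using! e1
  have sj := ap.surjective (.inr lt)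
  have Tc : ContDiff ℝ ∞ T := contDiff_id.add (tc.smul contDiff_const)
  have ts : ∀ z, T z ∈ Ω \ closedBall (x + v) ρ → z ∈ Ω \ closedBall x ρ := fun z hz =>
    ⟨by_contra fun i => i (by
      simpa [T, θ.zero_of_le_dist (x := z) (not_lt.1 fun j => i (h3 j))] using hz.1), fun i => hz.2 (by
      have : z ∈ closedBall 0 (R + ρ) := by
        rw [mem_closedBall]
        linarith [mem_closedBall.1 i, mem_closedBall.1 hx, dist_triangle z x 0]
      simpa [T, θ.one_of_mem_closedBall this] using i)⟩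
  have cv : ∀ g : (EuclideanSpace ℝ (Fin (n + 2))) → ℝ, Continuous g → (∀ z, 0 ≤ g z) → Function.support g ⊆ Ω \ closedBall (x + v) ρ →
      (1 - ε) * ∫ z, g (T z) ≤ ∫ z, g z ∧ ∫ z, g z ≤ (1 + ε) * ∫ z, g (T z) ∧ Integrable (g ∘ T) :=
    fun g gc g0 gs => by
    have := integral_image_eq_integral_abs_det_fderiv_smul volume MeasurableSet.univ
      (fun z _ => (hT z).hasFDerivWithinAt) (ap.injOn (.inr lt)) g
    rw [image_univ, sj.range_eq, Measure.restrict_univ] at this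
    have s : HasCompactSupport fun z => g (T z) :=
      .of_support_subset_isCompact hb.isCompact_closure fun z hz => subset_closure (ts z (gs hz)).1
    have i := (gc.comp Tc.continuous).integrable_of_hasCompactSupport (μ := volume) s
    have i2 : Integrable fun z => |(T' z).det| • g (T z) := by
      have k1 : Continuous T' := (Tc.continuous_fderiv (by simp)).congr fun z => (hT z).fderiv
      have k2 : Continuous fun z => |(T' z).det| := (ContinuousLinearMap.continuous_det.comp k1).abs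
      exact (k2.mul (gc.comp Tc.continuous)).integrable_of_hasCompactSupport s.mul_left
    have dt : ∀ z, 1 - ε ≤ |(T' z).det| ∧ |(T' z).det| ≤ 1 + ε := fun z => by
      have := hη (x := T' z) (by simpa [T', dist_eq_norm] using (nn z).trans_le (min_le_left _ _))
      simp only [ContinuousLinearMap.det, ContinuousLinearMap.coe_id, LinearMap.det_id, Real.dist_eq, abs_lt] at this
      rw [abs_of_pos (by unfold ContinuousLinearMap.det; linarith)]
      unfold ContinuousLinearMap.det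
      constructor <;> linarith
    rw [this, ← integral_const_mul, ← integral_const_mul]
    exact ⟨integral_mono (i.const_mul _) i2 fun z => mul_le_mul_of_nonneg_right (dt z).1 (g0 _),
      integral_mono i2 (i.const_mul _) fun z => mul_le_mul_of_nonneg_right (dt z).2 (g0 _), i⟩
  have t2 : tsupport (φ ∘ T) ⊆ Ω \ closedBall x ρ := fun z hz => ts z (c (closure_minimal (t := T ⁻¹' tsupport φ)
    (fun w hw => subset_tsupport φ hw) ((isClosed_tsupport φ).preimage Tc.continuous) hz))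
  have b2 : HasCompactSupport (φ ∘ T) := hb.isCompact_closure.of_isClosed_subset (isClosed_tsupport _)
    fun z hz => subset_closure (t2 hz).1
  have e2 : φ ∘ T ≠ 0 := fun i => e (sj.right_cancellable.1 (i.trans rfl))
  have ng : ∀ (f : (EuclideanSpace ℝ (Fin (n + 2))) → ℝ) z, ‖gradient f z‖ = ‖fderiv ℝ f z‖ := fun f z => LinearIsometryEquiv.norm_map _ _
  obtain ⟨-, c1, -⟩ := cv (fun z => φ z ^ 2) (a.continuous.pow 2) (fun _ => sq_nonneg _)
    fun z hz => c (subset_tsupport φ fun i => hz (by simp [i]))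
  obtain ⟨c2, -, c3⟩ := cv (fun z => ‖fderiv ℝ φ z‖ ^ 2) ((a.continuous_fderiv (by simp)).norm.pow 2)
    (fun _ => sq_nonneg _) fun z hz => c (support_fderiv_subset ℝ fun i => hz (by simp [i]))
  have c4 : ∫ z, ‖gradient (φ ∘ T) z‖ ^ 2 ≤ (1 + ε) ^ 2 * ∫ z, ‖fderiv ℝ φ (T z)‖ ^ 2 := by
    rw [← integral_const_mul]
    refine integral_mono (igr (a.comp Tc) b2) (c3.const_mul _) fun z => ?_
    simp only [ng, ← mul_pow]
    rw [((a.differentiable (by simp) _).hasFDerivAt.comp z (hT z)).fderiv, mul_comm]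
    gcongr
    refine (ContinuousLinearMap.opNorm_comp_le _ _).trans (mul_le_mul_of_nonneg_left
      ((norm_add_le _ _).trans (add_le_add (by simp) ((nn z).trans_le (min_le_right _ _)).le)) (norm_nonneg _))
  refine (mul_le_mul_of_nonneg_left (csInf_le (bdd _) ⟨φ ∘ T, a.comp Tc, b2, t2, e2, rfl⟩)
    (div_nonneg (by linarith) (by positivity))).trans ?_
  have m1 := mpos a b e
  have m2 := mpos (a.comp Tc) b2 e2
  simp only [ng φ, Function.comp] at *
  rw [div_mul_div_comm, div_le_div_iff₀ (by positivity) m1]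
  have p : 0 ≤ ∫ z, ‖fderiv ℝ φ z‖ ^ 2 := by positivity
  calc _ ≤ (1 + ε) ^ 2 * (∫ z, ‖fderiv ℝ φ z‖ ^ 2) * ((1 + ε) * ∫ z, φ (T z) ^ 2) := by
        refine mul_le_mul ?_ c1 m1.le (by positivity)
        nlinarith [mul_le_mul_of_nonneg_left c4 (sub_pos.2 e1).le,
          mul_le_mul_of_nonneg_left c2 (sq_nonneg (1 + ε))]
    _ = _ := by ring

lemma exmin {Ω : Set (EuclideanSpace ℝ (Fin (n + 2)))} (hb : Bornology.IsBounded Ω) {ρ R R' : ℝ} (h0 : 0 ≤ R) (h1 : 0 < R + ρ)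
    (h2 : R + ρ < R') (h3 : ball 0 R' ⊆ Ω) :
    ∃ x ∈ closedBall (0 : (EuclideanSpace ℝ (Fin (n + 2)))) R, IsMinOn (fun x => lam (Ω \ closedBall x ρ)) (closedBall 0 R) x := by
  refine LowerSemicontinuousOn.exists_isMinOn (nonempty_closedBall.2 h0) (isCompact_closedBall _ _)
    fun x hx y hy => ?_
  have a : ContinuousAt (fun ε : ℝ => (1 - ε) / (1 + ε) ^ 3 * lam (Ω \ closedBall x ρ)) 0 := by
    fun_prop (disch := norm_num)
  obtain ⟨ε, e1, e2⟩ := (((a.eventually (lt_mem_nhds (by simpa using hy))).filter_mono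
    nhdsWithin_le_nhds).and (Ioo_mem_nhdsGT one_pos)).exists
  obtain ⟨δ, d0, hδ⟩ := move hb h1 h2 h3 e2.1 e2.2
  filter_upwards [mem_nhdsWithin_of_mem_nhds (ball_mem_nhds x d0), self_mem_nhdsWithin] with z z1 z2
  have := hδ x hx (z - x) (mem_ball_iff_norm.1 z1)
  rw [add_sub_cancel] at this
  obtain ⟨t, t1, t2⟩ := exists_between h2
  obtain ⟨w, hw⟩ := exists_norm_eq (EuclideanSpace ℝ (Fin (n + 2))) (h1.trans t1).le
  refine e1.trans_le (this ⟨w, inter_mem (mem_of_superset (isOpen_ball.mem_nhds (by simpa [hw])) h3)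
    (isClosed_closedBall.isOpen_compl.mem_nhds fun i => ?_)⟩)
  linarith [mem_closedBall.1 i, mem_closedBall.1 z2, dist_triangle w z 0, dist_zero_right w]

end Pool.Agent.KS6_36.BO
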