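import Pool.Agent.KS6_36.BO.Rad
import Pool.Graph.R_pool_sql_team_seeded_2aa45f1a.Q161.Bes.Ser
import Pool.Graph.R_pool_sql_team_seeded_ab47071d.TH795.LT.ODEP

/-! The two radial solutions. -/

open Set Metric Filter Topology Real
open scoped ContDiff
open Pool.Agent.Q161.Bes

namespace Pool.Agent.KS6_36.BO

lemma contDiff_G (m : ℕ) : ∀ ν : ℝ, -1 < ν → ContDiff ℝ m (G ν) := by
  induction m with
  | zero => exact fun ν h => contDiff_zero.2 (continuous_iff_continuousAt.2 fun t => (G_deriv h t).continuousAt)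
  | succ m ih =>
    intro ν h
    have e : deriv (G ν) = fun t => -G (ν + 1) t := funext fun t => (G_deriv h t).deriv
    rw [show ((m + 1 : ℕ) : WithTop ℕ∞) = (m : WithTop ℕ∞) + 1 by push_cast; rfl, contDiff_succ_iff_deriv]
    refine ⟨fun t => (G_deriv h t).differentiableAt, by simp, ?_⟩
    rw [e]
    exact (ih (ν + 1) (by linarith)).neg

/-- the regular radial solution -/
noncomputable def J (n : ℕ) (s : ℝ) : ℝ := Real.Gamma (n / 2 + 1) * G (n / 2) (s / 4)

/-- its derivative -/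
noncomputable def J1 (n : ℕ) (s : ℝ) : ℝ := -(Real.Gamma (n / 2 + 1) * G (n / 2 + 1) (s / 4) / 4)

variable {n : ℕ}

lemma nu (n : ℕ) : (-1 : ℝ) < n / 2 := by
  have : (0 : ℝ) ≤ n := Nat.cast_nonneg n
  linarith

lemma hasDerivAt_J (s : ℝ) : HasDerivAt (J n) (J1 n s) s := by
  have h := ((G_deriv (nu n) (s / 4)).comp s ((hasDerivAt_id s).div_const 4)).const_mul
    (Real.Gamma (n / 2 + 1))
  exact h.congr_deriv (by rw [J1]; ring)

lemma deriv_J : deriv (J n) = J1 n := funext fun s => (hasDerivAt_J s).deriv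

lemma hasDerivAt_J1 (s : ℝ) :
    HasDerivAt (J1 n) (Real.Gamma (n / 2 + 1) * G (n / 2 + 1 + 1) (s / 4) / 16) s := by
  have h := (((G_deriv (ν := n / 2 + 1) (by linarith [nu n]) (s / 4)).comp s
    ((hasDerivAt_id s).div_const 4)).const_mul (Real.Gamma (n / 2 + 1))).div_const 4
  exact h.neg.congr_deriv (by ring)

lemma J_zero : J n 0 = 1 := by
  have h : 0 < Real.Gamma (n / 2 + 1 : ℝ) := Real.Gamma_pos_of_pos (by linarith [nu n])
  have e : G (n / 2) 0 = cf (n / 2) 0 := by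
    unfold G
    rw [tsum_eq_single 0 fun k hk => by simp [hk]]
    simp
  rw [J, zero_div, e, cf]
  simp
  field_simp

lemma contDiff_J : ContDiff ℝ ∞ (J n) := by
  have h : ContDiff ℝ ∞ (G (n / 2)) := contDiff_infty.2 fun m => contDiff_G m _ (nu n)
  exact contDiff_const.mul (h.comp (contDiff_id.div_const 4))

lemma rad_J (s : ℝ) : Rad n (J n) s := by
  refine ⟨contDiff_J.contDiffAt, ?_⟩
  rw [deriv_J, (hasDerivAt_J1 s).deriv, J1, J]
  have := G_rec (nu n) (s / 4)
  rw [this]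
  ring

lemma rad_mk {U U1 : ℝ → ℝ} {U2 s : ℝ} (h0 : ContDiffAt ℝ ∞ U s) (h1 : ∀ᶠ t in 𝓝 s, HasDerivAt U (U1 t) t)
    (h2 : HasDerivAt U1 U2 s) (h3 : 4 * s * U2 + 2 * (n + 2) * U1 s + U s = 0) : Rad n U s := by
  have e : deriv U =ᶠ[𝓝 s] U1 := h1.mono fun t ht => ht.deriv
  refine ⟨h0, ?_⟩
  rw [e.deriv_eq, e.eq_of_nhds, h2.deriv, h3]

/-- the Wronskian of two radial solutions -/
lemma wronsk_const {U U1 V V1 : ℝ → ℝ} (hU : ∀ s, 0 < s → HasDerivAt U (U1 s) s)
    (hU1 : ∀ s, 0 < s → HasDerivAt U1 (-(2 * (n + 2) * U1 s + U s) / (4 * s)) s)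
    (hV : ∀ s, 0 < s → HasDerivAt V (V1 s) s)
    (hV1 : ∀ s, 0 < s → HasDerivAt V1 (-(2 * (n + 2) * V1 s + V s) / (4 * s)) s) (x X : ℝ) :
    exp ((n / 2 + 1) * x) * (U (exp x) * V1 (exp x) - U1 (exp x) * V (exp x)) =
      exp ((n / 2 + 1) * X) * (U (exp X) * V1 (exp X) - U1 (exp X) * V (exp X)) := by
  have dw : ∀ x, HasDerivAt (fun x => exp ((n / 2 + 1) * x) *
      (U (exp x) * V1 (exp x) - U1 (exp x) * V (exp x))) 0 x := by
    intro x
    have e := hasDerivAt_exp x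
    have p := exp_pos x
    have a := ((hasDerivAt_id x).const_mul (n / 2 + 1 : ℝ)).exp
    have b := (((hU (exp x) p).comp x e).mul ((hV1 (exp x) p).comp x e)).sub
      (((hU1 (exp x) p).comp x e).mul ((hV (exp x) p).comp x e))
    refine (a.mul b).congr_deriv ?_
    simp only [Function.comp, id, Pi.sub_apply, Pi.mul_apply]
    field_simp
    ring
  exact is_const_of_deriv_eq_zero (fun x => (dw x).differentiableAt) (fun x => (dw x).deriv) x X

open Pool.Agent.Helper209.AC (IsSol) in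
/-- the singular radial solution -/
theorem exists_Y (n : ℕ) : ∃ Y Y1 : ℝ → ℝ, (∀ s, 0 < s → Rad n Y s) ∧
    (∀ s, 0 < s → HasDerivAt Y (Y1 s) s) ∧
    ∀ r, 0 < r → 2 * r ^ (n + 2) * (J n (r ^ 2) * Y1 (r ^ 2) - J1 n (r ^ 2) * Y (r ^ 2)) = -1 := by
  obtain ⟨s0, hs0, hJ0⟩ : ∃ s0, 0 < s0 ∧ J n s0 ≠ 0 := by
    have h := ((contDiff_J (n := n)).continuous.tendsto 0).eventually (isOpen_ne.mem_nhds (show J n 0 ≠ 0 by rw [J_zero]; simp))
    have h' := (h.filter_mono (nhdsWithin_le_nhds (s := Ioi 0))).and self_mem_nhdsWithin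
    obtain ⟨s, h1, h2⟩ := h'.exists
    exact ⟨s, h2, h1⟩
  -- the equation in the logarithmic variable
  set A : ℝ → ℝ := fun x => ((n / 2) ^ 2 - exp x) / 4 with hA
  have cA : Continuous fun x => (A x : ℂ) := by
    rw [hA]; fun_prop
  set X := log s0 with hX
  obtain ⟨S, T, h, -, -⟩ := Pool.Agent.TH795.LT.exists_sol_param (fun x => (A x : ℂ)) (fun _ => 0) cA
    continuous_const X
  obtain ⟨hS, i1, i2⟩ := h (0, (0, 1))
  set ψ : ℝ → ℝ := fun x => (S (0, (0, 1)) x).re with hψ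
  set χ : ℝ → ℝ := fun x => (T (0, (0, 1)) x).re with hχ
  have hre : ∀ {f : ℝ → ℂ} {f' : ℂ} {x : ℝ}, HasDerivAt f f' x → HasDerivAt (fun x => (f x).re) f'.re x := by
    intro f f' x hf
    exact (Complex.reCLM.hasFDerivAt (x := f x)).comp_hasDerivAt x hf
  have d1 : ∀ x, HasDerivAt ψ (χ x) x := fun x => hre (hS x).1
  have d2 : ∀ x, HasDerivAt χ (A x * ψ x) x := fun x => (hre (hS x).2).congr_deriv (by simp [hψ])
  have hψX : ψ X = 0 := by rw [hψ]; simp [i1]
  have hχX : χ X = 1 := by rw [hχ]; simp [i2]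
  have sA : ∀ m : ℕ, ContDiff ℝ m A := fun m => by rw [hA]; fun_prop
  have sm : ∀ m : ℕ, ContDiff ℝ m ψ ∧ ContDiff ℝ m χ := by
    intro m
    induction m with
    | zero => exact ⟨contDiff_zero.2 (continuous_iff_continuousAt.2 fun t => (d1 t).continuousAt),
        contDiff_zero.2 (continuous_iff_continuousAt.2 fun t => (d2 t).continuousAt)⟩
    | succ m ih =>
      have e1 : deriv ψ = χ := funext fun t => (d1 t).deriv
      have e2 : deriv χ = fun t => A t * ψ t := funext fun t => (d2 t).deriv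
      rw [show ((m + 1 : ℕ) : WithTop ℕ∞) = (m : WithTop ℕ∞) + 1 by push_cast; rfl,
        contDiff_succ_iff_deriv, contDiff_succ_iff_deriv, e1, e2]
      exact ⟨⟨fun t => (d1 t).differentiableAt, by simp, ih.2⟩,
        fun t => (d2 t).differentiableAt, by simp, (sA m).mul ih.1⟩
  have sψ : ContDiff ℝ ∞ ψ := contDiff_infty.2 fun m => (sm m).1
  set Y : ℝ → ℝ := fun s => exp (-(n / 4) * log s) * ψ (log s) with hY
  set Y1 : ℝ → ℝ := fun s => exp (-(n / 4) * log s) * (χ (log s) - n / 4 * ψ (log s)) / s with hY1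
  have D1 : ∀ s, 0 < s → HasDerivAt Y (Y1 s) s := by
    intro s hs
    have l := hasDerivAt_log hs.ne'
    have a := (l.const_mul (-(n / 4 : ℝ))).exp
    have b := (d1 (log s)).comp s l
    exact (a.mul b).congr_deriv (by simp only [hY1, Function.comp]; field_simp; ring)
  have D2 : ∀ s, 0 < s → HasDerivAt Y1 (-(2 * (n + 2) * Y1 s + Y s) / (4 * s)) s := by
    intro s hs
    have l := hasDerivAt_log hs.ne'
    have a := (l.const_mul (-(n / 4 : ℝ))).exp
    have b := ((d2 (log s)).comp s l).sub (((d1 (log s)).comp s l).const_mul (n / 4 : ℝ))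
    refine ((a.mul b).div (hasDerivAt_id s) hs.ne').congr_deriv ?_
    simp only [hY1, hY, Function.comp, hA, exp_log hs, id, Pi.sub_apply, Pi.mul_apply]
    field_simp
    ring
  have RY : ∀ s, 0 < s → Rad n Y s := by
    intro s hs
    refine rad_mk ?_ ((eventually_gt_nhds hs).mono fun t ht => D1 t ht) (D2 s hs) ?_
    · have l : ContDiffAt ℝ ∞ log s := contDiffAt_log.2 hs.ne'
      exact (contDiffAt_const.mul l).exp.mul (sψ.contDiffAt.comp s l)
    · field_simp
      ring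
  -- the Wronskian
  have hJ1 : ∀ s, 0 < s → HasDerivAt (J1 n) (-(2 * (n + 2) * J1 n s + J n s) / (4 * s)) s := by
    intro s hs
    refine (hasDerivAt_J1 s).congr_deriv ?_
    have ode := (rad_J (n := n) s).2
    rw [deriv_J, (hasDerivAt_J1 s).deriv] at ode
    rw [eq_div_iff (by positivity)]
    linear_combination ode
  have cw := wronsk_const (n := n) (fun s _ => hasDerivAt_J (n := n) s) hJ1 D1 D2
  set w : ℝ → ℝ := fun x => exp ((n / 2 + 1) * x) * (J n (exp x) * Y1 (exp x) - J1 n (exp x) * Y (exp x)) with hw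
  have wX : w X ≠ 0 := by
    simp only [hw, hX, exp_log hs0, hY, hY1]
    rw [← hX, hψX, hχX]
    have := exp_pos ((n / 2 + 1) * X)
    have := exp_pos (-(n / 4 : ℝ) * X)
    simp
    exact ⟨hJ0, hs0.ne'⟩
  refine ⟨fun s => -(2 * w X)⁻¹ * Y s, fun s => -(2 * w X)⁻¹ * Y1 s, fun s hs => (RY s hs).const_mul _,
    fun s hs => (D1 s hs).const_mul _, fun r hr => ?_⟩
  have h1 : w (2 * log r) = w X := cw (2 * log r) X
  have e1 : exp (2 * log r) = r ^ 2 := by
    rw [mul_comm, exp_mul, exp_log hr]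
    norm_num
  have e2 : exp ((n / 2 + 1) * (2 * log r)) = r ^ (n + 2) := by
    rw [show ((n : ℝ) / 2 + 1) * (2 * log r) = log r * ((n + 2 : ℕ) : ℝ) by push_cast; ring, exp_mul,
      exp_log hr, rpow_natCast]
  have h2 : w (2 * log r) = r ^ (n + 2) * (J n (r ^ 2) * Y1 (r ^ 2) - J1 n (r ^ 2) * Y (r ^ 2)) := by
    rw [← e1, ← e2]
  rw [h1] at h2
  clear_value w Y Y1
  field_simp
  linear_combination h2

end Pool.Agent.KS6_36.BO
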