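import Pool.Agent.KS6_36.BO.Pot2

/-! The comparison of two positions of the obstacle. -/

open Set Metric Filter Topology Real
open scoped RealInnerProductSpace

namespace Pool.Agent.KS6_36.BO

variable {n : ℕ}

lemma ev_lt (c : ℝ) {d : ℝ} (hd : 0 < d) : ∀ᶠ η in 𝓝[>] (0 : ℝ), c * η < d := by
  have : Tendsto (fun η : ℝ => c * η) (𝓝[>] 0) (𝓝 0) := by
    have h : Tendsto (fun η : ℝ => c * η) (𝓝 0) (𝓝 (c * 0)) := (continuous_const_mul c).tendsto 0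
    rw [mul_zero] at h
    exact h.mono_left nhdsWithin_le_nhds
  exact this.eventually (gt_mem_nhds hd)

lemma ev_pos : ∀ᶠ η in 𝓝[>] (0 : ℝ), 0 < η := self_mem_nhdsWithin

/-- bounds for the charges -/
lemma charges {x : (EuclideanSpace ℝ (Fin (n + 2)))} (hx : ‖x‖ ≤ al n / 2) {s η δ : ℝ} (hs : |s| * η ≤ 1) (η0 : 0 ≤ η) (δ0 : 0 < δ) :
    (∀ i : Ix n, 0 ≤ -gam n ‖x - pt i‖ ∧ -gam n ‖x - pt i‖ ≤ 1) ∧
    ∑ i : Ix n, |δ * (-gam n ‖x - pt i‖ - s * η)| ≤ Fintype.card (Ix n) * (2 * δ) := by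
  have ha := al_pos n
  have ha2 := al_le n
  have h : ∀ i : Ix n, 0 ≤ -gam n ‖x - pt i‖ ∧ -gam n ‖x - pt i‖ ≤ 1 := fun i => by
    have r := dist_pt x i
    have r1 : 1 ≤ ‖x - pt i‖ := by linarith
    refine ⟨by linarith [gam_le_one (n := n) r1], ?_⟩
    have := gam_lip (n := n) r1 le_rfl
    rw [gam_one, sub_zero] at this
    have h2 : |‖x - pt i‖ - 1| ≤ 1 := abs_le.2 ⟨by linarith, by linarith⟩
    linarith [neg_abs_le (gam n ‖x - pt i‖)]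
  refine ⟨h, ?_⟩
  have : ∀ i ∈ (Finset.univ : Finset (Ix n)), |δ * (-gam n ‖x - pt i‖ - s * η)| ≤ 2 * δ := fun i _ => by
    rw [abs_mul, abs_of_pos δ0, mul_comm]
    refine mul_le_mul_of_nonneg_right ?_ δ0.le
    have h1 := abs_sub (-gam n ‖x - pt i‖) (s * η)
    rw [abs_of_nonneg (h i).1, abs_mul, abs_of_nonneg η0] at h1
    linarith [(h i).2]
  refine (Finset.sum_le_sum this).trans ?_
  simp

lemma pot (n : ℕ) : ∃ ε v1 v2 μ Q : ℝ, 0 < ε ∧ ε ≤ al n / 8 ∧ v1 < v2 ∧ |v1| ≤ -gam n 2 / 8 ∧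
    |v2| ≤ -gam n 2 / 8 ∧ |v1| ≤ 1 ∧ |v2| ≤ 1 ∧ 0 < μ ∧ 0 ≤ Q ∧
    (∀ x : EuclideanSpace ℝ (Fin (n + 2)), al n / 4 ≤ ‖x‖ → ‖x‖ ≤ al n / 2 → ∃ q : Ix n → ℝ,
      ∑ j, |qq x q j| ≤ Q ∧ ∀ y, (‖y - x‖ = 1 ∨ (1 ≤ ‖y - x‖ ∧ ∃ i : Ix n, ‖y - pt i‖ = ε)) → μ ≤ v1 - Ue x q y) ∧
    ∃ q : Ix n → ℝ, ∑ j, |qq (0 : EuclideanSpace ℝ (Fin (n + 2))) q j| ≤ Q ∧
      ∀ y : EuclideanSpace ℝ (Fin (n + 2)), (‖y - 0‖ = 1 ∨ (1 ≤ ‖y - 0‖ ∧ ∃ i : Ix n, ‖y - pt i‖ = ε)) →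
      v2 - Ue 0 q y ≤ -μ := by
  have ha := al_pos n
  have ha2 := al_le n
  have hg : 0 < -gam n 2 := by
    have := gam_anti (n := n) (by simp : (1 : ℝ) ∈ Ioi 0) (by simp : (2 : ℝ) ∈ Ioi 0) (by norm_num)
    rw [gam_one] at this
    linarith
  set g := -gam n 2 with hgdef
  obtain ⟨mm, hmm⟩ : ∃ mm : ℝ, mm = Fintype.card (Ix n) := ⟨_, rfl⟩
  have m1 : 1 ≤ mm := by
    rw [hmm]
    exact_mod_cast Fintype.card_pos (α := Ix n)
  set Γ := |gam n (al n / 4)| with hΓ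
  have Γ0 : 0 ≤ Γ := abs_nonneg _
  set C1 := 1 + 2 * mm * (9 + Γ) with hC1
  have C11 : mm + 3 ≤ C1 := by nlinarith
  set C := 2 * C1 with hC
  have C0 : 0 < C := by linarith
  -- the small parameter
  obtain ⟨η, η0, η1, η2, η3, η4, η5⟩ : ∃ η : ℝ, 0 < η ∧ C * η < 1 ∧ 4 * C * mm * η < al n ^ 2 / 128 ∧
      (mm + 2) * η < g / 8 ∧ (mm + 2) * η < 1 ∧ 1 * η < 1 := by
    obtain ⟨η, h⟩ := (ev_pos.and
      ((ev_lt C one_pos).and ((ev_lt (4 * C * mm) (show 0 < al n ^ 2 / 128 by positivity)).and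
      ((ev_lt (mm + 2) (show 0 < g / 8 by positivity)).and ((ev_lt (mm + 2) one_pos).and
      (ev_lt 1 one_pos)))))).exists
    exact ⟨η, h⟩
  obtain ⟨ε, ε0, ε1, ε2, ε3⟩ : ∃ ε : ℝ, 0 < ε ∧ 1 * ε < η ∧ 1 * ε < al n / 8 ∧ 1 / η ≤ gam n ε := by
    obtain ⟨ε, h⟩ := (ev_pos.and
      ((ev_lt 1 η0).and ((ev_lt 1 (show 0 < al n / 8 by positivity)).and
      ((gam_tendsto (n := n)).eventually_ge_atTop (1 / η))))).exists
    exact ⟨ε, h⟩
  rw [one_mul] at ε1 ε2 η5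
  have γ0 : 0 < gam n ε := lt_of_lt_of_le (by positivity) ε3
  set δ := 1 / gam n ε with hδ
  have δ0 : 0 < δ := by positivity
  have δγ : δ * gam n ε = 1 := by rw [hδ]; field_simp
  have δη : δ ≤ η := by
    rw [hδ, div_le_iff₀ γ0]
    rw [div_le_iff₀ η0] at ε3
    linarith
  have δ1 : δ ≤ 1 := δη.trans η5.le
  -- the energy
  have F0 : 0 ≤ Fe (0 : EuclideanSpace ℝ (Fin (n + 2))) := Finset.sum_nonneg fun i _ => sq_nonneg _
  have F1 : Fe (0 : EuclideanSpace ℝ (Fin (n + 2))) ≤ mm := by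
    have hb := (charges (n := n) (x := 0) (s := 0) (η := 0) (δ := 1) (by simp; linarith) (by simp) le_rfl one_pos).1
    unfold Fe
    calc _ ≤ ∑ i : Ix n, (1 : ℝ) := Finset.sum_le_sum fun i _ => by
          have := hb i
          nlinarith
      _ = mm := by simp [hmm]
  set F := Fe (0 : EuclideanSpace ℝ (Fin (n + 2))) with hF
  set v1 := -(δ * F) - δ * (al n ^ 2 / 128) + 2 * (δ * C * η * mm) with hv1
  set v2 := -(δ * F) - 2 * (δ * C * η * mm) with hv2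
  have p1 : 0 < δ * C * η * mm := by positivity
  have p2 : 4 * (δ * C * η * mm) < δ * (al n ^ 2 / 128) := by
    have := mul_lt_mul_of_pos_left η2 δ0
    linarith
  have p3 : δ * (al n ^ 2 / 128) ≤ δ := by
    have : al n ^ 2 ≤ 1 := by nlinarith
    nlinarith
  have p4 : δ * F ≤ δ * mm := mul_le_mul_of_nonneg_left F1 δ0.le
  have p5 : 0 ≤ δ * F := by positivity
  have p6 : δ * mm + δ ≤ (mm + 2) * η := by nlinarith
  have av1 : |v1| ≤ (mm + 2) * η := abs_le.2 ⟨by linarith, by linarith⟩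
  have av2 : |v2| ≤ (mm + 2) * η := abs_le.2 ⟨by linarith, by linarith⟩
  have main : ∀ (s : ℝ) (x : EuclideanSpace ℝ (Fin (n + 2))), (s = C ∨ s = -C) → ‖x‖ ≤ al n / 2 →
      ∑ j, |qq x (fun i => δ * (-gam n ‖x - pt i‖ - s * η)) j| ≤ 1 + 6 * mm ∧
      (∀ y, ‖y - x‖ = 1 → Ue x (fun i => δ * (-gam n ‖x - pt i‖ - s * η)) y =
        -(δ * Fe x) + δ * s * η * ∑ i, -gam n ‖x - pt i‖) ∧
      (∀ y, (∃ i : Ix n, ‖y - pt i‖ = ε) → |Ue x (fun i => δ * (-gam n ‖x - pt i‖ - s * η)) y + s * η| ≤ C1 * η) ∧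
      0 ≤ ∑ i : Ix n, -gam n ‖x - pt i‖ ∧ ∑ i : Ix n, -gam n ‖x - pt i‖ ≤ mm := by
    intro s x hs hx
    have hs' : |s| * η ≤ 1 := by
      rcases hs with rfl | rfl
      · rw [abs_of_pos C0]; exact η1.le
      · rw [abs_neg, abs_of_pos C0]; exact η1.le
    obtain ⟨hb, hD⟩ := charges hx hs' η0.le δ0
    rw [← hmm] at hD
    refine ⟨?_, fun y hy => ?_, fun y ⟨i, hi⟩ => ?_, Finset.sum_nonneg fun i _ => (hb i).1, ?_⟩
    · refine (abs_qq hx hD).2.trans ?_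
      nlinarith
    · rw [Ue_sphere _ hx hy, Fe, Finset.mul_sum, Finset.mul_sum, ← Finset.sum_neg_distrib,
        ← Finset.sum_add_distrib]
      refine Finset.sum_congr rfl fun i _ => ?_
      ring
    · have := Ue_cage ε0 ε2.le hx hD hi
      have e1 : gam n ‖x - pt i‖ + δ * (-gam n ‖x - pt i‖ - s * η) * gam n ε = -(s * η) := by
        have : δ * (-gam n ‖x - pt i‖ - s * η) * gam n ε = (δ * gam n ε) * (-gam n ‖x - pt i‖ - s * η) := by ring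
        rw [this, δγ]
        ring
      rw [e1, sub_neg_eq_add] at this
      refine this.trans ?_
      rw [hC1]
      have : mm * (2 * δ) * (9 + Γ) ≤ mm * (2 * η) * (9 + Γ) := by gcongr
      nlinarith
    · calc _ ≤ ∑ i : Ix n, (1 : ℝ) := Finset.sum_le_sum fun i _ => (hb i).2
        _ = mm := by simp [hmm]
  refine ⟨ε, v1, v2, min (δ * C * η * mm) η, 1 + 6 * mm, ε0, ε2.le, by linarith, by linarith, by linarith,
    by linarith, by linarith, lt_min p1 η0, by linarith, fun x x1 x2 => ?_, ?_⟩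
  · obtain ⟨a1, a2, a3, a4, a5⟩ := main C x (Or.inl rfl) x2
    refine ⟨_, a1, fun y hy => ?_⟩
    have hFx := Fe_lower x2
    rw [← hF] at hFx
    have hx2 : (al n / 4) ^ 2 ≤ ‖x‖ ^ 2 := pow_le_pow_left₀ (by positivity) x1 2
    rcases hy with h | ⟨-, h⟩
    · rw [a2 y h]
      refine (min_le_left _ _).trans ?_
      have u1 : δ * (F + al n ^ 2 / 128) ≤ δ * Fe x := mul_le_mul_of_nonneg_left (by nlinarith) δ0.le
      have u2 : δ * C * η * ∑ i : Ix n, -gam n ‖x - pt i‖ ≤ δ * C * η * mm :=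
        mul_le_mul_of_nonneg_left a5 (by positivity)
      linarith
    · have := (abs_le.1 (a3 y h)).2
      refine (min_le_right _ _).trans ?_
      nlinarith
  · obtain ⟨a1, a2, a3, a4, a5⟩ := main (-C) 0 (Or.inr rfl) (by simp; linarith)
    refine ⟨_, a1, fun y hy => ?_⟩
    rcases hy with h | ⟨-, h⟩
    · rw [a2 y h, ← hF]
      have u2 : δ * C * η * ∑ i : Ix n, -gam n ‖(0 : EuclideanSpace ℝ (Fin (n + 2))) - pt i‖ ≤ δ * C * η * mm :=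
        mul_le_mul_of_nonneg_left a5 (by positivity)
      have := min_le_left (δ * C * η * mm) η
      have e : δ * -C * η * ∑ i : Ix n, -gam n ‖(0 : EuclideanSpace ℝ (Fin (n + 2))) - pt i‖ =
        -(δ * C * η * ∑ i : Ix n, -gam n ‖(0 : EuclideanSpace ℝ (Fin (n + 2))) - pt i‖) := by ring
      rw [e]
      linarith
    · have := (abs_le.1 (a3 y h)).1
      have := min_le_right (δ * C * η * mm) η
      nlinarith

end Pool.Agent.KS6_36.BO
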