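import Pool.Agent.KS6_36.BO.Pos
import Pool.Agent.KS6_36.BO.Pot3
import Pool.Agent.KS6_36.BO.B

/-! The domain. -/

open Set Metric Filter Topology Real
open scoped ContDiff

namespace Pool.Agent.KS6_36.BO

variable {n : ℕ}

/-- the wave number, the container and the two comparison functions -/
lemma setup (n : ℕ) : ∃ (Y Y1 : ℝ → ℝ) (k ε L A1 A2 κ : ℝ) (q0 : Ix n → ℝ), (∀ s, 0 < s → Rad n Y s) ∧
    (∀ s, 0 < s → HasDerivAt Y (Y1 s) s) ∧
    (∀ r, 0 < r → 2 * r ^ (n + 2) * (J n (r ^ 2) * Y1 (r ^ 2) - J1 n (r ^ 2) * Y (r ^ 2)) = -1) ∧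
    0 < k ∧ 0 < ε ∧ ε ≤ al n / 8 ∧ 3 < L ∧
    (∀ x : EuclideanSpace ℝ (Fin (n + 2)), al n / 4 ≤ ‖x‖ → ‖x‖ ≤ al n / 2 → ∃ q : Ix n → ℝ,
      ∀ y ∈ Tx L ε x, 0 < Wf Y A1 κ k (zz x) (qq x q) y) ∧
    (∀ y ∈ Tx L ε 0, y ∉ Vx L ε 0 → Wf Y A2 κ k (zz 0) (qq 0 q0) y < 0) ∧
    ∃ y ∈ Vx L ε 0, 0 < Wf Y A2 κ k (zz 0) (qq 0 q0) y := by
  have ha := al_pos n
  have ha2 := al_le n
  obtain ⟨Y, Y1, hR, hY, hw⟩ := exists_Y n
  obtain ⟨r', r1, R0, c, M, h0, h1, h2, c0, M0, hp, hz1, hYc, hJc, hM⟩ := near_zero hY hw hR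
  obtain ⟨ε, v1, v2, μ, Q, ε0, ε1, v12, av1, av2, bv1, bv2, μ0, Q0, P1, q0, P2, P3⟩ := pot n
  obtain ⟨k, k0, kin, ⟨R, hR1, hR2, hout⟩, k4⟩ := (ev_pos.and ((inner_lim (ι := Cx n) hY hw ε0 Q0
    (half_pos μ0)).and ((outer (ι := Cx n) hY hw h0 h1 h2 c0 M0 hp hz1 hYc hJc hM Q0 v12 av1 av2).and
    (ev_lt 4 h0)))).exists
  have RL : ∀ y : EuclideanSpace ℝ (Fin (n + 2)), ‖y‖ ≤ R / k → k * ‖y‖ ≤ R := fun y h => by
    rwa [le_div_iff₀ k0, mul_comm] at h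
  have r4 : 4 < r' / k := by rw [lt_div_iff₀ k0]; linarith
  have rR : r' / k < R / k := div_lt_div_of_pos_right (by linarith) k0
  have near : ∀ (v : ℝ) (x : EuclideanSpace ℝ (Fin (n + 2))) (q : Ix n → ℝ), |v| ≤ 1 → ‖x‖ ≤ al n / 2 →
      ∑ j, |qq x q j| ≤ Q → ∀ y, (‖y - x‖ = 1 ∨ (1 ≤ ‖y - x‖ ∧ ∃ i : Ix n, ‖y - pt i‖ = ε)) →
      (∀ i : Ix n, ε ≤ ‖y - pt i‖) →
      |Wf Y (k ^ n * Y (k ^ 2) + v) (k ^ n) k (zz x) (qq x q) y - (v - Ue x q y)| ≤ μ / 2 := by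
    intro v x q hv hx hq y hy hc
    exact kin v (zz x) (qq x q) y hv (sum_qq x q) hq (dist_poles ε1 hx hy hc none).2
      fun j => (dist_poles ε1 hx hy hc j).1
  have z0 : ‖(0 : EuclideanSpace ℝ (Fin (n + 2)))‖ ≤ al n / 2 := by simp; linarith
  refine ⟨Y, Y1, k, ε, R / k, k ^ n * Y (k ^ 2) + v1, k ^ n * Y (k ^ 2) + v2, k ^ n, q0, hR, hY, hw, k0, ε0, ε1,
    by linarith, fun x x1 x2 => ?_, fun y hy hy' => ?_, ?_⟩
  · obtain ⟨q, hq, hqy⟩ := P1 x x1 x2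
    refine ⟨q, posW hR k0 ε0 x2 h0 h1 hp (fun y y1 y2 => (hout (zz x) (qq x q) (sum_qq x q) hq (zz_norm x2) y).1 y1 y2)
      hR1 fun y hy hc => ?_⟩
    have := (abs_le.1 (near v1 x q bv1 x2 hq y hy hc)).1
    have := hqy y hy
    linarith
  · rcases Tx_bdry hy hy' with h | h
    · exact (hout (zz 0) (qq 0 q0) (sum_qq 0 q0) P2 (zz_norm z0) y).2.1 (by rw [h]; field_simp)
    · have := (abs_le.1 (near v2 0 q0 bv2 z0 P2 y h hy.2.2)).2
      have := P3 y h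
      linarith
  · obtain ⟨y, hy⟩ := exists_norm_eq (EuclideanSpace ℝ (Fin (n + 2))) (show 0 ≤ r' / k by positivity)
    refine ⟨y, ⟨by rw [hy]; exact rR, by rw [sub_zero, hy]; linarith, fun i => ?_⟩,
      (hout (zz 0) (qq 0 q0) (sum_qq 0 q0) P2 (zz_norm z0) y).2.2 (by rw [hy]; field_simp)⟩
    have := norm_sub_norm_le y (pt i)
    rw [norm_pt, hy] at this
    linarith

/-- the singular solution is bounded below -/
lemma Y_low {Y Y1 : ℝ → ℝ} (hY : ∀ s, 0 < s → HasDerivAt Y (Y1 s) s)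
    (hw : ∀ r, 0 < r → 2 * r ^ (n + 2) * (J n (r ^ 2) * Y1 (r ^ 2) - J1 n (r ^ 2) * Y (r ^ 2)) = -1) (M : ℝ) :
    ∃ b, 0 ≤ b ∧ ∀ r, 0 < r → r ≤ M → -b ≤ Y (r ^ 2) := by
  have h := (tendsto_Y hY hw).eventually_ge_atTop 0
  rw [eventually_nhdsWithin_iff, Metric.eventually_nhds_iff] at h
  obtain ⟨δ, δ0, hδ⟩ := h
  obtain ⟨b, hb⟩ := (isCompact_Icc (a := δ / 2) (b := M)).exists_bound_of_continuousOn (f := fun r => Y (r ^ 2))
    fun r hr => (hasDerivAt_y hY (by linarith [hr.1])).continuousAt.continuousWithinAt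
  refine ⟨|b|, abs_nonneg b, fun r r0 rM => ?_⟩
  by_cases c : r < δ
  · have := hδ (y := r) (by rw [dist_zero_right, norm_eq_abs, abs_of_pos r0]; exact c) r0
    linarith [abs_nonneg b]
  · push Not at c
    have := hb r ⟨by linarith, rM⟩
    rw [norm_eq_abs] at this
    linarith [neg_abs_le (Y (r ^ 2)), le_abs_self b]

/-- the domain and the two eigenvalue bounds -/
theorem domain (n : ℕ) : ∃ (L : ℝ) (I : Finset (EuclideanSpace ℝ (Fin (n + 2)) × ℝ)) (lo : ℝ),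
    (∀ b ∈ I, 0 < b.2 ∧ closedBall b.1 b.2 ⊆ ball 0 L) ∧
    (∀ b ∈ I, ∀ b' ∈ I, b ≠ b' → Disjoint (closedBall b.1 b.2) (closedBall b'.1 b'.2)) ∧
    ball 0 (1 + 5 / 16 * al n) ⊆ ball 0 L \ ⋃ b ∈ I, closedBall b.1 b.2 ∧
    lam ((ball 0 L \ ⋃ b ∈ I, closedBall b.1 b.2) \ closedBall 0 1) ≤ lo ∧
    (∀ x, ball x 1 ⊆ ball 0 L \ ⋃ b ∈ I, closedBall b.1 b.2 → ‖x‖ ≤ al n / 2) ∧
    ∀ x, al n / 4 ≤ ‖x‖ → ‖x‖ ≤ al n / 2 →
      lo < lam ((ball 0 L \ ⋃ b ∈ I, closedBall b.1 b.2) \ closedBall x 1) := by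
  classical
  have ha := al_pos n
  have ha2 := al_le n
  obtain ⟨Y, Y1, k, ε, L, A1, A2, κ, q0, hR, hY, hw, k0, ε0, ε1, L3, hA, hB, yp, hyp, hyp'⟩ := setup n
  let G : Set (EuclideanSpace ℝ (Fin (n + 2))) := ball 0 L \ ⋃ i ∈ (Finset.univ : Finset (Ix n)), closedBall (pt i) ε
  have Go : IsOpen G := isOpen_ball.sdiff (Finset.univ.finite_toSet.isClosed_biUnion
    fun _ _ => isClosed_closedBall)
  have mG : ∀ z, z ∈ G ↔ ‖z‖ < L ∧ ∀ i : Ix n, ε < ‖z - pt i‖ := fun z => by simp [G, dist_eq_norm]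
  have GV : ∀ x, G \ closedBall x 1 = Vx L ε x := fun x => by
    ext z
    constructor
    · intro h
      obtain ⟨h1, h2⟩ := (mG z).1 h.1
      exact ⟨h1, by simpa [dist_eq_norm] using h.2, h2⟩
    · intro h
      exact ⟨(mG z).2 ⟨h.1, h.2.2⟩, by simpa [dist_eq_norm] using h.2.1⟩
  -- the traps
  obtain ⟨F, F1, F2, F3⟩ := ((isCompact_closedBall (0 : EuclideanSpace ℝ (Fin (n + 2))) L).diff
    (isOpen_ball (x := 0) (ε := 1 + 3 / 8 * al n))).finite_cover_balls (show 0 < al n / 8 by positivity)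
  let F' := F2.toFinset.filter (· ∈ G)
  have mF : ∀ p, p ∈ F' ↔ p ∈ F ∧ p ∈ G := fun p => by simp [F']
  have nF : ∀ p ∈ F', 1 + 3 / 8 * al n ≤ ‖p‖ := fun p hp => by
    have := (F1 ((mF p).1 hp).1).2
    simpa using this
  -- continuity and a point where the test function is positive and which is not a trap
  have z0 : ‖(0 : EuclideanSpace ℝ (Fin (n + 2)))‖ ≤ al n / 2 := by simp; linarith
  have sol : ∀ y ∈ Tx L ε 0, Sol k (Wf Y A2 κ k (zz 0) (qq 0 q0)) y := fun y hy =>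
    Wf_sol hR k0 fun j => zz_ne ε0 z0 hy.2.1 hy.2.2 j
  obtain ⟨z, hz1, hz2, hz3⟩ : ∃ z ∈ Vx L ε 0, z ∉ F' ∧ 0 < Wf Y A2 κ k (zz 0) (qq 0 q0) z := by
    have ev : ∀ᶠ z in 𝓝 yp, 0 < Wf Y A2 κ k (zz 0) (qq 0 q0) z ∧ z ∈ Vx L ε 0 :=
      ((sol yp (Vx_sub _ _ _ hyp)).1.continuousAt.eventually (lt_mem_nhds hyp')).and ((Vx_open _ _ _).mem_nhds hyp)
    obtain ⟨U, hU1, hU2, hU3⟩ := _root_.mem_nhds_iff.1 ev
    have : Dense ((F' : Set (EuclideanSpace ℝ (Fin (n + 2))))ᶜ) :=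
      Set.Countable.dense_compl ℝ F'.countable_toSet
    obtain ⟨z, hz, hz'⟩ := this.inter_open_nonempty U hU2 ⟨yp, hU3⟩
    exact ⟨z, (hU1 hz).2, hz', (hU1 hz).1⟩
  -- uniform negativity on the boundary
  obtain ⟨m, m0, hm⟩ : ∃ m : ℝ, 0 < m ∧ ∀ y ∈ Tx L ε 0, y ∉ Vx L ε 0 → Wf Y A2 κ k (zz 0) (qq 0 q0) y ≤ -m := by
    have hK : IsCompact (Tx L ε 0 \ Vx L ε (0 : EuclideanSpace ℝ (Fin (n + 2)))) :=
      (Tx_compact _ _ _).diff (Vx_open _ _ _)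
    rcases (Tx L ε 0 \ Vx L ε (0 : EuclideanSpace ℝ (Fin (n + 2)))).eq_empty_or_nonempty with h | h
    · exact ⟨1, one_pos, fun y hy hy' => (h.subset ⟨hy, hy'⟩).elim⟩
    · obtain ⟨y0, hy0, hmax⟩ := hK.exists_isMaxOn h (f := Wf Y A2 κ k (zz 0) (qq 0 q0))
        fun y hy => (sol y hy.1).1.continuousAt.continuousWithinAt
      refine ⟨-Wf Y A2 κ k (zz 0) (qq 0 q0) y0, neg_pos.2 (hB y0 hy0.1 hy0.2), fun y hy hy' => ?_⟩
      rw [neg_neg]
      exact hmax ⟨hy, hy'⟩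
  -- the poles at the traps
  obtain ⟨b, b0, hb⟩ := Y_low hY hw (k * (2 * L))
  have hinf : ∀ M : ℝ, ∀ᶠ r in 𝓝[>] (0 : ℝ), ∀ p ∈ F', ∀ y : EuclideanSpace ℝ (Fin (n + 2)), ‖y - p‖ = r →
      M ≤ Y (k ^ 2 * ‖y - p‖ ^ 2) := by
    intro M
    have h2 : Tendsto (fun r : ℝ => k * r) (𝓝[>] 0) (𝓝[>] 0) := by
      refine tendsto_nhdsWithin_iff.2 ⟨?_, ?_⟩
      · have : Tendsto (fun r : ℝ => k * r) (𝓝 0) (𝓝 (k * 0)) := (continuous_const_mul k).tendsto 0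
        rw [mul_zero] at this
        exact this.mono_left nhdsWithin_le_nhds
      · filter_upwards [self_mem_nhdsWithin] with r hr
        exact mul_pos k0 hr
    filter_upwards [h2.eventually ((tendsto_Y hY hw).eventually_ge_atTop M)] with r hr p _ y hy
    rw [hy, ← mul_pow]
    exact hr
  have up := ubp (k := k) (T := Tx L ε 0) (V := Vx L ε 0) (Tx_compact _ _ _) (Vx_open _ _ _) (Vx_sub _ _ _) F'
    (W := Wf Y A2 κ k (zz 0) (qq 0 q0)) sol m0 hm (fun p y => Y (k ^ 2 * ‖y - p‖ ^ 2))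
    (fun p _ y hy => Rad.sol (hR _ (by
      have : 0 < ‖y - p‖ := norm_pos_iff.2 (sub_ne_zero.2 hy)
      positivity))) b0 (fun p hp y hy hne => by
      have h1 : 0 < ‖y - p‖ := norm_pos_iff.2 (sub_ne_zero.2 hne)
      have h2 := hy.1
      have h3 := ((mG p).1 ((mF p).1 hp).2).1
      have := hb (k * ‖y - p‖) (by positivity) (mul_le_mul_of_nonneg_left (by linarith [norm_sub_le y p]) k0.le)
      rwa [mul_pow] at this) hinf (Vx_sub _ _ _ hz1) hz2 hz3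
  obtain ⟨t, ⟨up, t0⟩, t1, t2, t3⟩ := ((up.and self_mem_nhdsWithin).and (((eventually_lt_nhds
    (show 0 < al n / 16 by positivity)).and
    (((F'.eventually_all (p := fun p t => closedBall p t ⊆ G)).2 fun p hp => eventually_closedBall_subset
      (Go.mem_nhds ((mF p).1 hp).2)).and ((F'.offDiag.eventually_all (p := fun p t => t < dist p.1 p.2 / 2)).2
      fun p hp => eventually_lt_nhds (half_pos (dist_pos.2 (Finset.mem_offDiag.1 hp).2.2))))).filter_mono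
      nhdsWithin_le_nhds)).exists
  have t0 : 0 < t := t0
  let I : Finset (EuclideanSpace ℝ (Fin (n + 2)) × ℝ) := Finset.univ.image (fun i : Ix n => (pt i, ε)) ∪
    F'.image fun p => (p, t)
  have mI : ∀ b, b ∈ I ↔ (∃ i : Ix n, (pt i, ε) = b) ∨ ∃ p ∈ F', (p, t) = b := fun b => by
    simp only [I, Finset.mem_union, Finset.mem_image, Finset.mem_univ, true_and]
  have I1 : ∀ b ∈ I, 0 < b.2 ∧ closedBall b.1 b.2 ⊆ ball 0 L := fun b hb => by
    rcases (mI b).1 hb with ⟨i, rfl⟩ | ⟨p, hp, rfl⟩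
    · exact ⟨ε0, closedBall_subset_ball' (by
        have : dist (pt i) (0 : EuclideanSpace ℝ (Fin (n + 2))) = 1 + al n := by rw [dist_zero_right, norm_pt]
        simp only [this]
        linarith)⟩
    · exact ⟨t0, (t2 p hp).trans sdiff_subset⟩
  have I3 : ∀ i : Ix n, ∀ p ∈ F', Disjoint (closedBall (pt i) ε) (closedBall p t) := fun i p hp =>
    disjoint_left.2 fun z h1 h2 => (((mG z).1 (t2 p hp h2)).2 i).not_ge (mem_closedBall_iff_norm.1 h1)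
  have I2 : ∀ b ∈ I, ∀ b' ∈ I, b ≠ b' → Disjoint (closedBall b.1 b.2) (closedBall b'.1 b'.2) :=
    fun b hb b' hb' h => by
    rcases (mI b).1 hb with ⟨i, rfl⟩ | ⟨p, hp, rfl⟩ <;> rcases (mI b').1 hb' with ⟨j, rfl⟩ | ⟨p', hp', rfl⟩
    · have hij : i ≠ j := fun e => h (by rw [e])
      exact closedBall_disjoint_closedBall (by
        have := sep_pt hij
        rw [dist_eq_norm]
        linarith)
    · exact I3 _ _ hp'
    · exact (I3 _ _ hp).symm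
    · exact closedBall_disjoint_closedBall (by
        linarith [t3 (p, p') (Finset.mem_offDiag.2 ⟨hp, hp', fun e => h (congrArg (·, t) e)⟩)])
  have mO : ∀ z, z ∈ ball 0 L \ ⋃ b ∈ I, closedBall b.1 b.2 ↔ z ∈ G ∧ ∀ p ∈ F', z ∉ closedBall p t := fun z => by
    simp only [G, I, Finset.set_biUnion_union, Finset.set_biUnion_finset_image, Set.mem_sdiff, mem_union,
      not_or, and_assoc, mem_iUnion, not_exists]
  set Ω := ball 0 L \ ⋃ b ∈ I, closedBall b.1 b.2 with hΩ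
  have Oo : IsOpen Ω := isOpen_ball.sdiff (I.finite_toSet.isClosed_biUnion fun _ _ => isClosed_closedBall)
  have B : ball 0 (1 + 5 / 16 * al n) ⊆ Ω := fun z hz => by
    have hz := mem_ball_zero_iff.1 hz
    refine (mO z).2 ⟨(mG z).2 ⟨by linarith, fun i => ?_⟩, fun p hp i => ?_⟩
    · have := norm_sub_norm_le (pt i) z
      rw [norm_sub_rev, norm_pt] at this
      linarith
    · have h1 := nF p hp
      have h2 := mem_closedBall_iff_norm.1 i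
      have := norm_sub_norm_le p z
      rw [norm_sub_rev] at this
      linarith
  refine ⟨L, I, k ^ 2, I1, I2, B, up _ fun z hz => ?_, fun x hx => ?_, fun x x1 x2 => ?_⟩
  · have hz1 : z ∈ G \ closedBall 0 1 := by rw [GV]; exact hz.1
    exact ⟨(mO z).2 ⟨hz1.1, fun p hp i => hz.2 (mem_iUnion₂.2 ⟨p, hp, i⟩)⟩, hz1.2⟩
  · by_contra hcon
    push Not at hcon
    have x0 : 0 < ‖x‖ := by linarith
    set P := x + ((1 - al n / 8) * ‖x‖⁻¹) • x with hP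
    have e1 : ‖P‖ = ‖x‖ + (1 - al n / 8) := by
      have : P = (1 + (1 - al n / 8) * ‖x‖⁻¹) • x := by rw [hP, add_smul, one_smul]
      rw [this, norm_smul, norm_eq_abs, abs_of_pos (by
        have : 0 < (1 - al n / 8) * ‖x‖⁻¹ := mul_pos (by linarith) (inv_pos.2 x0)
        linarith)]
      field_simp
    have e2 : ‖P - x‖ = 1 - al n / 8 := by
      rw [hP, add_sub_cancel_left, norm_smul, norm_eq_abs, abs_of_pos (mul_pos (by linarith) (inv_pos.2 x0))]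
      field_simp
    have hPb : P ∈ ball x 1 := by
      rw [mem_ball_iff_norm, e2]
      linarith
    have hPO := hx hPb
    obtain ⟨p, p1, p2⟩ := mem_iUnion₂.1 (F3 ⟨ball_subset_closedBall hPO.1, fun j => by
      have := mem_ball_zero_iff.1 j
      linarith⟩)
    have hpx : p ∈ ball x 1 := by
      rw [mem_ball]
      have := dist_triangle p P x
      rw [dist_comm p P, dist_eq_norm P x, e2] at this
      linarith [mem_ball.1 p2]
    have := (mO p).1 (hx hpx)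
    exact this.2 p ((mF p).2 ⟨p1, this.1⟩) (mem_closedBall_self t0.le)
  · obtain ⟨q, hq⟩ := hA x x1 x2
    have x0 : 0 < ‖x‖ := by linarith
    refine lower (w := -(‖x‖⁻¹ • x)) hR k0 ε0 x2 hq (fun z hz => Vx_sub _ _ _ ?_) ?_
    · rw [← GV]
      exact ⟨((mO z).1 hz.1).1, hz.2⟩
    · have hn : ‖-(‖x‖⁻¹ • x)‖ = 1 := by
        rw [norm_neg, norm_smul, norm_inv, norm_norm, inv_mul_cancel₀ x0.ne']
      refine (Oo.sdiff isClosed_closedBall).mem_nhds ⟨B ?_, fun i => ?_⟩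
      · rw [mem_ball_zero_iff, hn]
        linarith
      · have h1 := mem_closedBall_iff_norm.1 i
        have h2 : ‖-(‖x‖⁻¹ • x) - x‖ = 1 + ‖x‖ := by
          have : -(‖x‖⁻¹ • x) - x = -((‖x‖⁻¹ + 1) • x) := by rw [add_smul, one_smul]; abel
          rw [this, norm_neg, norm_smul, norm_eq_abs, abs_of_pos (by positivity)]
          field_simp
        linarith

end Pool.Agent.KS6_36.BO
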