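import Pool.Agent.KS6_36.BO.Bes

/-! Behaviour of the singular radial solution near the origin. -/

open Set Metric Filter Topology Real
open scoped ContDiff

namespace Pool.Agent.KS6_36.BO

/-- the radial fundamental solution, normalised to vanish at `1` -/
noncomputable def gam (n : ℕ) (r : ℝ) : ℝ := if n = 0 then -log r else ((r ^ n)⁻¹ - 1) / n

variable {n : ℕ}

lemma gam_one : gam n 1 = 0 := by
  unfold gam; split_ifs <;> simp

lemma hasDerivAt_gam {r : ℝ} (hr : 0 < r) : HasDerivAt (gam n) (-(r ^ (n + 1))⁻¹) r := by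
  unfold gam
  rcases Nat.eq_zero_or_pos n with rfl | h
  · simp only [if_true]
    exact (hasDerivAt_log hr.ne').neg.congr_deriv (by simp)
  · have hn : (n : ℝ) ≠ 0 := by positivity
    simp only [h.ne', if_false]
    have := (((hasDerivAt_pow n r).inv (pow_ne_zero n hr.ne')).sub_const 1).div_const (n : ℝ)
    refine this.congr_deriv ?_
    obtain ⟨m, rfl⟩ : ∃ m, n = m + 1 := ⟨n - 1, by omega⟩
    push_cast at hn ⊢
    field_simp
    ring

/-- the Kelvin identity -/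
lemma gam_kelvin {t R : ℝ} (ht : 0 < t) (hR : 0 < R) :
    (R ^ n)⁻¹ * gam n (t / R) = gam n t - gam n R := by
  unfold gam
  split_ifs with h
  · subst h
    rw [log_div ht.ne' hR.ne']
    simp
    ring
  · have hn : (n : ℝ) ≠ 0 := by exact_mod_cast h
    rw [div_pow]
    field_simp
    ring

lemma gam_inv (r : ℝ) : 1 - (r ^ n)⁻¹ = -(n : ℝ) * gam n r := by
  unfold gam
  split_ifs with h
  · subst h; simp
  · have hn : (n : ℝ) ≠ 0 := by exact_mod_cast h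
    field_simp
    ring

lemma gam_anti : StrictAntiOn (gam n) (Ioi 0) := by
  refine strictAntiOn_of_deriv_neg (convex_Ioi 0)
    (fun r hr => (hasDerivAt_gam hr).continuousAt.continuousWithinAt) fun r hr => ?_
  rw [interior_Ioi] at hr
  rw [(hasDerivAt_gam hr).deriv]
  have : 0 < r := hr
  simp only [neg_lt_zero]
  positivity

lemma gam_le_one {r : ℝ} (hr : 1 ≤ r) : gam n r ≤ 0 := by
  rw [← gam_one (n := n)]
  exact gam_anti.antitoneOn (by simp : (1 : ℝ) ∈ Ioi 0) (show (0 : ℝ) < r by linarith) hr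

lemma gam_lip {r t : ℝ} (hr : 1 ≤ r) (ht : 1 ≤ t) : |gam n r - gam n t| ≤ |r - t| := by
  have := (convex_Ici (1 : ℝ)).norm_image_sub_le_of_norm_hasDerivWithin_le (f := gam n)
    (f' := fun r => -(r ^ (n + 1))⁻¹) (C := 1) (fun r hr => (hasDerivAt_gam
      (show (0 : ℝ) < r from lt_of_lt_of_le one_pos hr)).hasDerivWithinAt)
    (fun r hr => ?_) (x := t) (y := r) ht hr
  · simpa using this
  · rw [norm_neg, norm_inv, norm_pow, norm_eq_abs]
    have h1 : (1 : ℝ) ≤ r := hr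
    exact inv_le_one_of_one_le₀ (one_le_pow₀ (h1.trans (le_abs_self r)))

lemma gam_tendsto : Tendsto (gam n) (𝓝[>] 0) atTop := by
  unfold gam
  split_ifs with h
  · exact tendsto_neg_atBot_atTop.comp tendsto_log_nhdsGT_zero
  · have hn : 0 < (n : ℝ) := by positivity
    have h1 : Tendsto (fun r : ℝ => (r ^ n)⁻¹) (𝓝[>] 0) atTop := by
      refine tendsto_inv_nhdsGT_zero.comp (tendsto_nhdsWithin_iff.2 ⟨?_, ?_⟩)
      · have : Tendsto (fun r : ℝ => r ^ n) (𝓝 0) (𝓝 (0 ^ n)) := (continuous_pow n).tendsto 0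
        rw [zero_pow h] at this
        exact this.mono_left nhdsWithin_le_nhds
      · filter_upwards [self_mem_nhdsWithin] with r hr
        exact pow_pos (show (0 : ℝ) < r from hr) n
    exact (tendsto_atTop_add_const_right _ (-1) h1).atTop_div_const hn

section
variable {Y Y1 : ℝ → ℝ} (hY : ∀ s, 0 < s → HasDerivAt Y (Y1 s) s)
  (hw : ∀ r, 0 < r → 2 * r ^ (n + 2) * (J n (r ^ 2) * Y1 (r ^ 2) - J1 n (r ^ 2) * Y (r ^ 2)) = -1)

include hY in
lemma hasDerivAt_y {r : ℝ} (hr : 0 < r) : HasDerivAt (fun r => Y (r ^ 2)) (2 * r * Y1 (r ^ 2)) r := by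
  have := (hY (r ^ 2) (by positivity)).comp r (hasDerivAt_pow 2 r)
  exact this.congr_deriv (by push_cast; ring)

lemma hasDerivAt_j (r : ℝ) : HasDerivAt (fun r => J n (r ^ 2)) (2 * r * J1 n (r ^ 2)) r := by
  have := (hasDerivAt_J (n := n) (r ^ 2)).comp r (hasDerivAt_pow 2 r)
  exact this.congr_deriv (by push_cast; ring)

lemma exists_r0 (n : ℕ) : ∃ r0 : ℝ, 0 < r0 ∧ r0 < 1 ∧ ∀ r ∈ Icc 0 r0, 1 / 2 ≤ J n (r ^ 2) ∧ J n (r ^ 2) ≤ 2 := by
  have hc : ContinuousAt (fun r => J n (r ^ 2)) 0 := (hasDerivAt_j 0).continuousAt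
  have h : ∀ᶠ r in 𝓝 (0 : ℝ), J n (r ^ 2) ∈ Icc (1 / 2 : ℝ) 2 := by
    refine hc.eventually (Icc_mem_nhds ?_ ?_) <;> simp [J_zero] <;> norm_num
  obtain ⟨ε, e0, he⟩ := Metric.eventually_nhds_iff.1 h
  refine ⟨min (ε / 2) (1 / 2), by positivity, by linarith [min_le_right (ε / 2) (1 / 2 : ℝ)], fun r hr => ?_⟩
  refine he ?_
  rw [dist_zero_right, norm_eq_abs, abs_of_nonneg hr.1]
  linarith [hr.2, min_le_left (ε / 2) (1 / 2 : ℝ)]

include hY hw in
lemma hasDerivAt_u {r : ℝ} (hr : 0 < r) (hj : J n (r ^ 2) ≠ 0) :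
    HasDerivAt (fun r => Y (r ^ 2) / J n (r ^ 2)) (-(r ^ (n + 1) * J n (r ^ 2) ^ 2)⁻¹) r := by
  refine ((hasDerivAt_y hY hr).div (hasDerivAt_j r) hj).congr_deriv ?_
  have := hw r hr
  rw [div_eq_iff (pow_ne_zero 2 hj)]
  field_simp
  rw [pow_succ] at this
  linear_combination this

include hY hw in
lemma bounds_u : ∃ r0 C : ℝ, 0 < r0 ∧ r0 < 1 ∧ ∀ r ∈ Ioc 0 r0, 1 / 2 ≤ J n (r ^ 2) ∧ J n (r ^ 2) ≤ 2 ∧
    -C - log r / 4 ≤ Y (r ^ 2) / J n (r ^ 2) ∧
    Y (r ^ 2) / J n (r ^ 2) ≤ C + 8 * r ^ (-((n : ℝ) + 1 / 2)) := by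
  obtain ⟨r0, h0, h1, hb⟩ := exists_r0 n
  set u : ℝ → ℝ := fun r => Y (r ^ 2) / J n (r ^ 2) with hu
  have du : ∀ r ∈ Ioc 0 r0, HasDerivAt u (-(r ^ (n + 1) * J n (r ^ 2) ^ 2)⁻¹) r := fun r hr =>
    hasDerivAt_u hY hw hr.1 (by linarith [(hb r ⟨hr.1.le, hr.2⟩).1])
  have A : AntitoneOn (fun r => u r + log r / 4) (Ioc 0 r0) := by
    have d : ∀ r ∈ Ioc 0 r0, HasDerivAt (fun r => u r + log r / 4)
        (-(r ^ (n + 1) * J n (r ^ 2) ^ 2)⁻¹ + r⁻¹ / 4) r := fun r hr =>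
      (du r hr).add ((hasDerivAt_log hr.1.ne').div_const 4)
    refine antitoneOn_of_deriv_nonpos (convex_Ioc 0 r0)
      (fun r hr => (d r hr).continuousAt.continuousWithinAt)
      (fun r hr => (d r (interior_subset hr)).differentiableAt.differentiableWithinAt) fun r hr => ?_
    have hr' := interior_subset hr
    rw [(d r hr').deriv]
    obtain ⟨b1, b2⟩ := hb r ⟨hr'.1.le, hr'.2⟩
    have r1 : r ≤ 1 := hr'.2.trans h1.le
    have p0 : 0 < r := hr'.1
    have : (4 * r)⁻¹ ≤ (r ^ (n + 1) * J n (r ^ 2) ^ 2)⁻¹ := by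
      apply inv_anti₀ (by positivity)
      have e1 : r ^ (n + 1) ≤ r := by
        rw [pow_succ]
        exact mul_le_of_le_one_left p0.le (pow_le_one₀ p0.le r1)
      have e2 : J n (r ^ 2) ^ 2 ≤ 4 := by nlinarith
      nlinarith [pow_pos p0 (n + 1)]
    rw [mul_inv] at this
    linarith
  have B : MonotoneOn (fun r => u r - 8 * r ^ (-((n : ℝ) + 1 / 2))) (Ioc 0 r0) := by
    have d : ∀ r ∈ Ioc 0 r0, HasDerivAt (fun r => u r - 8 * r ^ (-((n : ℝ) + 1 / 2)))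
        (-(r ^ (n + 1) * J n (r ^ 2) ^ 2)⁻¹ -
          8 * (-((n : ℝ) + 1 / 2) * r ^ (-((n : ℝ) + 1 / 2) - 1))) r := fun r hr =>
      (du r hr).sub ((hasDerivAt_rpow_const (Or.inl hr.1.ne')).const_mul 8)
    refine monotoneOn_of_deriv_nonneg (convex_Ioc 0 r0)
      (fun r hr => (d r hr).continuousAt.continuousWithinAt)
      (fun r hr => (d r (interior_subset hr)).differentiableAt.differentiableWithinAt) fun r hr => ?_
    have hr' := interior_subset hr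
    rw [(d r hr').deriv]
    obtain ⟨b1, b2⟩ := hb r ⟨hr'.1.le, hr'.2⟩
    have r1 : r ≤ 1 := hr'.2.trans h1.le
    have p0 : 0 < r := hr'.1
    have e1 : (r ^ (n + 1) * J n (r ^ 2) ^ 2)⁻¹ ≤ 4 * (r ^ (n + 1))⁻¹ := by
      rw [mul_inv, mul_comm]
      refine mul_le_mul_of_nonneg_right ?_ (by positivity)
      have : (1 / 4 : ℝ) ≤ J n (r ^ 2) ^ 2 := by nlinarith
      calc (J n (r ^ 2) ^ 2)⁻¹ ≤ (1 / 4 : ℝ)⁻¹ := inv_anti₀ (by norm_num) this
        _ = 4 := by norm_num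
    have e2 : (r ^ (n + 1))⁻¹ ≤ r ^ (-((n : ℝ) + 1 / 2) - 1) := by
      rw [← rpow_natCast, ← rpow_neg p0.le]
      refine rpow_le_rpow_of_exponent_ge p0 r1 ?_
      push_cast
      linarith
    have hn : (0 : ℝ) ≤ n := Nat.cast_nonneg n
    have e3 : 0 < r ^ (-((n : ℝ) + 1 / 2) - 1) := rpow_pos_of_pos p0 _
    nlinarith
  refine ⟨r0, |u r0| + |log r0| / 4, h0, h1, fun r hr => ?_⟩
  obtain ⟨b1, b2⟩ := hb r ⟨hr.1.le, hr.2⟩
  have hr0 : r0 ∈ Ioc 0 r0 := ⟨h0, le_rfl⟩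
  have a1 := A hr hr0 hr.2
  have a2 := B hr hr0 hr.2
  have p : 0 < r0 ^ (-((n : ℝ) + 1 / 2)) := rpow_pos_of_pos h0 _
  simp only [] at a1 a2
  refine ⟨b1, b2, ?_, ?_⟩
  · have := neg_abs_le (u r0)
    have := neg_abs_le (log r0)
    simp only [hu] at *
    linarith
  · have := le_abs_self (u r0)
    have := abs_nonneg (log r0)
    simp only [hu] at *
    linarith

end

end Pool.Agent.KS6_36.BO
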