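import Pool.Agent.KS6_36.BO.Lim

/-! Limits of the singular radial solution near the origin. -/

open Set Metric Filter Topology Real
open scoped ContDiff

namespace Pool.Agent.KS6_36.BO

variable {n : ℕ}

section
variable {Y Y1 : ℝ → ℝ} (hY : ∀ s, 0 < s → HasDerivAt Y (Y1 s) s)
  (hw : ∀ r, 0 < r → 2 * r ^ (n + 2) * (J n (r ^ 2) * Y1 (r ^ 2) - J1 n (r ^ 2) * Y (r ^ 2)) = -1)

include hY hw in
lemma tendsto_Y : Tendsto (fun r => Y (r ^ 2)) (𝓝[>] 0) atTop := by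
  obtain ⟨r0, C, h0, h1, hb⟩ := bounds_u hY hw
  have h : Tendsto (fun r : ℝ => (-C - log r / 4) / 2) (𝓝[>] 0) atTop := by
    have := (tendsto_neg_atBot_atTop.comp tendsto_log_nhdsGT_zero).atTop_div_const (show (0 : ℝ) < 4 by norm_num)
    refine Tendsto.atTop_div_const two_pos ?_
    refine (tendsto_atTop_add_const_left _ (-C) this).congr fun r => ?_
    simp [Function.comp]; ring
  refine tendsto_atTop_mono' _ ?_ h
  filter_upwards [Ioc_mem_nhdsGT h0, h.eventually_ge_atTop 0] with r hr hp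
  obtain ⟨a, b, c, -⟩ := hb r hr
  rw [le_div_iff₀ (by linarith)] at c
  nlinarith

include hY hw in
lemma tendsto_rY : Tendsto (fun r => r ^ (n + 1) * Y (r ^ 2)) (𝓝[>] 0) (𝓝 0) := by
  obtain ⟨r0, C, h0, h1, hb⟩ := bounds_u hY hw
  have h2 : Tendsto (fun r : ℝ => 2 * (r ^ (n + 1) * C + 8 * r ^ (1 / 2 : ℝ))) (𝓝[>] 0) (𝓝 0) := by
    have a : Tendsto (fun r : ℝ => r ^ (n + 1)) (𝓝[>] 0) (𝓝 0) := by
      have : Tendsto (fun r : ℝ => r ^ (n + 1)) (𝓝 0) (𝓝 (0 ^ (n + 1))) := (continuous_pow _).tendsto 0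
      rw [zero_pow (by omega)] at this
      exact this.mono_left nhdsWithin_le_nhds
    have b : Tendsto (fun r : ℝ => r ^ (1 / 2 : ℝ)) (𝓝[>] 0) (𝓝 0) := by
      have : ContinuousAt (fun r : ℝ => r ^ (1 / 2 : ℝ)) 0 := continuousAt_rpow_const _ _ (Or.inr (by norm_num))
      have h := this.tendsto
      rw [zero_rpow (by norm_num)] at h
      exact h.mono_left nhdsWithin_le_nhds
    simpa using ((a.mul_const C).add (b.const_mul 8)).const_mul 2
  refine squeeze_zero' ?_ ?_ h2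
  · filter_upwards [(tendsto_Y hY hw).eventually_ge_atTop 0, self_mem_nhdsWithin] with r h hr
    have : (0 : ℝ) < r := hr
    positivity
  · filter_upwards [Ioc_mem_nhdsGT h0, (tendsto_Y hY hw).eventually_ge_atTop 0] with r hr hp
    obtain ⟨a, b, -, d⟩ := hb r hr
    have p0 : 0 < r := hr.1
    have e : r ^ (n + 1) * r ^ (-((n : ℝ) + 1 / 2)) = r ^ (1 / 2 : ℝ) := by
      rw [← rpow_natCast, ← rpow_add p0]
      congr 1
      push_cast
      ring
    rw [div_le_iff₀ (by linarith)] at d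
    have X0 : 0 ≤ C + 8 * r ^ (-((n : ℝ) + 1 / 2)) := by
      by_contra hneg
      push Not at hneg
      nlinarith
    have d' : Y (r ^ 2) ≤ (C + 8 * r ^ (-((n : ℝ) + 1 / 2))) * 2 := d.trans (mul_le_mul_of_nonneg_left b X0)
    calc r ^ (n + 1) * Y (r ^ 2) ≤ r ^ (n + 1) * ((C + 8 * r ^ (-((n : ℝ) + 1 / 2))) * 2) :=
          mul_le_mul_of_nonneg_left d' (by positivity)
      _ = 2 * (r ^ (n + 1) * C + 8 * (r ^ (n + 1) * r ^ (-((n : ℝ) + 1 / 2)))) := by ring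
      _ = _ := by rw [e]

lemma tendsto_sq : Tendsto (fun r : ℝ => r ^ 2) (𝓝[>] 0) (𝓝 0) := by
  have : Tendsto (fun r : ℝ => r ^ 2) (𝓝 0) (𝓝 (0 ^ 2)) := (continuous_pow 2).tendsto 0
  rw [zero_pow (by norm_num)] at this
  exact this.mono_left nhdsWithin_le_nhds

lemma tendsto_r : Tendsto (fun r : ℝ => r) (𝓝[>] 0) (𝓝 0) := tendsto_id.mono_left nhdsWithin_le_nhds

include hY hw in
lemma tendsto_Y1 : Tendsto (fun r => 2 * r ^ (n + 2) * Y1 (r ^ 2)) (𝓝[>] 0) (𝓝 (-1)) := by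
  have hJ : Tendsto (fun r : ℝ => J n (r ^ 2)) (𝓝[>] 0) (𝓝 1) := by
    have := ((hasDerivAt_J (n := n) 0).continuousAt.tendsto).comp tendsto_sq
    rw [J_zero] at this
    exact this
  have hJ1 : Tendsto (fun r : ℝ => J1 n (r ^ 2)) (𝓝[>] 0) (𝓝 (J1 n 0)) :=
    ((hasDerivAt_J1 (n := n) 0).continuousAt.tendsto).comp tendsto_sq
  have h := (((tendsto_r.mul (tendsto_rY hY hw)).mul hJ1).const_mul 2).const_add (-1)
  simp only [zero_mul, mul_zero, add_zero] at h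
  have h' := h.div hJ one_ne_zero
  rw [div_one] at h'
  refine h'.congr' ?_
  filter_upwards [self_mem_nhdsWithin, hJ.eventually (isOpen_ne.mem_nhds one_ne_zero)] with r hr hj
  have := hw r hr
  rw [Pi.div_apply, div_eq_iff hj]
  rw [pow_succ] at this ⊢
  linear_combination -this

include hY hw in
/-- The rescaled singular solution tends to the fundamental solution. -/
lemma lim_Y {ρ1 ρ2 η : ℝ} (h1 : 0 < ρ1) (hη : 0 < η) : ∀ᶠ k in 𝓝[>] (0 : ℝ), ∀ r ∈ Icc ρ1 ρ2,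
    |k ^ n * (Y ((k * r) ^ 2) - Y (k ^ 2)) - gam n r| ≤ η := by
  set a := min ρ1 1
  set b := max ρ2 1
  have a0 : 0 < a := lt_min h1 one_pos
  have b0 : 1 ≤ b := le_max_right _ _
  have hη' : 0 < η * a ^ (n + 1) / (b + 1) := by positivity
  have hp := (Metric.tendsto_nhds.1 (tendsto_Y1 hY hw)) _ hη'
  rw [eventually_nhdsWithin_iff, Metric.eventually_nhds_iff] at hp
  obtain ⟨δ, δ0, hδ⟩ := hp
  filter_upwards [Ioo_mem_nhdsGT (show 0 < δ / b by positivity)] with k hk r hr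
  have k0 : 0 < k := hk.1
  have hkb : k * b < δ := by
    have := hk.2
    rwa [lt_div_iff₀ (by linarith)] at this
  set f : ℝ → ℝ := fun r => k ^ n * (Y ((k * r) ^ 2) - Y (k ^ 2)) - gam n r with hf
  have hd : ∀ t, 0 < t → HasDerivAt f ((t ^ (n + 1))⁻¹ * (2 * (k * t) ^ (n + 2) * Y1 ((k * t) ^ 2) - -1)) t := by
    intro t ht
    have e1 := ((hasDerivAt_y hY (mul_pos k0 ht)).comp t ((hasDerivAt_id t).const_mul k))
    have e2 := (((e1.sub_const (Y (k ^ 2))).const_mul (k ^ n))).sub (hasDerivAt_gam (n := n) ht)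
    refine e2.congr_deriv ?_
    field_simp
    ring
  have key : ∀ t ∈ Icc a b, ‖(t ^ (n + 1))⁻¹ * (2 * (k * t) ^ (n + 2) * Y1 ((k * t) ^ 2) - -1)‖ ≤ η / (b + 1) := by
    intro t ht
    have t0 : 0 < t := a0.trans_le ht.1
    have kt : k * t ≤ k * b := mul_le_mul_of_nonneg_left ht.2 k0.le
    have h3 := hδ (y := k * t) (by
      rw [dist_zero_right, norm_eq_abs, abs_of_pos (mul_pos k0 t0)]
      linarith) (mul_pos k0 t0)
    rw [Real.dist_eq] at h3
    rw [norm_mul, norm_inv, norm_pow, norm_eq_abs, norm_eq_abs, abs_of_pos t0]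
    have h4 : (t ^ (n + 1))⁻¹ ≤ (a ^ (n + 1))⁻¹ := inv_anti₀ (by positivity) (pow_le_pow_left₀ a0.le ht.1 _)
    calc _ ≤ (a ^ (n + 1))⁻¹ * (η * a ^ (n + 1) / (b + 1)) :=
          mul_le_mul h4 h3.le (abs_nonneg _) (by positivity)
      _ = η / (b + 1) := by field_simp
  have hr1 : r ∈ Icc a b := ⟨(min_le_left _ _).trans hr.1, hr.2.trans (le_max_left _ _)⟩
  have h11 : (1 : ℝ) ∈ Icc a b := ⟨min_le_right _ _, le_max_right _ _⟩
  have := (convex_Icc a b).norm_image_sub_le_of_norm_hasDerivWithin_le (f := f)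
    (fun t ht => (hd t (a0.trans_le ht.1)).hasDerivWithinAt) key h11 hr1
  have f1 : f 1 = 0 := by simp [hf, gam_one]
  rw [f1, sub_zero] at this
  refine this.trans ?_
  rw [div_mul_eq_mul_div, div_le_iff₀ (by linarith), norm_eq_abs]
  have : |r - 1| ≤ b + 1 := abs_le.2 ⟨by linarith [hr1.1], by linarith [hr1.2]⟩
  exact mul_le_mul_of_nonneg_left this hη.le

include hY hw in
/-- lower bound for the rescaled value -/
lemma low_Y : ∀ᶠ k in 𝓝[>] (0 : ℝ), -gam n 2 / 2 ≤ k ^ n * Y (k ^ 2) := by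
  have g2 : 0 < -gam n 2 := by
    have := gam_anti (n := n) (by simp : (1 : ℝ) ∈ Ioi 0) (by simp : (2 : ℝ) ∈ Ioi 0) (by norm_num)
    rw [gam_one] at this
    linarith
  have h2 : Tendsto (fun k : ℝ => k * 2) (𝓝[>] 0) (𝓝[>] 0) := by
    refine tendsto_nhdsWithin_iff.2 ⟨?_, ?_⟩
    · have : Tendsto (fun k : ℝ => k * 2) (𝓝 0) (𝓝 (0 * 2)) := (continuous_mul_const 2).tendsto 0
      rw [zero_mul] at this
      exact this.mono_left nhdsWithin_le_nhds
    · filter_upwards [self_mem_nhdsWithin] with k hk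
      have : (0 : ℝ) < k := hk
      simp [this]
  filter_upwards [lim_Y hY hw (ρ1 := 2) (ρ2 := 2) two_pos (half_pos g2),
    h2.eventually ((tendsto_Y hY hw).eventually_ge_atTop 0), self_mem_nhdsWithin] with k h h3 hk
  have k0 : (0 : ℝ) < k := hk
  have h4 := (abs_le.1 (h 2 ⟨le_rfl, le_rfl⟩)).2
  have h5 : 0 ≤ k ^ n * Y ((k * 2) ^ 2) := by positivity
  nlinarith

lemma lip_J (M : ℝ) (n : ℕ) : ∃ C, 0 ≤ C ∧ ∀ s ∈ Icc 0 M, |J n s - 1| ≤ C * s := by
  obtain ⟨C, hC⟩ := (isCompact_Icc (a := (0 : ℝ)) (b := M)).exists_bound_of_continuousOn (f := J1 n)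
    fun s _ => (hasDerivAt_J1 s).continuousAt.continuousWithinAt
  refine ⟨|C|, abs_nonneg _, fun s hs => ?_⟩
  have h0 : (0 : ℝ) ∈ Icc 0 M := ⟨le_rfl, hs.1.trans hs.2⟩
  have := (convex_Icc 0 M).norm_image_sub_le_of_norm_hasDerivWithin_le (f := J n)
    (fun t _ => (hasDerivAt_J t).hasDerivWithinAt) (fun t ht => (hC t ht).trans (le_abs_self C)) h0 hs
  rw [J_zero, sub_zero, norm_eq_abs, norm_eq_abs, abs_of_nonneg hs.1] at this
  exact this

include hY hw in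
lemma lim_J {M η : ℝ} (hη : 0 < η) : ∀ᶠ k in 𝓝[>] (0 : ℝ), ∀ r ∈ Icc 0 M,
    |k ^ n * Y (k ^ 2) * (J n ((k * r) ^ 2) - 1)| ≤ η := by
  obtain ⟨C, C0, hC⟩ := lip_J (M ^ 2) n
  have h : Tendsto (fun k : ℝ => k ^ (n + 1) * Y (k ^ 2) * (k * (C * M ^ 2))) (𝓝[>] 0) (𝓝 0) := by
    simpa using (tendsto_rY hY hw).mul (tendsto_r.mul_const (C * M ^ 2))
  filter_upwards [h.eventually (gt_mem_nhds hη), Ioo_mem_nhdsGT one_pos,
    (tendsto_Y hY hw).eventually_ge_atTop 0] with k h1 hk hp r hr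
  have k0 : 0 < k := hk.1
  have e : (k * r) ^ 2 ≤ k ^ 2 * M ^ 2 := by
    rw [mul_pow]; gcongr
    · exact hr.1
    · exact hr.2
  have e2 : (k * r) ^ 2 ∈ Icc 0 (M ^ 2) := by
    refine ⟨by positivity, e.trans ?_⟩
    have : k ^ 2 ≤ 1 := pow_le_one₀ k0.le hk.2.le
    nlinarith [sq_nonneg M]
  have h3 := hC _ e2
  rw [abs_mul, abs_of_nonneg (by positivity)]
  calc k ^ n * Y (k ^ 2) * |J n ((k * r) ^ 2) - 1| ≤ k ^ n * Y (k ^ 2) * (C * (k ^ 2 * M ^ 2)) := by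
        refine mul_le_mul_of_nonneg_left (h3.trans ?_) (by positivity)
        exact mul_le_mul_of_nonneg_left e C0
    _ = k ^ (n + 1) * Y (k ^ 2) * (k * (C * M ^ 2)) := by ring
    _ ≤ η := h1.le

end

end Pool.Agent.KS6_36.BO
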