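import Pool.Agent.KS6_36.BO.A

/-! A maximum principle for the Helmholtz equation on small domains. -/

open Set Metric Filter Topology InnerProductSpace MeasureTheory Real
open scoped Laplacian ContDiff
open Pool.Agent.H

namespace Pool.Agent.KS6_36.BO

variable {n : ℕ}

lemma maxp {k k' : ℝ} {T V : Set (EuclideanSpace ℝ (Fin (n + 2)))} {W j i : (EuclideanSpace ℝ (Fin (n + 2))) → ℝ} (hk : 0 < k) (hkk : k < k') (hT : IsCompact T)
    (hV : IsOpen V) (vt : V ⊆ T) (hW : ∀ y ∈ T, Sol k W y) (hj : ∀ y ∈ T, Sol k j y ∧ 0 < j y)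
    (hi : ∀ y ∈ T, Sol k' i y ∧ 0 < i y) (h0 : ∀ y ∈ T, y ∉ V → 0 < W y) : ∀ y ∈ T, 0 < W y := by
  have cW : ContinuousOn W T := fun y hy => (hW y hy).1.continuousAt.continuousWithinAt
  have cj : ContinuousOn j T := fun y hy => (hj y hy).1.1.continuousAt.continuousWithinAt
  have ci : ContinuousOn i T := fun y hy => (hi y hy).1.1.continuousAt.continuousWithinAt
  -- a positive multiple of `j` below `W` on the boundary
  obtain ⟨c, c0, hc⟩ : ∃ c : ℝ, 0 < c ∧ ∀ y ∈ T, y ∉ V → c * j y ≤ W y := by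
    have hK : IsCompact (T \ V) := hT.diff hV
    rcases (T \ V).eq_empty_or_nonempty with h | h
    · exact ⟨1, one_pos, fun y hy hy' => (h.subset ⟨hy, hy'⟩).elim⟩
    · obtain ⟨y0, hy0, hmin⟩ := hK.exists_isMinOn h (f := fun y => W y / j y)
        ((cW.mono sdiff_subset).div (cj.mono sdiff_subset) fun y hy => (hj y hy.1).2.ne')
      refine ⟨W y0 / j y0, div_pos (h0 y0 hy0.1 hy0.2) (hj y0 hy0.1).2, fun y hy hy' => ?_⟩
      have : W y0 / j y0 ≤ W y / j y := hmin ⟨hy, hy'⟩
      rwa [le_div_iff₀ (hj y hy).2] at this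
  intro y hy
  obtain ⟨y0, hy0, hmin⟩ := hT.exists_isMinOn ⟨y, hy⟩ (f := fun y => (W y - c * j y) / i y)
    ((cW.sub (continuousOn_const.mul cj)).div ci fun y hy => (hi y hy).2.ne')
  set m := (W y0 - c * j y0) / i y0 with hm
  have hmle : ∀ z ∈ T, m * i z ≤ W z - c * j z := fun z hz => by
    have : m ≤ (W z - c * j z) / i z := hmin hz
    rwa [le_div_iff₀ (hi z hz).2] at this
  have m0 : 0 ≤ m := by
    by_contra hneg
    push Not at hneg
    have hin : y0 ∈ V := by
      by_contra hn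
      have := hc y0 hy0 hn
      have : 0 ≤ m := div_nonneg (by linarith) (hi y0 hy0).2.le
      linarith
    have e0 : W y0 - c * j y0 = m * i y0 := by
      rw [hm, div_mul_cancel₀ _ (hi y0 hy0).2.ne']
    have sol : Sol k (fun z => W z - c * j z) y0 := (hW y0 hy0).sub ((hj y0 hy0).1.mul c)
    have sol' : Sol k' (fun z => m * i z) y0 := (hi y0 hy0).1.mul m
    have hloc : IsLocalMax (fun z => m * i z - (W z - c * j z)) y0 := by
      filter_upwards [hV.mem_nhds hin] with z hz
      have := hmle z (vt hz)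
      linarith
    have cd : ContDiffAt ℝ 2 (fun z => m * i z - (W z - c * j z)) y0 :=
      (sol'.1.of_le two).sub (sol.1.of_le two)
    have hl := MP_677f70_an.locmax cd hloc
    have e1 : Δ (fun z => m * i z - (W z - c * j z)) y0 =
        Δ (fun z => m * i z) y0 - Δ (fun z => W z - c * j z) y0 :=
      (sol'.1.of_le two).laplacian_sub (sol.1.of_le two)
    rw [e1, sol.2, sol'.2] at hl
    simp only [] at hl
    rw [e0] at hl
    have hi0 := (hi y0 hy0).2
    have : 0 < (-m) * i y0 := mul_pos (by linarith) hi0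
    have hk2 : k ^ 2 < k' ^ 2 := by nlinarith
    nlinarith
  have h1 := hmle y hy
  have h2 := mul_nonneg m0 (hi y hy).2.le
  have h3 := mul_pos c0 (hj y hy).2
  linarith

end Pool.Agent.KS6_36.BO
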