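import Pool.Agent.KS6_36.BO.Lim

/-! The first zero of the regular radial solution. -/

open Set Metric Filter Topology Real
open scoped ContDiff

namespace Pool.Agent.KS6_36.BO

variable {n : ℕ}

lemma J_ode (n : ℕ) (s : ℝ) : ∃ J2, HasDerivAt (J1 n) J2 s ∧ 4 * s * J2 + 2 * (n + 2) * J1 n s + J n s = 0 := by
  refine ⟨_, hasDerivAt_J1 s, ?_⟩
  have ode := (rad_J (n := n) s).2
  rwa [deriv_J, (hasDerivAt_J1 s).deriv] at ode

lemma J_ode' (n : ℕ) (r : ℝ) : ∃ J2, HasDerivAt (fun r => J1 n (r ^ 2)) (2 * r * J2) r ∧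
    4 * r ^ 2 * J2 + 2 * (n + 2) * J1 n (r ^ 2) + J n (r ^ 2) = 0 := by
  obtain ⟨J2, e1, e2⟩ := J_ode n (r ^ 2)
  refine ⟨J2, ?_, e2⟩
  have h : HasDerivAt (fun r : ℝ => r ^ 2) (2 * r) r := (hasDerivAt_pow 2 r).congr_deriv (by norm_num)
  have e := HasDerivAt.comp (h₂ := J1 n) (h := fun r : ℝ => r ^ 2) (h' := 2 * r) r e1 h
  exact e.congr_deriv (by ring)

lemma cont_j : Continuous fun r => J n (r ^ 2) :=
  continuous_iff_continuousAt.2 fun r => (hasDerivAt_j r).continuousAt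

lemma pos_of_ne {t : ℝ} (h : ∀ r, 0 ≤ r → r < t → J n (r ^ 2) ≠ 0) {r : ℝ} (h0 : 0 ≤ r) (h1 : r < t) :
    0 < J n (r ^ 2) := by
  by_contra hn
  push Not at hn
  have := intermediate_value_Icc' h0 (cont_j (n := n)).continuousOn
  obtain ⟨c, hc, hc0⟩ := this ⟨hn, show (0 : ℝ) ≤ J n (0 ^ 2) by simp [J_zero]⟩
  exact h c hc.1 (hc.2.trans_lt h1) hc0

lemma neg_J1 {t : ℝ} (h : ∀ r, 0 ≤ r → r < t → 0 < J n (r ^ 2)) {r : ℝ} (h0 : 0 < r) (h1 : r ≤ t) :
    J1 n (r ^ 2) < 0 := by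
  have d : ∀ r : ℝ, HasDerivAt (fun r => 2 * r ^ (n + 2) * J1 n (r ^ 2)) (-(r ^ (n + 1) * J n (r ^ 2))) r := by
    intro r
    obtain ⟨J2, e1, e2⟩ := J_ode' n r
    have := (((hasDerivAt_pow (n + 2) r).const_mul 2).mul e1)
    refine this.congr_deriv ?_
    rw [show n + 2 - 1 = n + 1 by omega]
    push_cast
    linear_combination r ^ (n + 1) * e2
  have A : StrictAntiOn (fun r => 2 * r ^ (n + 2) * J1 n (r ^ 2)) (Icc 0 t) := by
    refine strictAntiOn_of_deriv_neg (convex_Icc 0 t) (fun r _ => (d r).continuousAt.continuousWithinAt)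
      fun r hr => ?_
    rw [interior_Icc] at hr
    rw [(d r).deriv, neg_lt_zero]
    exact mul_pos (pow_pos hr.1 _) (h r hr.1.le hr.2)
  have := A ⟨le_rfl, h0.le.trans h1⟩ ⟨h0.le, h1⟩ h0
  simp only [] at this
  rw [zero_pow (by omega), mul_zero, zero_mul] at this
  by_contra hn
  push Not at hn
  have : 0 ≤ 2 * r ^ (n + 2) * J1 n (r ^ 2) := by positivity
  linarith

lemma exists_zero (n : ℕ) : ∃ r, 0 ≤ r ∧ r ≤ n + 1 + 2 * π ∧ J n (r ^ 2) = 0 := by
  by_contra hcon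
  push Not at hcon
  set a : ℝ := n + 1 with ha
  have a1 : 1 ≤ a := by rw [ha]; linarith [(Nat.cast_nonneg n : (0 : ℝ) ≤ n)]
  have hpi := pi_pos
  have hne : ∀ r, 0 ≤ r → r < a + 2 * π → J n (r ^ 2) ≠ 0 := fun r h0 h1 => hcon r h0 h1.le
  have hpos : ∀ r, 0 ≤ r → r < a + 2 * π → 0 < J n (r ^ 2) := fun r h0 h1 => pos_of_ne hne h0 h1
  set z : ℝ → ℝ := fun r => -(2 * r * J1 n (r ^ 2)) / J n (r ^ 2) with hz
  have dz : ∀ r ∈ Ico a (a + 2 * π), HasDerivAt z (1 + z r ^ 2 - (n + 1) * z r / r) r := by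
    intro r hr
    obtain ⟨J2, e1, e2⟩ := J_ode' n r
    have r0 : 0 < r := by linarith [hr.1]
    have p := hpos r r0.le hr.2
    have := ((((hasDerivAt_id r).const_mul 2).mul e1).neg).div
      (hasDerivAt_j (n := n) r) p.ne'
    refine this.congr_deriv ?_
    simp only [hz, id, Pi.neg_apply, Pi.mul_apply]
    field_simp
    linear_combination -J n (r ^ 2) * e2
  have d : ∀ r ∈ Ico a (a + 2 * π), HasDerivAt (fun r => arctan (z r))
      (1 / (1 + z r ^ 2) * (1 + z r ^ 2 - (n + 1) * z r / r)) r := fun r hr => (dz r hr).arctan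
  have d' : ∀ r ∈ Ico a (a + 2 * π), HasDerivAt (fun r => arctan (z r) - r / 2)
      (1 / (1 + z r ^ 2) * (1 + z r ^ 2 - (n + 1) * z r / r) - 1 / 2) r := fun r hr =>
    (d r hr).sub ((hasDerivAt_id r).div_const 2)
  have mon : MonotoneOn (fun r => arctan (z r) - r / 2) (Ico a (a + 2 * π)) := by
    refine monotoneOn_of_deriv_nonneg (convex_Ico _ _)
      (fun r hr => (d' r hr).continuousAt.continuousWithinAt)
      (fun r hr => (d' r (interior_subset hr)).differentiableAt.differentiableWithinAt) fun r hr => ?_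
    have hr' := interior_subset hr
    rw [(d' r hr').deriv]
    have r0 : 0 < r := by linarith [hr'.1]
    have z0 : 0 ≤ z r := by
      have h1 := neg_J1 (n := n) hpos r0 hr'.2.le
      have h2 := hpos r r0.le hr'.2
      simp only [hz]
      apply div_nonneg _ h2.le
      nlinarith
    have e : (n + 1) * z r / r ≤ z r := by
      rw [div_le_iff₀ r0, mul_comm]
      exact mul_le_mul_of_nonneg_left hr'.1 z0
    have q : 0 < 1 + z r ^ 2 := by positivity
    rw [sub_nonneg, one_div (1 + z r ^ 2), inv_mul_eq_div, div_le_div_iff₀ two_pos q]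
    nlinarith [sq_nonneg (z r - 1)]
  have m0 : a ∈ Ico a (a + 2 * π) := ⟨le_rfl, by linarith⟩
  have lt := arctan_lt_pi_div_two
  have gt := neg_pi_div_two_lt_arctan
  set e := π / 2 - arctan (z a)
  have key : ∀ r ∈ Ico a (a + 2 * π), r ≤ a + 2 * (π / 2 - arctan (z a)) := by
    intro r hr
    have := mon m0 hr hr.1
    simp only [] at this
    linarith [lt (z r)]
  have g := gt (z a)
  have : a + 2 * π ≤ a + 2 * (π / 2 - arctan (z a)) := by
    refine le_of_forall_lt fun c hc => ?_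
    rcases le_or_gt a c with h | h
    · obtain ⟨c', h1, h2⟩ := exists_between hc
      exact h1.trans_le (key c' ⟨h.trans h1.le, h2⟩)
    · linarith [lt (z a)]
  linarith

/-- the first positive zero `r1` -/
lemma first_zero (n : ℕ) : ∃ r1, 0 < r1 ∧ J n (r1 ^ 2) = 0 ∧ (∀ r, 0 ≤ r → r < r1 → 0 < J n (r ^ 2)) ∧
    ∀ r, 0 < r → r ≤ r1 → J1 n (r ^ 2) < 0 := by
  obtain ⟨r, h0, h1, h2⟩ := exists_zero n
  obtain ⟨r1, ⟨a1, a2⟩, a3⟩ := (isCompact_Icc.inter_right (isClosed_singleton.preimage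
    (cont_j (n := n)) : IsClosed ((fun r => J n (r ^ 2)) ⁻¹' {0}))).exists_isLeast
    (⟨r, ⟨h0, le_rfl⟩, h2⟩ : (Icc 0 r ∩ (fun r => J n (r ^ 2)) ⁻¹' {0}).Nonempty)
  have a2 : J n (r1 ^ 2) = 0 := a2
  have hpos : ∀ t, 0 ≤ t → t < r1 → 0 < J n (t ^ 2) := fun t t0 t1 => pos_of_ne (t := r1)
    (fun s s0 s1 hs => by
      have := a3 ⟨⟨s0, (s1.le.trans a1.2)⟩, hs⟩
      linarith) t0 t1
  refine ⟨r1, a1.1.lt_of_ne ?_, a2, hpos, fun t t0 t1 => neg_J1 hpos t0 t1⟩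
  rintro rfl
  simp [J_zero] at a2

end Pool.Agent.KS6_36.BO
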