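import Pool.Agent.KS6_36.BO.Lim2
import Pool.Agent.KS6_36.BO.Zero

/-! Combinations of radial solutions: limit on compact sets and behaviour far away. -/

open Set Metric Filter Topology Real
open scoped ContDiff

namespace Pool.Agent.KS6_36.BO

variable {n : ℕ}

/-- the combination of radial solutions with poles `z` and charges `q` -/
noncomputable def Wf {ι : Type} [Fintype ι] (Y : ℝ → ℝ) (A κ k : ℝ) (z : ι → (EuclideanSpace ℝ (Fin (n + 2)))) (q : ι → ℝ) (y : (EuclideanSpace ℝ (Fin (n + 2)))) : ℝ :=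
  A * J n (k ^ 2 * ‖y - 0‖ ^ 2) - ∑ j, (κ * q j) * Y (k ^ 2 * ‖y - z j‖ ^ 2)

variable {ι : Type} [Fintype ι]

lemma Wf_sol {Y : ℝ → ℝ} (hR : ∀ s, 0 < s → Rad n Y s) {A κ k : ℝ} (hk : 0 < k) {z : ι → (EuclideanSpace ℝ (Fin (n + 2)))} {q : ι → ℝ}
    {y : (EuclideanSpace ℝ (Fin (n + 2)))} (hy : ∀ j, y ≠ z j) : Sol k (Wf Y A κ k z q) y :=
  ((Rad.sol (rad_J _)).mul A).sub (Sol.sum _ fun j _ => (Rad.sol (hR _ (by
    have : 0 < ‖y - z j‖ := norm_pos_iff.2 (sub_ne_zero.2 (hy j))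
    positivity))).mul _)

section
variable {Y Y1 : ℝ → ℝ} (hY : ∀ s, 0 < s → HasDerivAt Y (Y1 s) s)
  (hw : ∀ r, 0 < r → 2 * r ^ (n + 2) * (J n (r ^ 2) * Y1 (r ^ 2) - J1 n (r ^ 2) * Y (r ^ 2)) = -1)

include hY hw in
/-- limit on compact sets -/
lemma inner_lim {d0 Q η : ℝ} (hd : 0 < d0) (hQ : 0 ≤ Q) (hη : 0 < η) : ∀ᶠ k in 𝓝[>] (0 : ℝ),
    ∀ (v : ℝ) (z : ι → (EuclideanSpace ℝ (Fin (n + 2)))) (q : ι → ℝ) (y : (EuclideanSpace ℝ (Fin (n + 2)))), |v| ≤ 1 → ∑ j, q j = 1 → ∑ j, |q j| ≤ Q → ‖y‖ ≤ 3 →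
    (∀ j, ‖y - z j‖ ∈ Icc d0 5) →
    |Wf Y (k ^ n * Y (k ^ 2) + v) (k ^ n) k z q y - (v - ∑ j, q j * gam n ‖y - z j‖)| ≤ η := by
  obtain ⟨C, C0, hC⟩ := lip_J 9 n
  have hs : Tendsto (fun k : ℝ => C * (k ^ 2 * 9)) (𝓝[>] 0) (𝓝 0) := by
    simpa using (tendsto_sq.mul_const 9).const_mul C
  filter_upwards [lim_Y hY hw (ρ2 := 5) hd (show 0 < η / (3 * (Q + 1)) by positivity),
    lim_J hY hw (M := 3) (show 0 < η / 3 by positivity), hs.eventually (gt_mem_nhds (show 0 < η / 3 by positivity)),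
    Ioo_mem_nhdsGT one_pos] with k h1 h2 h3 hk v z q y hv hq hQ' hy hz
  have k0 : 0 < k := hk.1
  have a1 := h2 ‖y‖ ⟨norm_nonneg y, hy⟩
  have e0 : (k * ‖y‖) ^ 2 ≤ k ^ 2 * 9 := by
    rw [mul_pow]
    have : ‖y‖ ^ 2 ≤ 3 ^ 2 := pow_le_pow_left₀ (norm_nonneg y) hy 2
    nlinarith [sq_nonneg k]
  have e1 : (k * ‖y‖) ^ 2 ∈ Icc (0 : ℝ) 9 := ⟨by positivity, e0.trans (by
    have : k ^ 2 ≤ 1 := pow_le_one₀ k0.le hk.2.le
    linarith)⟩
  have a2 : |J n ((k * ‖y‖) ^ 2) - 1| ≤ η / 3 :=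
    (hC _ e1).trans ((mul_le_mul_of_nonneg_left e0 C0).trans h3.le)
  have a3 : |∑ j, q j * (k ^ n * (Y ((k * ‖y - z j‖) ^ 2) - Y (k ^ 2)) - gam n ‖y - z j‖)| ≤ η / 3 := by
    refine (Finset.abs_sum_le_sum_abs _ _).trans ?_
    have : ∀ j ∈ Finset.univ, |q j * (k ^ n * (Y ((k * ‖y - z j‖) ^ 2) - Y (k ^ 2)) - gam n ‖y - z j‖)| ≤
        |q j| * (η / (3 * (Q + 1))) := fun j _ => by
      rw [abs_mul]
      exact mul_le_mul_of_nonneg_left (h1 _ (hz j)) (abs_nonneg _)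
    refine (Finset.sum_le_sum this).trans ?_
    rw [← Finset.sum_mul]
    calc (∑ j, |q j|) * (η / (3 * (Q + 1))) ≤ (Q + 1) * (η / (3 * (Q + 1))) :=
          mul_le_mul_of_nonneg_right (by linarith) (by positivity)
      _ = η / 3 := by field_simp
  have key : Wf Y (k ^ n * Y (k ^ 2) + v) (k ^ n) k z q y - (v - ∑ j, q j * gam n ‖y - z j‖) =
      v * (J n ((k * ‖y‖) ^ 2) - 1) + k ^ n * Y (k ^ 2) * (J n ((k * ‖y‖) ^ 2) - 1) -
      ∑ j, q j * (k ^ n * (Y ((k * ‖y - z j‖) ^ 2) - Y (k ^ 2)) - gam n ‖y - z j‖) := by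
    have s1 : ∑ j, q j * (k ^ n * (Y ((k * ‖y - z j‖) ^ 2) - Y (k ^ 2)) - gam n ‖y - z j‖) =
        ∑ j, (k ^ n * q j) * Y (k ^ 2 * ‖y - z j‖ ^ 2) - k ^ n * Y (k ^ 2) * ∑ j, q j -
          ∑ j, q j * gam n ‖y - z j‖ := by
      rw [Finset.mul_sum, ← Finset.sum_sub_distrib, ← Finset.sum_sub_distrib]
      refine Finset.sum_congr rfl fun j _ => ?_
      rw [mul_pow]
      ring
    rw [s1, hq, Wf, sub_zero, mul_pow]
    ring
  rw [key]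
  have b1 : |v * (J n ((k * ‖y‖) ^ 2) - 1)| ≤ η / 3 := by
    rw [abs_mul]
    calc |v| * _ ≤ 1 * (η / 3) := mul_le_mul hv a2 (abs_nonneg _) zero_le_one
      _ = η / 3 := one_mul _
  have t1 := abs_sub (v * (J n ((k * ‖y‖) ^ 2) - 1) + k ^ n * Y (k ^ 2) * (J n ((k * ‖y‖) ^ 2) - 1))
    (∑ j, q j * (k ^ n * (Y ((k * ‖y - z j‖) ^ 2) - Y (k ^ 2)) - gam n ‖y - z j‖))
  have t2 := abs_add_le (v * (J n ((k * ‖y‖) ^ 2) - 1)) (k ^ n * Y (k ^ 2) * (J n ((k * ‖y‖) ^ 2) - 1))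
  linarith

include hY hw in
/-- bounds near the first zero -/
lemma near_zero (hR : ∀ s, 0 < s → Rad n Y s) : ∃ r' r1 R0 c M : ℝ, 0 < r' ∧ r' < r1 ∧ r1 < R0 ∧ 0 < c ∧ 0 < M ∧
    (∀ r, 0 ≤ r → r < r1 → 0 < J n (r ^ 2)) ∧ J n (r1 ^ 2) = 0 ∧
    (∀ r ∈ Icc r' R0, Y (r ^ 2) ≤ -c) ∧ (∀ r ∈ Icc r' R0, 2 * r * J1 n (r ^ 2) ≤ -c) ∧
    ∀ r ∈ Icc (r' / 2) (R0 + 1), |2 * r * Y1 (r ^ 2)| ≤ M := by
  obtain ⟨r1, h0, h1, h2, h3⟩ := first_zero n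
  have j1 := h3 r1 h0 le_rfl
  have y1 : Y (r1 ^ 2) < 0 := by
    have := hw r1 h0
    rw [h1, zero_mul, zero_sub] at this
    by_contra hn
    push Not at hn
    have h4 : 0 ≤ 2 * r1 ^ (n + 2) := by positivity
    have h5 : 0 ≤ -(J1 n (r1 ^ 2) * Y (r1 ^ 2)) := by nlinarith
    have := mul_nonneg h4 h5
    linarith
  have g1 : 2 * r1 * J1 n (r1 ^ 2) < 0 := by nlinarith
  have cY : ContinuousAt (fun r => Y (r ^ 2)) r1 := (hasDerivAt_y hY h0).continuousAt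
  have cJ : ContinuousAt (fun r => 2 * r * J1 n (r ^ 2)) r1 := by
    obtain ⟨J2, e1, -⟩ := J_ode' n r1
    exact (continuousAt_const.mul continuousAt_id).mul e1.continuousAt
  obtain ⟨ε, e0, he⟩ := Metric.eventually_nhds_iff.1 ((cY.eventually (gt_mem_nhds (show Y (r1 ^ 2) < Y (r1 ^ 2) / 2 by
    linarith))).and (cJ.eventually (gt_mem_nhds (show 2 * r1 * J1 n (r1 ^ 2) < 2 * r1 * J1 n (r1 ^ 2) / 2 by
    linarith))))
  set δ := min (ε / 2) (r1 / 2) with hδ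
  have δ0 : 0 < δ := by positivity
  have d1 : δ ≤ ε / 2 := min_le_left _ _
  have d2 : δ ≤ r1 / 2 := min_le_right _ _
  have cY1 : ∀ s, 0 < s → ContinuousAt Y1 s := by
    intro s hs
    have h4 : ContDiffAt ℝ 1 (deriv Y) s := by
      have : ContDiffAt ℝ 1 (fderiv ℝ Y) s := ((hR s hs).1.of_le two).fderiv_right (m := 1) (by norm_num)
      exact this.clm_apply contDiffAt_const
    refine h4.continuousAt.congr ?_
    filter_upwards [eventually_gt_nhds hs] with t ht using (hY t ht).deriv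
  obtain ⟨M, hM⟩ := (isCompact_Icc (a := (r1 - δ) / 2) (b := r1 + δ + 1)).exists_bound_of_continuousOn
    (f := fun r => 2 * r * Y1 (r ^ 2)) fun r hr => by
      have r0 : 0 < r := by linarith [hr.1]
      have := ContinuousAt.comp (g := Y1) (f := fun r : ℝ => r ^ 2) (x := r) (cY1 (r ^ 2) (by positivity))
        (continuous_pow 2).continuousAt
      exact ((continuousAt_const.mul continuousAt_id).mul this).continuousWithinAt
  have hin : ∀ r ∈ Icc (r1 - δ) (r1 + δ), dist r r1 < ε := fun r hr => by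
    rw [Real.dist_eq, abs_lt]
    constructor <;> linarith [hr.1, hr.2]
  refine ⟨r1 - δ, r1, r1 + δ, min (-Y (r1 ^ 2) / 2) (-(2 * r1 * J1 n (r1 ^ 2)) / 2), |M| + 1, by linarith,
    by linarith, by linarith, lt_min (by linarith) (by linarith), by positivity, h2, h1, fun r hr => ?_,
    fun r hr => ?_, fun r hr => ?_⟩
  · have := (he (hin r hr)).1
    have := min_le_left (-Y (r1 ^ 2) / 2) (-(2 * r1 * J1 n (r1 ^ 2)) / 2)
    linarith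
  · have := (he (hin r hr)).2
    have := min_le_right (-Y (r1 ^ 2) / 2) (-(2 * r1 * J1 n (r1 ^ 2)) / 2)
    linarith
  · have := hM r hr
    rw [norm_eq_abs] at this
    linarith [le_abs_self M]

include hY in
lemma W_far {r' R0 M Q : ℝ} (hM : ∀ r ∈ Icc (r' / 2) (R0 + 1), |2 * r * Y1 (r ^ 2)| ≤ M)
    (M0 : 0 ≤ M) {A κ k : ℝ} (hκ : 0 ≤ κ) (k0 : 0 < k) (k1 : k ≤ r' / 4) (k2 : k ≤ 1 / 2) {z : ι → (EuclideanSpace ℝ (Fin (n + 2)))} {q : ι → ℝ}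
    (hq : ∑ j, q j = 1) (hQ : ∑ j, |q j| ≤ Q) (hz : ∀ j, ‖z j‖ ≤ 2) {y : (EuclideanSpace ℝ (Fin (n + 2)))} (y1 : r' ≤ k * ‖y‖)
    (y2 : k * ‖y‖ ≤ R0) :
    |Wf Y A κ k z q y - (A * J n ((k * ‖y‖) ^ 2) - κ * Y ((k * ‖y‖) ^ 2))| ≤ κ * (2 * Q * M * k) := by
  have key : Wf Y A κ k z q y - (A * J n ((k * ‖y‖) ^ 2) - κ * Y ((k * ‖y‖) ^ 2)) =
      -(κ * ∑ j, q j * (Y ((k * ‖y - z j‖) ^ 2) - Y ((k * ‖y‖) ^ 2))) := by
    have s1 : ∑ j, q j * (Y ((k * ‖y - z j‖) ^ 2) - Y ((k * ‖y‖) ^ 2)) =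
        ∑ j, q j * Y ((k * ‖y - z j‖) ^ 2) - Y ((k * ‖y‖) ^ 2) := by
      conv_rhs => rw [← mul_one (Y ((k * ‖y‖) ^ 2)), ← hq]
      rw [Finset.mul_sum, ← Finset.sum_sub_distrib]
      exact Finset.sum_congr rfl fun j _ => by ring
    have s2 : ∑ j, (κ * q j) * Y (k ^ 2 * ‖y - z j‖ ^ 2) = κ * ∑ j, q j * Y ((k * ‖y - z j‖) ^ 2) := by
      rw [Finset.mul_sum]
      exact Finset.sum_congr rfl fun j _ => by rw [mul_pow]; ring
    rw [s1, Wf, s2, sub_zero, mul_pow]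
    ring
  have est : ∀ j, |Y ((k * ‖y - z j‖) ^ 2) - Y ((k * ‖y‖) ^ 2)| ≤ 2 * M * k := by
    intro j
    have t1 : |‖y - z j‖ - ‖y‖| ≤ 2 := by
      have := abs_norm_sub_norm_le (y - z j) y
      rw [show y - z j - y = -z j by abel, norm_neg] at this
      exact this.trans (hz j)
    have t2 : |k * ‖y - z j‖ - k * ‖y‖| ≤ 2 * k := by
      rw [← mul_sub, abs_mul, abs_of_pos k0]
      nlinarith
    obtain ⟨t3, t4⟩ := abs_le.1 t2
    have m1 : k * ‖y - z j‖ ∈ Icc (r' / 2) (R0 + 1) := ⟨by linarith, by linarith⟩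
    have m2 : k * ‖y‖ ∈ Icc (r' / 2) (R0 + 1) := ⟨by linarith, by linarith⟩
    have := (convex_Icc (r' / 2) (R0 + 1)).norm_image_sub_le_of_norm_hasDerivWithin_le
      (f := fun r => Y (r ^ 2)) (f' := fun r => 2 * r * Y1 (r ^ 2)) (C := M)
      (fun r hr => (hasDerivAt_y hY (by linarith [hr.1])).hasDerivWithinAt) (fun r hr => hM r hr) m2 m1
    rw [norm_eq_abs, norm_eq_abs] at this
    refine this.trans ?_
    nlinarith [abs_nonneg (k * ‖y - z j‖ - k * ‖y‖)]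
  rw [key, abs_neg, abs_mul, abs_of_nonneg hκ]
  refine mul_le_mul_of_nonneg_left ?_ hκ
  refine (Finset.abs_sum_le_sum_abs _ _).trans ?_
  have : ∀ j ∈ Finset.univ, |q j * (Y ((k * ‖y - z j‖) ^ 2) - Y ((k * ‖y‖) ^ 2))| ≤ |q j| * (2 * M * k) :=
    fun j _ => by
      rw [abs_mul]
      exact mul_le_mul_of_nonneg_left (est j) (abs_nonneg _)
  refine (Finset.sum_le_sum this).trans ?_
  rw [← Finset.sum_mul]
  calc (∑ j, |q j|) * (2 * M * k) ≤ Q * (2 * M * k) := mul_le_mul_of_nonneg_right hQ (by positivity)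
    _ = 2 * Q * M * k := by ring

end

end Pool.Agent.KS6_36.BO
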