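import Pool.Agent.KS6_36.BO.Out

/-! The radius of the container. -/

open Set Metric Filter Topology Real
open scoped ContDiff

namespace Pool.Agent.KS6_36.BO

variable {n : ℕ}

variable {ι : Type} [Fintype ι]

lemma gam_two : 0 < -gam n 2 := by
  have := gam_anti (n := n) (by simp : (1 : ℝ) ∈ Ioi 0) (by simp : (2 : ℝ) ∈ Ioi 0) (by norm_num)
  rw [gam_one] at this
  linarith

lemma outer {Y Y1 : ℝ → ℝ} (hY : ∀ s, 0 < s → HasDerivAt Y (Y1 s) s)
    (hw : ∀ r, 0 < r → 2 * r ^ (n + 2) * (J n (r ^ 2) * Y1 (r ^ 2) - J1 n (r ^ 2) * Y (r ^ 2)) = -1)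
    {r' r1 R0 c M Q v1 v2 : ℝ} (h0 : 0 < r') (h1 : r' < r1) (h2 : r1 < R0) (c0 : 0 < c) (M0 : 0 < M)
    (hp : ∀ r, 0 ≤ r → r < r1 → 0 < J n (r ^ 2)) (hz1 : J n (r1 ^ 2) = 0)
    (hYc : ∀ r ∈ Icc r' R0, Y (r ^ 2) ≤ -c) (hJc : ∀ r ∈ Icc r' R0, 2 * r * J1 n (r ^ 2) ≤ -c)
    (hM : ∀ r ∈ Icc (r' / 2) (R0 + 1), |2 * r * Y1 (r ^ 2)| ≤ M) (Q0 : 0 ≤ Q) (hv : v1 < v2)
    (hv1 : |v1| ≤ -gam n 2 / 8) (hv2 : |v2| ≤ -gam n 2 / 8) :
    ∀ᶠ k in 𝓝[>] (0 : ℝ), ∃ R, r1 < R ∧ R < R0 ∧ ∀ (z : ι → (EuclideanSpace ℝ (Fin (n + 2)))) (q : ι → ℝ), ∑ j, q j = 1 → ∑ j, |q j| ≤ Q →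
      (∀ j, ‖z j‖ ≤ 2) → ∀ y : (EuclideanSpace ℝ (Fin (n + 2))),
      (r' ≤ k * ‖y‖ → k * ‖y‖ ≤ R → 0 < Wf Y (k ^ n * Y (k ^ 2) + v1) (k ^ n) k z q y) ∧
      (k * ‖y‖ = R → Wf Y (k ^ n * Y (k ^ 2) + v2) (k ^ n) k z q y < 0) ∧
      (k * ‖y‖ = r' → 0 < Wf Y (k ^ n * Y (k ^ 2) + v2) (k ^ n) k z q y) := by
  have hg := gam_two (n := n)
  set g := -gam n 2 with hgdef
  set e := c * (R0 - r1) with he
  have e0 : 0 < e := mul_pos c0 (by linarith)
  have t3 : Tendsto (fun k : ℝ => k ^ (n + 1) * Y (k ^ 2) * (2 * (2 * Q * M))) (𝓝[>] 0) (𝓝 0) := by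
    simpa using (tendsto_rY hY hw).mul_const (2 * (2 * Q * M))
  have t4 : Tendsto (fun k : ℝ => 2 * Q * M * k) (𝓝[>] 0) (𝓝 0) := by
    simpa using tendsto_r.const_mul (2 * Q * M)
  filter_upwards [low_Y hY hw, (tendsto_Y hY hw).eventually_ge_atTop (2 * M / c + 2 * |Y (R0 ^ 2)| / e + 1),
    t3.eventually (gt_mem_nhds (show 0 < (v2 - v1) / 2 * c by nlinarith)), t4.eventually (gt_mem_nhds c0),
    Ioo_mem_nhdsGT (show 0 < min (r' / 4) (1 / 2) by positivity)] with k a1 a2 a3 a4 a5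
  have k0 : 0 < k := a5.1
  have k1 : k ≤ r' / 4 := a5.2.le.trans (min_le_left _ _)
  have k2 : k ≤ 1 / 2 := a5.2.le.trans (min_le_right _ _)
  set κ := k ^ n with hκ
  have κ0 : 0 < κ := by positivity
  set y0 := Y (k ^ 2) with hy0
  set β := κ * y0 with hβ
  have hJR0 : J n (R0 ^ 2) ≤ -e := by
    have := (convex_Icc r1 R0).image_sub_le_mul_sub_of_deriv_le (f := fun r => J n (r ^ 2)) (C := -c)
      (cont_j).continuousOn (fun r _ => (hasDerivAt_j r).differentiableAt.differentiableWithinAt)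
      (fun r hr => by
        rw [(hasDerivAt_j r).deriv]
        have hr' := interior_subset hr
        exact hJc r ⟨h1.le.trans hr'.1, hr'.2⟩) r1 ⟨le_rfl, h2.le⟩ R0 ⟨h2.le, le_rfl⟩ h2.le
    rw [hz1, sub_zero] at this
    rw [he]
    linarith
  set vs := (v1 + v2) / 2 with hvs
  obtain ⟨b1, b2⟩ := abs_le.1 hv1
  obtain ⟨b3, b4⟩ := abs_le.1 hv2
  have β1 : g / 2 ≤ β := a1
  have hY0 : 2 * M / c ≤ y0 ∧ 2 * |Y (R0 ^ 2)| / e < y0 := by
    have p1 : 0 ≤ 2 * M / c := by positivity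
    have p2 : 0 ≤ 2 * |Y (R0 ^ 2)| / e := by positivity
    constructor <;> linarith
  have q1 : M ≤ y0 * c / 2 := by
    have := hY0.1
    rw [div_le_iff₀ c0] at this
    linarith
  have q2 : |Y (R0 ^ 2)| < y0 * e / 2 := by
    have := hY0.2
    rw [div_lt_iff₀ e0] at this
    linarith
  -- monotonicity
  have mono : ∀ A, β / 2 ≤ A → AntitoneOn (fun r => A * J n (r ^ 2) - κ * Y (r ^ 2)) (Icc r' R0) := by
    intro A hA
    have d : ∀ r ∈ Icc r' R0, HasDerivAt (fun r => A * J n (r ^ 2) - κ * Y (r ^ 2))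
        (A * (2 * r * J1 n (r ^ 2)) - κ * (2 * r * Y1 (r ^ 2))) r := fun r hr =>
      ((hasDerivAt_j r).const_mul A).sub ((hasDerivAt_y hY (h0.trans_le hr.1)).const_mul κ)
    refine antitoneOn_of_deriv_nonpos (convex_Icc _ _) (fun r hr => (d r hr).continuousAt.continuousWithinAt)
      (fun r hr => (d r (interior_subset hr)).differentiableAt.differentiableWithinAt) fun r hr => ?_
    have hr' := interior_subset hr
    rw [(d r hr').deriv]
    have u1 := hJc r hr'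
    have u2 := (abs_le.1 (hM r ⟨by linarith [hr'.1], by linarith [hr'.2]⟩)).1
    have A0 : 0 < A := by linarith
    have u3 : A * (2 * r * J1 n (r ^ 2)) ≤ A * (-c) := mul_le_mul_of_nonneg_left u1 A0.le
    have u4 : κ * (-M) ≤ κ * (2 * r * Y1 (r ^ 2)) := mul_le_mul_of_nonneg_left u2 κ0.le
    have u5 : β / 2 * c ≤ A * c := mul_le_mul_of_nonneg_right hA c0.le
    have u6 : κ * M ≤ κ * (y0 * c / 2) := mul_le_mul_of_nonneg_left q1 κ0.le
    have : κ * (y0 * c / 2) = β / 2 * c := by rw [hβ]; ring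
    linarith
  -- the zero
  have As0 : β / 2 ≤ β + vs := by linarith
  have As1 : β + vs ≤ 2 * β := by linarith
  obtain ⟨R, ⟨hR1, hR2⟩, hR3⟩ : ∃ R ∈ Ioo r1 R0, (β + vs) * J n (R ^ 2) - κ * Y (R ^ 2) = 0 := by
    have cont : ContinuousOn (fun r => (β + vs) * J n (r ^ 2) - κ * Y (r ^ 2)) (Icc r1 R0) := fun r hr =>
      (((hasDerivAt_j r).const_mul (β + vs)).sub
        ((hasDerivAt_y hY (by linarith [hr.1])).const_mul κ)).continuousAt.continuousWithinAt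
    have := intermediate_value_Ioo' h2.le cont
    refine this ⟨?_, ?_⟩
    · have u1 : (β + vs) * J n (R0 ^ 2) ≤ (β + vs) * (-e) :=
        mul_le_mul_of_nonneg_left hJR0 (by linarith)
      have u2 : β / 2 * e ≤ (β + vs) * e := mul_le_mul_of_nonneg_right As0 e0.le
      have u3 : κ * (-Y (R0 ^ 2)) ≤ κ * |Y (R0 ^ 2)| := mul_le_mul_of_nonneg_left (neg_le_abs _) κ0.le
      have u4 : κ * |Y (R0 ^ 2)| < κ * (y0 * e / 2) := mul_lt_mul_of_pos_left q2 κ0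
      have : κ * (y0 * e / 2) = β / 2 * e := by rw [hβ]; ring
      show (β + vs) * J n (R0 ^ 2) - κ * Y (R0 ^ 2) < 0
      linarith
    · show 0 < (β + vs) * J n (r1 ^ 2) - κ * Y (r1 ^ 2)
      rw [hz1]
      have := hYc r1 ⟨h1.le, h2.le⟩
      nlinarith
  have Asp : 0 < β + vs := by linarith
  have RI : R ∈ Icc r' R0 := ⟨by linarith, hR2.le⟩
  have hYR := hYc R RI
  -- J at R
  have JR : J n (R ^ 2) ≤ -(κ * c) / (β + vs) := by
    rw [le_div_iff₀ Asp]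
    have : κ * Y (R ^ 2) ≤ κ * (-c) := mul_le_mul_of_nonneg_left hYR κ0.le
    linarith
  have small : 2 * Q * M * k < (v2 - v1) / 2 * c / (β + vs) := by
    rw [lt_div_iff₀ Asp]
    have : 2 * Q * M * k * (β + vs) ≤ 2 * Q * M * k * (2 * β) :=
      mul_le_mul_of_nonneg_left As1 (by positivity)
    refine this.trans_lt ?_
    have e1 : 2 * Q * M * k * (2 * β) = k ^ (n + 1) * y0 * (2 * (2 * Q * M)) := by
      rw [hβ, hκ]; ring
    rw [e1]
    exact a3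
  have gain : κ * (2 * Q * M * k) < (v2 - v1) / 2 * (-J n (R ^ 2)) := by
    have u1 := mul_lt_mul_of_pos_left small κ0
    have u2 : (v2 - v1) / 2 * (κ * c / (β + vs)) ≤ (v2 - v1) / 2 * (-J n (R ^ 2)) := by
      refine mul_le_mul_of_nonneg_left ?_ (by linarith)
      rw [neg_div] at JR
      linarith
    refine u1.trans_le (le_trans (le_of_eq ?_) u2)
    ring
  refine ⟨R, hR1, hR2, fun z q hq hQ hz y => ⟨fun y1 y2 => ?_, fun y1 => ?_, fun y1 => ?_⟩⟩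
  · have f := (abs_le.1 (W_far hY hM M0.le (A := β + v1) κ0.le k0 k1 k2 hq hQ hz y1 (y2.trans hR2.le))).1
    have m := mono (β + v1) (by linarith) ⟨y1, y2.trans hR2.le⟩ RI y2
    simp only [] at m
    have : (β + v1) * J n (R ^ 2) - κ * Y (R ^ 2) = (v2 - v1) / 2 * (-J n (R ^ 2)) := by
      have : (β + v1) * J n (R ^ 2) - κ * Y (R ^ 2) =
        ((β + vs) * J n (R ^ 2) - κ * Y (R ^ 2)) + (v1 - vs) * J n (R ^ 2) := by ring
      rw [this, hR3, hvs]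
      ring
    linarith
  · have f := (abs_le.1 (W_far hY hM M0.le (A := β + v2) κ0.le k0 k1 k2 hq hQ hz (by linarith)
      (y1.le.trans hR2.le))).2
    rw [y1] at f
    have : (β + v2) * J n (R ^ 2) - κ * Y (R ^ 2) = -((v2 - v1) / 2 * (-J n (R ^ 2))) := by
      have : (β + v2) * J n (R ^ 2) - κ * Y (R ^ 2) =
        ((β + vs) * J n (R ^ 2) - κ * Y (R ^ 2)) + (v2 - vs) * J n (R ^ 2) := by ring
      rw [this, hR3, hvs]
      ring
    linarith
  · have f := (abs_le.1 (W_far hY hM M0.le (A := β + v2) κ0.le k0 k1 k2 hq hQ hz y1.ge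
      (by linarith))).1
    rw [y1] at f
    have u1 : 0 ≤ (β + v2) * J n (r' ^ 2) := mul_nonneg (by linarith) (hp r' h0.le h1).le
    have u2 : κ * Y (r' ^ 2) ≤ κ * (-c) := mul_le_mul_of_nonneg_left (hYc r' ⟨le_rfl, by linarith⟩) κ0.le
    have u3 : κ * (2 * Q * M * k) < κ * c := mul_lt_mul_of_pos_left a4 κ0
    linarith

end Pool.Agent.KS6_36.BO
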