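import Pool.Agent.KS6_36.BO.Pot

/-! Charges at the centre of the obstacle, in the cage, and their mirror images. -/

open Set Metric Filter Topology Real
open scoped RealInnerProductSpace

namespace Pool.Agent.KS6_36.BO

variable {n : ℕ}

abbrev Cx (n : ℕ) := Option (Ix n ⊕ Ix n)

/-- the poles: the centre `x` of the obstacle, the centres of the cage, and their mirror images in
the unit sphere around `x` -/
noncomputable def zz (x : (EuclideanSpace ℝ (Fin (n + 2)))) : Cx n → (EuclideanSpace ℝ (Fin (n + 2)))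
  | none => x
  | some (Sum.inl i) => pt i
  | some (Sum.inr i) => x + (‖x - pt i‖ ^ 2)⁻¹ • (pt i - x)

/-- the charges -/
noncomputable def qq (x : (EuclideanSpace ℝ (Fin (n + 2)))) (q : Ix n → ℝ) : Cx n → ℝ
  | none => 1 - ∑ i, q i * (1 - (‖x - pt i‖ ^ n)⁻¹)
  | some (Sum.inl i) => q i
  | some (Sum.inr i) => -((‖x - pt i‖ ^ n)⁻¹ * q i)

lemma sum_qq (x : (EuclideanSpace ℝ (Fin (n + 2)))) (q : Ix n → ℝ) : ∑ j, qq x q j = 1 := by
  rw [Fintype.sum_option, Fintype.sum_sum_type]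
  simp only [qq]
  have : ∑ i, q i * (1 - (‖x - pt i‖ ^ n)⁻¹) = ∑ i, q i - ∑ i, (‖x - pt i‖ ^ n)⁻¹ * q i := by
    rw [← Finset.sum_sub_distrib]
    exact Finset.sum_congr rfl fun i _ => by ring
  rw [this, Finset.sum_neg_distrib]
  ring

/-- the potential -/
noncomputable def Ue (x : (EuclideanSpace ℝ (Fin (n + 2)))) (q : Ix n → ℝ) (y : (EuclideanSpace ℝ (Fin (n + 2)))) : ℝ := ∑ j, qq x q j * gam n ‖y - zz x j‖

lemma Ue_eq (x : (EuclideanSpace ℝ (Fin (n + 2)))) (q : Ix n → ℝ) (y : (EuclideanSpace ℝ (Fin (n + 2)))) : Ue x q y =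
    (1 - ∑ i, q i * (1 - (‖x - pt i‖ ^ n)⁻¹)) * gam n ‖y - x‖ + (∑ i, q i * gam n ‖y - pt i‖ -
      ∑ i, (‖x - pt i‖ ^ n)⁻¹ * q i * gam n ‖y - (x + (‖x - pt i‖ ^ 2)⁻¹ • (pt i - x))‖) := by
  rw [Ue, Fintype.sum_option, Fintype.sum_sum_type]
  simp only [qq, zz]
  simp only [neg_mul, Finset.sum_neg_distrib, sub_eq_add_neg]

lemma mirror {x y b : (EuclideanSpace ℝ (Fin (n + 2)))} (h1 : ‖y - x‖ = 1) (hb : 0 < ‖x - b‖) :
    ‖y - (x + (‖x - b‖ ^ 2)⁻¹ • (b - x))‖ = ‖y - b‖ / ‖x - b‖ := by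
  rw [← sq_eq_sq₀ (norm_nonneg _) (by positivity), div_pow]
  have e1 : y - (x + (‖x - b‖ ^ 2)⁻¹ • (b - x)) = (y - x) - (‖x - b‖ ^ 2)⁻¹ • (b - x) := by abel
  have e2 : y - b = (y - x) - (b - x) := by abel
  rw [e1, e2]
  rw [norm_sub_rev x b] at hb ⊢
  generalize y - x = u at *
  generalize b - x = v at *
  rw [norm_sub_sq_real, norm_sub_sq_real, norm_smul, inner_smul_right, h1, norm_inv, norm_pow, norm_norm]
  field_simp
  ring

lemma Ue_sphere {x y : (EuclideanSpace ℝ (Fin (n + 2)))} (q : Ix n → ℝ) (hx : ‖x‖ ≤ al n / 2) (h1 : ‖y - x‖ = 1) :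
    Ue x q y = ∑ i, q i * gam n ‖x - pt i‖ := by
  have ha := al_pos n
  rw [Ue_eq, h1, gam_one, mul_zero, zero_add, ← Finset.sum_sub_distrib]
  refine Finset.sum_congr rfl fun i _ => ?_
  have hr : 1 < ‖x - pt i‖ := by linarith [(dist_pt x i).1]
  have hy : 0 < ‖y - pt i‖ := by
    have := norm_sub_le_norm_sub_add_norm_sub x y (pt i)
    rw [norm_sub_rev x y, h1] at this
    linarith
  rw [mirror h1 (by linarith)]
  have := gam_kelvin (n := n) hy (show 0 < ‖x - pt i‖ by linarith)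
  have e : (‖x - pt i‖ ^ n)⁻¹ * q i * gam n (‖y - pt i‖ / ‖x - pt i‖) =
    q i * ((‖x - pt i‖ ^ n)⁻¹ * gam n (‖y - pt i‖ / ‖x - pt i‖)) := by ring
  rw [e, this]
  ring

lemma image_dist {x : (EuclideanSpace ℝ (Fin (n + 2)))} {i : Ix n} (hx : ‖x‖ ≤ al n / 2) :
    ‖(x + (‖x - pt i‖ ^ 2)⁻¹ • (pt i - x)) - x‖ < 1 := by
  have ha := al_pos n
  have hr : 1 < ‖x - pt i‖ := by linarith [(dist_pt x i).1]
  rw [add_sub_cancel_left, norm_smul, norm_inv, norm_pow, norm_norm, norm_sub_rev (pt i) x]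
  have : (‖x - pt i‖ ^ 2)⁻¹ * ‖x - pt i‖ = (‖x - pt i‖)⁻¹ := by field_simp
  rw [this]
  exact inv_lt_one_of_one_lt₀ hr

/-- all distances to the poles are under control on the boundary -/
lemma dist_poles {x y : (EuclideanSpace ℝ (Fin (n + 2)))} {ε : ℝ} (hε : ε ≤ al n / 8) (hx : ‖x‖ ≤ al n / 2)
    (hy : ‖y - x‖ = 1 ∨ (1 ≤ ‖y - x‖ ∧ ∃ i : Ix n, ‖y - pt i‖ = ε)) (hc : ∀ i : Ix n, ε ≤ ‖y - pt i‖) (j : Cx n) :
    ‖y - zz x j‖ ∈ Icc ε 5 ∧ ‖y‖ ≤ 3 := by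
  have ha := al_pos n
  have ha2 := al_le n
  have hr : ∀ i, 1 + al n / 2 ≤ ‖x - pt i‖ ∧ ‖x - pt i‖ ≤ 2 := fun i => by
    have := dist_pt x i
    constructor <;> linarith
  have y1 : 1 ≤ ‖y - x‖ ∧ ‖y - x‖ ≤ 2 := by
    rcases hy with h | ⟨h, i, h'⟩
    · rw [h]; norm_num
    · have t := norm_sub_le_norm_sub_add_norm_sub y (pt i) x
      rw [norm_sub_rev (pt i) x] at t
      have := dist_pt x i
      exact ⟨h, by linarith⟩
  have yn : ‖y‖ ≤ 3 := by
    have := norm_le_norm_add_norm_sub' y x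
    linarith
  refine ⟨?_, yn⟩
  rcases j with _ | i | i
  · exact ⟨by simp only [zz]; linarith, by simp only [zz]; linarith⟩
  · refine ⟨hc i, ?_⟩
    have := norm_sub_le y (pt i)
    rw [norm_pt] at this
    simp only [zz]
    linarith
  · simp only [zz]
    set w := x + (‖x - pt i‖ ^ 2)⁻¹ • (pt i - x) with hw
    have hi : ‖w - x‖ < 1 := image_dist hx
    constructor
    · rcases hy with h | ⟨h, l, h'⟩
      · rw [hw, mirror h (by linarith [(hr i).1]), le_div_iff₀ (by linarith [(hr i).1])]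
        have t := norm_sub_le_norm_sub_add_norm_sub x y (pt i)
        rw [norm_sub_rev x y, h] at t
        have := hr i
        nlinarith
      · have t1 := norm_sub_le_norm_sub_add_norm_sub y w x
        have t2 := norm_sub_le_norm_sub_add_norm_sub x y (pt l)
        rw [norm_sub_rev x y] at t2
        have := (hr l).1
        linarith
    · have t1 := norm_sub_le_norm_sub_add_norm_sub y x w
      rw [norm_sub_rev x w] at t1
      linarith

lemma zz_norm {x : (EuclideanSpace ℝ (Fin (n + 2)))} (hx : ‖x‖ ≤ al n / 2) (j : Cx n) : ‖zz x j‖ ≤ 2 := by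
  have ha := al_pos n
  have ha2 := al_le n
  rcases j with _ | i | i
  · simp only [zz]; linarith
  · simp only [zz]; rw [norm_pt]; linarith
  · simp only [zz]
    have h1 := image_dist (i := i) hx
    have := norm_le_norm_add_norm_sub' (x + (‖x - pt i‖ ^ 2)⁻¹ • (pt i - x)) x
    linarith

lemma zz_ne {x y : (EuclideanSpace ℝ (Fin (n + 2)))} {ε : ℝ} (ε0 : 0 < ε) (hx : ‖x‖ ≤ al n / 2) (h1 : 1 ≤ ‖y - x‖)
    (hc : ∀ i : Ix n, ε ≤ ‖y - pt i‖) (j : Cx n) : y ≠ zz x j := by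
  rcases j with _ | i | i
  · intro h
    have e : zz x none = x := rfl
    rw [h, e, sub_self, norm_zero] at h1
    linarith
  · rintro rfl
    have := hc i
    simp only [zz, sub_self, norm_zero] at this
    linarith
  · rintro rfl
    have := image_dist (i := i) hx
    exact absurd (h1 : 1 ≤ ‖(x + (‖x - pt i‖ ^ 2)⁻¹ • (pt i - x)) - x‖) (not_le.2 this)

lemma abs_qq {x : (EuclideanSpace ℝ (Fin (n + 2)))} {q : Ix n → ℝ} {D : ℝ} (hx : ‖x‖ ≤ al n / 2) (hq : ∑ i, |q i| ≤ D) :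
    |qq x q none - 1| ≤ D ∧ ∑ j, |qq x q j| ≤ 1 + 3 * D := by
  have ha := al_pos n
  have hκ : ∀ i, 0 ≤ (‖x - pt i‖ ^ n)⁻¹ ∧ (‖x - pt i‖ ^ n)⁻¹ ≤ 1 := fun i =>
    ⟨by positivity, inv_le_one_of_one_le₀ (one_le_pow₀ (by linarith [(dist_pt x i).1]))⟩
  have h1 : |∑ i, q i * (1 - (‖x - pt i‖ ^ n)⁻¹)| ≤ D := by
    refine (Finset.abs_sum_le_sum_abs _ _).trans ((Finset.sum_le_sum fun i _ => ?_).trans hq)
    rw [abs_mul, abs_of_nonneg (by linarith [(hκ i).2] : 0 ≤ 1 - (‖x - pt i‖ ^ n)⁻¹)]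
    exact mul_le_of_le_one_right (abs_nonneg _) (by linarith [(hκ i).1])
  have h2 : |qq x q none - 1| ≤ D := by
    simp only [qq]
    rw [show 1 - ∑ i, q i * (1 - (‖x - pt i‖ ^ n)⁻¹) - 1 = -∑ i, q i * (1 - (‖x - pt i‖ ^ n)⁻¹) by ring, abs_neg]
    exact h1
  refine ⟨h2, ?_⟩
  rw [Fintype.sum_option, Fintype.sum_sum_type]
  have h3 : |qq x q none| ≤ 1 + D := by
    have := abs_add_le (qq x q none - 1) 1
    rw [sub_add_cancel, abs_one] at this
    linarith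
  have h4 : ∑ i, |qq x q (some (Sum.inr i))| ≤ D := by
    refine (Finset.sum_le_sum fun i _ => ?_).trans hq
    simp only [qq]
    rw [abs_neg, abs_mul, abs_of_nonneg (hκ i).1]
    exact mul_le_of_le_one_left (abs_nonneg _) (hκ i).2
  have h5 : ∑ i, |qq x q (some (Sum.inl i))| ≤ D := hq
  linarith

/-- the potential on the cage -/
lemma Ue_cage {x y : (EuclideanSpace ℝ (Fin (n + 2)))} {q : Ix n → ℝ} {D ε : ℝ} {i : Ix n} (ε0 : 0 < ε) (hε : ε ≤ al n / 8)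
    (hx : ‖x‖ ≤ al n / 2) (hq : ∑ i, |q i| ≤ D) (hy : ‖y - pt i‖ = ε) :
    |Ue x q y - (gam n ‖x - pt i‖ + q i * gam n ε)| ≤ ε + D * (9 + |gam n (al n / 4)|) := by
  classical
  have ha := al_pos n
  have ha2 := al_le n
  have D0 : 0 ≤ D := le_trans (Finset.sum_nonneg fun i _ => abs_nonneg _) hq
  have hr : ∀ i, 1 + al n / 2 ≤ ‖x - pt i‖ ∧ ‖x - pt i‖ ≤ 2 := fun i => by
    have := dist_pt x i
    constructor <;> linarith
  have t1 := norm_sub_le_norm_sub_add_norm_sub y (pt i) x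
  rw [norm_sub_rev (pt i) x] at t1
  have t2 := norm_sub_le_norm_sub_add_norm_sub x y (pt i)
  rw [norm_sub_rev x y] at t2
  have r1 := (dist_pt x i)
  have y1 : 1 + al n / 4 ≤ ‖y - x‖ ∧ ‖y - x‖ ≤ 2 := ⟨by linarith, by linarith⟩
  have yn : ‖y‖ ≤ 3 := by
    have := norm_le_norm_add_norm_sub' y x
    linarith
  have κ : ∀ i, 0 ≤ (‖x - pt i‖ ^ n)⁻¹ ∧ (‖x - pt i‖ ^ n)⁻¹ ≤ 1 := fun i =>
    ⟨by positivity, inv_le_one_of_one_le₀ (one_le_pow₀ (by linarith [(dist_pt x i).1]))⟩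
  -- the four errors
  have g1 : |gam n ‖y - x‖| ≤ 1 := by
    have := gam_lip (n := n) (show 1 ≤ ‖y - x‖ by linarith) le_rfl
    rw [gam_one, sub_zero] at this
    refine this.trans (abs_le.2 ⟨by linarith, by linarith⟩)
  have g2 : |gam n ‖y - x‖ - gam n ‖x - pt i‖| ≤ ε := by
    refine (gam_lip (n := n) (show 1 ≤ ‖y - x‖ by linarith) (show 1 ≤ ‖x - pt i‖ by linarith [(hr i).1])).trans ?_
    exact abs_le.2 ⟨by linarith, by linarith⟩
  have g3 : ∀ l, l ≠ i → |gam n ‖y - pt l‖| ≤ 4 := by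
    intro l hl
    have s1 := sep_pt hl
    have s2 := norm_sub_le_norm_sub_add_norm_sub (pt l) y (pt i)
    rw [norm_sub_rev (pt l) y] at s2
    have s3 := norm_sub_le y (pt l)
    rw [norm_pt] at s3
    have := gam_lip (n := n) (show 1 ≤ ‖y - pt l‖ by linarith) le_rfl
    rw [gam_one, sub_zero] at this
    refine this.trans (abs_le.2 ⟨by linarith, by linarith⟩)
  have g4 : ∀ l : Ix n, |gam n ‖y - (x + (‖x - pt l‖ ^ 2)⁻¹ • (pt l - x))‖| ≤ 4 + |gam n (al n / 4)| := by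
    intro l
    set w := x + (‖x - pt l‖ ^ 2)⁻¹ • (pt l - x) with hw
    have hi : ‖w - x‖ < 1 := image_dist hx
    have s1 := norm_sub_le_norm_sub_add_norm_sub y w x
    have s2 := norm_sub_le_norm_sub_add_norm_sub y x w
    rw [norm_sub_rev x w] at s2
    have lo : al n / 4 ≤ ‖y - w‖ := by linarith
    rcases le_total 1 ‖y - w‖ with h | h
    · have := gam_lip (n := n) h le_rfl
      rw [gam_one, sub_zero] at this
      have h2 : |‖y - w‖ - 1| ≤ 4 := abs_le.2 ⟨by linarith, by linarith⟩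
      linarith [abs_nonneg (gam n (al n / 4))]
    · have m1 := (gam_anti (n := n)).antitoneOn (show al n / 4 ∈ Ioi (0 : ℝ) by rw [mem_Ioi]; linarith)
        (show ‖y - w‖ ∈ Ioi (0 : ℝ) by rw [mem_Ioi]; linarith) lo
      have m2 := (gam_anti (n := n)).antitoneOn (show ‖y - w‖ ∈ Ioi (0 : ℝ) by rw [mem_Ioi]; linarith)
        (show (1 : ℝ) ∈ Ioi (0 : ℝ) by rw [mem_Ioi]; norm_num) h
      rw [gam_one] at m2
      rw [abs_of_nonneg m2]
      linarith [le_abs_self (gam n (al n / 4))]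
  have s0 := (abs_qq hx hq).1
  simp only [qq] at s0
  have s1 : |∑ l ∈ Finset.univ.erase i, q l * gam n ‖y - pt l‖| ≤ D * 4 := by
    refine (Finset.abs_sum_le_sum_abs _ _).trans ?_
    calc ∑ l ∈ Finset.univ.erase i, |q l * gam n ‖y - pt l‖| ≤ ∑ l ∈ Finset.univ.erase i, |q l| * 4 := by
          refine Finset.sum_le_sum fun l hl => ?_
          rw [abs_mul]
          exact mul_le_mul_of_nonneg_left (g3 l (Finset.ne_of_mem_erase hl)) (abs_nonneg _)
      _ ≤ ∑ l, |q l| * 4 := Finset.sum_le_sum_of_subset_of_nonneg (Finset.erase_subset _ _)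
          fun _ _ _ => by positivity
      _ ≤ D * 4 := by rw [← Finset.sum_mul]; exact mul_le_mul_of_nonneg_right hq (by norm_num)
  have s2 : |∑ l, (‖x - pt l‖ ^ n)⁻¹ * q l * gam n ‖y - (x + (‖x - pt l‖ ^ 2)⁻¹ • (pt l - x))‖| ≤
      D * (4 + |gam n (al n / 4)|) := by
    refine (Finset.abs_sum_le_sum_abs _ _).trans ?_
    calc _ ≤ ∑ l, |q l| * (4 + |gam n (al n / 4)|) := by
          refine Finset.sum_le_sum fun l _ => ?_
          rw [abs_mul, abs_mul, abs_of_nonneg (κ l).1]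
          exact mul_le_mul (mul_le_of_le_one_left (abs_nonneg _) (κ l).2) (g4 l) (abs_nonneg _) (abs_nonneg _)
      _ ≤ D * (4 + |gam n (al n / 4)|) := by
          rw [← Finset.sum_mul]; exact mul_le_mul_of_nonneg_right hq (by positivity)
  have s3 : |(1 - ∑ i, q i * (1 - (‖x - pt i‖ ^ n)⁻¹) - 1) * gam n ‖y - x‖| ≤ D * 1 := by
    rw [abs_mul]
    exact mul_le_mul s0 g1 (abs_nonneg _) D0
  have key : Ue x q y - (gam n ‖x - pt i‖ + q i * gam n ε) =
      (1 - ∑ i, q i * (1 - (‖x - pt i‖ ^ n)⁻¹) - 1) * gam n ‖y - x‖ + (gam n ‖y - x‖ - gam n ‖x - pt i‖) +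
      ∑ l ∈ Finset.univ.erase i, q l * gam n ‖y - pt l‖ -
      ∑ l, (‖x - pt l‖ ^ n)⁻¹ * q l * gam n ‖y - (x + (‖x - pt l‖ ^ 2)⁻¹ • (pt l - x))‖ := by
    rw [Ue_eq, ← Finset.add_sum_erase _ (fun l => q l * gam n ‖y - pt l‖) (Finset.mem_univ i), hy]
    ring
  rw [key]
  obtain ⟨c1, c2⟩ := abs_le.1 s3
  obtain ⟨c3, c4⟩ := abs_le.1 g2
  obtain ⟨c5, c6⟩ := abs_le.1 s1
  obtain ⟨c7, c8⟩ := abs_le.1 s2
  refine abs_le.2 ⟨?_, ?_⟩ <;> linarith

end Pool.Agent.KS6_36.BO
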