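import Pool.Agent.KS6_36.BO.Out2
import Pool.Agent.KS6_36.BO.MaxP
import Pool.Agent.KS6_36.BO.Pot2

/-! Positivity of the comparison function on the perforated container. -/

open Set Metric Filter Topology Real
open scoped ContDiff

namespace Pool.Agent.KS6_36.BO

variable {n : ℕ}

/-- closed container with the open obstacle and the open cage removed -/
def Tx (L ε : ℝ) (x : (EuclideanSpace ℝ (Fin (n + 2)))) : Set (EuclideanSpace ℝ (Fin (n + 2))) := {y | ‖y‖ ≤ L ∧ 1 ≤ ‖y - x‖ ∧ ∀ i : Ix n, ε ≤ ‖y - pt i‖}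

/-- open container with the closed obstacle and the closed cage removed -/
def Vx (L ε : ℝ) (x : (EuclideanSpace ℝ (Fin (n + 2)))) : Set (EuclideanSpace ℝ (Fin (n + 2))) := {y | ‖y‖ < L ∧ 1 < ‖y - x‖ ∧ ∀ i : Ix n, ε < ‖y - pt i‖}

lemma Tx_compact (L ε : ℝ) (x : (EuclideanSpace ℝ (Fin (n + 2)))) : IsCompact (Tx L ε x) := by
  have h1 : IsClosed {y : (EuclideanSpace ℝ (Fin (n + 2))) | 1 ≤ ‖y - x‖ ∧ ∀ i : Ix n, ε ≤ ‖y - pt i‖} := by
    rw [ofPred_and, ofPred_forall]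
    exact (isClosed_le continuous_const (by fun_prop)).inter
      (isClosed_iInter fun i => isClosed_le continuous_const (by fun_prop))
  refine (isCompact_closedBall (0 : (EuclideanSpace ℝ (Fin (n + 2)))) L).of_isClosed_subset ?_ fun y hy => by simpa using hy.1
  have h2 : IsClosed {y : (EuclideanSpace ℝ (Fin (n + 2))) | ‖y‖ ≤ L} := isClosed_le continuous_norm continuous_const
  exact h2.inter h1

lemma Vx_open (L ε : ℝ) (x : (EuclideanSpace ℝ (Fin (n + 2)))) : IsOpen (Vx L ε x) := by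
  have h1 : IsOpen {y : (EuclideanSpace ℝ (Fin (n + 2))) | 1 < ‖y - x‖ ∧ ∀ i : Ix n, ε < ‖y - pt i‖} := by
    rw [ofPred_and, ofPred_forall]
    exact (isOpen_lt continuous_const (by fun_prop)).inter
      (isOpen_iInter_of_finite fun i => isOpen_lt continuous_const (by fun_prop))
  have h2 : IsOpen {y : (EuclideanSpace ℝ (Fin (n + 2))) | ‖y‖ < L} := isOpen_lt continuous_norm continuous_const
  exact h2.inter h1

lemma Vx_sub (L ε : ℝ) (x : (EuclideanSpace ℝ (Fin (n + 2)))) : Vx L ε x ⊆ Tx L ε x := fun _ h => ⟨h.1.le, h.2.1.le, fun i => (h.2.2 i).le⟩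

lemma Tx_bdry {L ε : ℝ} {x y : (EuclideanSpace ℝ (Fin (n + 2)))} (h : y ∈ Tx L ε x) (h' : y ∉ Vx L ε x) :
    ‖y‖ = L ∨ (‖y - x‖ = 1 ∨ (1 ≤ ‖y - x‖ ∧ ∃ i : Ix n, ‖y - pt i‖ = ε)) := by
  by_contra hcon
  push Not at hcon
  obtain ⟨c1, c2, c3⟩ := hcon
  exact h' ⟨h.1.lt_of_ne c1, h.2.1.lt_of_ne' c2, fun i => (h.2.2 i).lt_of_ne' (c3 h.2.1 i)⟩

lemma posW {Y : ℝ → ℝ} (hR : ∀ s, 0 < s → Rad n Y s) {k ε R r' r1 A : ℝ} {x : (EuclideanSpace ℝ (Fin (n + 2)))} {q : Ix n → ℝ}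
    (k0 : 0 < k) (ε0 : 0 < ε) (hx : ‖x‖ ≤ al n / 2) (h0 : 0 < r') (h1 : r' < r1)
    (hp : ∀ r, 0 ≤ r → r < r1 → 0 < J n (r ^ 2))
    (far : ∀ y : (EuclideanSpace ℝ (Fin (n + 2))), r' ≤ k * ‖y‖ → k * ‖y‖ ≤ R → 0 < Wf Y A (k ^ n) k (zz x) (qq x q) y)
    (hr1R : r1 < R)
    (near : ∀ y : (EuclideanSpace ℝ (Fin (n + 2))), (‖y - x‖ = 1 ∨ (1 ≤ ‖y - x‖ ∧ ∃ i : Ix n, ‖y - pt i‖ = ε)) → (∀ i : Ix n, ε ≤ ‖y - pt i‖) →
      0 < Wf Y A (k ^ n) k (zz x) (qq x q) y) :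
    ∀ y ∈ Tx (R / k) ε x, 0 < Wf Y A (k ^ n) k (zz x) (qq x q) y := by
  intro y hy
  by_cases c : r' ≤ k * ‖y‖
  · exact far y c (by have := hy.1; rwa [le_div_iff₀ k0, mul_comm] at this)
  push Not at c
  have r10 : 0 < r1 := h0.trans h1
  have hkk : k < k * ((r1 + r') / (2 * r')) := by
    refine lt_mul_of_one_lt_right k0 ?_
    rw [one_lt_div (by positivity)]
    linarith
  have kpos : ∀ (a : ℝ) (y : (EuclideanSpace ℝ (Fin (n + 2)))), 0 ≤ a → a * ‖y‖ < r1 → 0 < J n (a ^ 2 * ‖y - 0‖ ^ 2) := by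
    intro a y ha h
    rw [sub_zero, ← mul_pow]
    exact hp _ (by positivity) h
  refine maxp (T := Tx (r' / k) ε x) (V := Vx (r' / k) ε x) k0 hkk (Tx_compact _ _ _) (Vx_open _ _ _)
    (Vx_sub _ _ _) (j := fun y => J n (k ^ 2 * ‖y - 0‖ ^ 2))
    (i := fun y => J n ((k * ((r1 + r') / (2 * r'))) ^ 2 * ‖y - 0‖ ^ 2))
    (fun y hy => Wf_sol hR k0 fun j => zz_ne ε0 hx hy.2.1 hy.2.2 j)
    (fun y hy => ⟨Rad.sol (rad_J _), kpos k y k0.le ?_⟩) (fun y hy => ⟨Rad.sol (rad_J _), kpos _ y (by positivity) ?_⟩)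
    (fun y hy hy' => ?_) y ⟨?_, hy.2.1, hy.2.2⟩
  · have := hy.1
    rw [le_div_iff₀ k0, mul_comm] at this
    linarith
  · have := hy.1
    rw [le_div_iff₀ k0, mul_comm] at this
    have e : k * ((r1 + r') / (2 * r')) * ‖y‖ = (r1 + r') / (2 * r') * (k * ‖y‖) := by ring
    rw [e]
    calc (r1 + r') / (2 * r') * (k * ‖y‖) ≤ (r1 + r') / (2 * r') * r' :=
          mul_le_mul_of_nonneg_left this (by positivity)
      _ = (r1 + r') / 2 := by field_simp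
      _ < r1 := by linarith
  · rcases Tx_bdry hy hy' with h | h
    · have e : k * ‖y‖ = r' := by rw [h]; field_simp
      exact far y e.ge (by linarith)
    · exact near y h hy.2.2
  · rw [le_div_iff₀ k0, mul_comm]
    exact c.le

/-- the strict lower bound for the eigenvalue -/
lemma lower {Y : ℝ → ℝ} (hR : ∀ s, 0 < s → Rad n Y s) {k ε L A κ : ℝ} {x w : (EuclideanSpace ℝ (Fin (n + 2)))} {q : Ix n → ℝ}
    (k0 : 0 < k) (ε0 : 0 < ε) (hx : ‖x‖ ≤ al n / 2)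
    (pos : ∀ y ∈ Tx L ε x, 0 < Wf Y A κ k (zz x) (qq x q) y) {U : Set (EuclideanSpace ℝ (Fin (n + 2)))} (hU : U ⊆ Tx L ε x) (hw : U ∈ 𝓝 w) :
    k ^ 2 < lam U := by
  have cY : ∀ s, 0 < s → ContinuousAt Y s := fun s hs => (hR s hs).1.continuousAt
  have cJ : Continuous (J n) := contDiff_J.continuous
  have ev : ∀ᶠ k' in 𝓝 k, ∀ y ∈ Tx L ε x, 0 < Wf Y A κ k' (zz x) (qq x q) y := by
    refine (Tx_compact L ε x).eventually_forall_of_forall_eventually fun y hy => ?_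
    have hne := fun j => zz_ne ε0 hx hy.2.1 hy.2.2 j
    have c : ContinuousAt (fun z : ℝ × (EuclideanSpace ℝ (Fin (n + 2))) => Wf Y A κ z.1 (zz x) (qq x q) z.2) (k, y) := by
      unfold Wf
      refine ContinuousAt.sub (continuousAt_const.mul ?_) ?_
      · exact ContinuousAt.comp (g := J n) (f := fun z : ℝ × (EuclideanSpace ℝ (Fin (n + 2))) => z.1 ^ 2 * ‖z.2 - 0‖ ^ 2) cJ.continuousAt
          (by fun_prop)
      · refine tendsto_finsetSum _ fun j _ => ?_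
        refine ContinuousAt.mul continuousAt_const ?_
        refine ContinuousAt.comp (g := Y) (f := fun z : ℝ × (EuclideanSpace ℝ (Fin (n + 2))) => z.1 ^ 2 * ‖z.2 - zz x j‖ ^ 2) (cY _ ?_) (by fun_prop)
        have : 0 < ‖y - zz x j‖ := norm_pos_iff.2 (sub_ne_zero.2 (hne j))
        simp only
        positivity
    exact c.eventually (lt_mem_nhds (pos y hy))
  obtain ⟨k', h1, h2⟩ := ((ev.filter_mono nhdsWithin_le_nhds).and (self_mem_nhdsWithin (s := Ioi k))).exists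
  have h2 : k < k' := h2
  have := barta (k := k') (W := Wf Y A κ k' (zz x) (qq x q)) hw fun y hy =>
    ⟨Wf_sol hR (k0.trans h2) fun j => zz_ne ε0 hx (hU hy).2.1 (hU hy).2.2 j, (h1 y (hU hy)).ne'⟩
  refine lt_of_lt_of_le ?_ this
  nlinarith

end Pool.Agent.KS6_36.BO
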