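import Pool.Agent.KS6_36.BO.Lim

/-! The potential theory of a ball inside a cage. -/

open Set Metric Filter Topology Real
open scoped RealInnerProductSpace

namespace Pool.Agent.KS6_36.BO

variable {n : ℕ}

/-- the index set of the cage -/
abbrev Ix (n : ℕ) := Fin (n + 2) × Bool

/-- the width of the gap between the obstacle and the cage -/
noncomputable def al (n : ℕ) : ℝ := 1 / (8 * (n + 2))

/-- the centres of the cage -/
noncomputable def pt (i : Ix n) : (EuclideanSpace ℝ (Fin (n + 2))) := (if i.2 then 1 + al n else -(1 + al n)) • EuclideanSpace.single i.1 (1 : ℝ)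

lemma al_pos (n : ℕ) : 0 < al n := by unfold al; positivity

lemma al_le (n : ℕ) : al n ≤ 1 / 16 := by
  unfold al
  apply one_div_le_one_div_of_le (by norm_num)
  linarith [(Nat.cast_nonneg n : (0 : ℝ) ≤ n)]

lemma norm_pt (i : Ix n) : ‖pt i‖ = 1 + al n := by
  have := al_pos n
  rw [pt, norm_smul]
  simp
  split_ifs
  · rw [abs_of_pos (by linarith)]
  · rw [abs_of_neg (by linarith)]; ring

lemma inner_pt (x : (EuclideanSpace ℝ (Fin (n + 2)))) (i : Ix n) : ⟪x, pt i⟫ = (if i.2 then 1 + al n else -(1 + al n)) * x i.1 := by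
  rw [pt, inner_smul_right]
  simp [EuclideanSpace.inner_single_right]

lemma pt_apply (i : Ix n) (j : Fin (n + 2)) : pt i j = if j = i.1 then (if i.2 then 1 + al n else -(1 + al n)) else 0 := by
  unfold pt
  rw [PiLp.smul_apply, PiLp.single_apply, smul_eq_mul, mul_ite, mul_one, mul_zero]

lemma sep_pt {i l : Ix n} (h : i ≠ l) : 7 / 5 ≤ ‖pt i - pt l‖ := by
  have ha := al_pos n
  have h2 : ‖pt i - pt l‖ ^ 2 = ‖pt i‖ ^ 2 - 2 * ⟪pt i, pt l⟫ + ‖pt l‖ ^ 2 := norm_sub_sq_real _ _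
  rw [norm_pt, norm_pt, inner_pt, pt_apply] at h2
  have h3 : 2 ≤ ‖pt i - pt l‖ ^ 2 := by
    rw [h2]
    obtain ⟨i1, i2⟩ := i
    obtain ⟨l1, l2⟩ := l
    by_cases e : l1 = i1
    · subst e
      have : i2 ≠ l2 := fun e => h (by rw [e])
      cases i2 <;> cases l2 <;> simp at this ⊢ <;> nlinarith
    · simp only [e, if_false, mul_zero, sub_zero]
      nlinarith
  nlinarith [norm_nonneg (pt i - pt l)]

/-- distances to an opposite pair -/
lemma pair_pt (x : (EuclideanSpace ℝ (Fin (n + 2)))) (j : Fin (n + 2)) : ‖x - pt (j, false)‖ ^ 2 - ‖x - pt (j, true)‖ ^ 2 = 4 * (1 + al n) * x j := by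
  rw [norm_sub_sq_real, norm_sub_sq_real, norm_pt, norm_pt, inner_pt, inner_pt]
  simp
  ring

lemma opp_pt (j : Fin (n + 2)) : ‖pt (j, true) - pt (j, false)‖ = 2 * (1 + al n) := by
  have ha := al_pos n
  have : pt (j, true) - pt (j, false) = (2 : ℝ) • pt (j, true) := by
    simp only [pt]
    simp only [if_true, Bool.false_eq_true, if_false, neg_smul, sub_neg_eq_add]
    rw [two_smul]
  rw [this, norm_smul, norm_pt]
  simp

/-- strong midpoint convexity of the square of the fundamental solution -/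
lemma gam_sq_convex {s t : ℝ} (hs : s ∈ Icc (1 : ℝ) (1 + 2 * al n)) (ht : t ∈ Icc (1 : ℝ) (1 + 2 * al n)) :
    2 * gam n ((s + t) / 2) ^ 2 + (s - t) ^ 2 / 8 ≤ gam n s ^ 2 + gam n t ^ 2 := by
  have ha := al_pos n
  set D := Icc (1 : ℝ) (1 + 2 * al n) with hD
  have hpos : ∀ r ∈ D, 0 < r := fun r hr => one_pos.trans_le hr.1
  have d1 : ∀ r ∈ D, HasDerivAt (fun r => gam n r ^ 2 - r ^ 2 / 4) (-(2 * gam n r * (r ^ (n + 1))⁻¹) - r / 2) r := by
    intro r hr
    have := ((hasDerivAt_gam (n := n) (hpos r hr)).pow 2).sub ((hasDerivAt_pow 2 r).div_const 4)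
    refine this.congr_deriv ?_
    push_cast
    ring
  have d2 : ∀ r ∈ D, HasDerivAt (fun r => -(2 * gam n r * (r ^ (n + 1))⁻¹) - r / 2)
      (2 * (r ^ (2 * n + 2))⁻¹ + 2 * (n + 1) * gam n r * (r ^ (n + 2))⁻¹ - 1 / 2) r := by
    intro r hr
    have r0 := hpos r hr
    have := ((((hasDerivAt_gam (n := n) r0).const_mul 2).mul
      ((hasDerivAt_pow (n + 1) r).inv (pow_ne_zero _ r0.ne'))).neg).sub ((hasDerivAt_id r).div_const 2)
    refine this.congr_deriv ?_
    simp only [Nat.add_sub_cancel, Pi.inv_apply]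
    push_cast
    field_simp
    ring
  have hc : ConvexOn ℝ D (fun r => gam n r ^ 2 - r ^ 2 / 4) := by
    refine convexOn_of_hasDerivWithinAt2_nonneg (convex_Icc _ _)
      (fun r hr => (d1 r hr).continuousAt.continuousWithinAt)
      (fun r hr => (d1 r (interior_subset hr)).hasDerivWithinAt)
      (fun r hr => (d2 r (interior_subset hr)).hasDerivWithinAt) fun r hr => ?_
    have hr' := interior_subset hr
    have r0 := hpos r hr'
    have n0 : (0 : ℝ) ≤ n := Nat.cast_nonneg n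
    have hal : al n * (8 * (n + 2)) = 1 := by unfold al; field_simp
    have e1 : r ^ (2 * n + 2) ≤ 2 := by
      have h1 : r ≤ exp (2 * al n) := hr'.2.trans (by linarith [add_one_le_exp (2 * al n)])
      have h2 : r ^ (2 * n + 2) ≤ exp (2 * al n) ^ (2 * n + 2) := pow_le_pow_left₀ r0.le h1 _
      rw [← exp_nat_mul] at h2
      have h3 : ((2 * n + 2 : ℕ) : ℝ) * (2 * al n) ≤ 1 / 2 := by push_cast; nlinarith
      have h4 := exp_le_exp.2 h3
      have h5 : exp (1 / 2) ≤ 2 := by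
        have : exp (1 / 2) * exp (1 / 2) = exp 1 := by rw [← exp_add]; norm_num
        have := exp_one_lt_d9
        nlinarith [exp_pos (1 / 2 : ℝ)]
      exact h2.trans (h4.trans h5)
    have e2 : (1 : ℝ) / 2 ≤ (r ^ (2 * n + 2))⁻¹ := by
      rw [one_div]
      exact inv_anti₀ (by positivity) e1
    have e3 : (r ^ (n + 2))⁻¹ ≤ 1 := inv_le_one_of_one_le₀ (one_le_pow₀ hr'.1)
    have e4 : 0 < (r ^ (n + 2))⁻¹ := by positivity
    have e5 : -(2 * al n) ≤ gam n r := by
      have := gam_lip (n := n) hr'.1 le_rfl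
      rw [gam_one, sub_zero, abs_of_nonneg (by linarith [hr'.1] : 0 ≤ r - 1)] at this
      linarith [(abs_le.1 this).1, hr'.2]
    have e6 : gam n r ≤ 0 := gam_le_one hr'.1
    have e7 : -(1 / 2) ≤ 2 * (n + 1) * gam n r := by nlinarith
    have e8 : 2 * ((n : ℝ) + 1) * gam n r ≤ 0 := by nlinarith
    have e9 : 2 * ((n : ℝ) + 1) * gam n r ≤ 2 * (n + 1) * gam n r * (r ^ (n + 2))⁻¹ := by nlinarith
    linarith
  have := hc.2 hs ht (show (0 : ℝ) ≤ 1 / 2 by norm_num) (show (0 : ℝ) ≤ 1 / 2 by norm_num) (by norm_num)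
  simp only [smul_eq_mul] at this
  rw [show (1 : ℝ) / 2 * s + 1 / 2 * t = (s + t) / 2 by ring] at this
  nlinarith

/-- the energy of a position -/
noncomputable def Fe (x : (EuclideanSpace ℝ (Fin (n + 2)))) : ℝ := ∑ i : Ix n, gam n ‖x - pt i‖ ^ 2

lemma dist_pt (x : (EuclideanSpace ℝ (Fin (n + 2)))) (i : Ix n) : 1 + al n - ‖x‖ ≤ ‖x - pt i‖ ∧ ‖x - pt i‖ ≤ 1 + al n + ‖x‖ := by
  have h1 := norm_sub_norm_le (pt i) x
  have h2 := norm_sub_le x (pt i)
  rw [norm_sub_rev] at h1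
  rw [norm_pt] at h1 h2
  constructor <;> linarith

lemma Fe_lower {x : (EuclideanSpace ℝ (Fin (n + 2)))} (hx : ‖x‖ ≤ al n / 2) : Fe (0 : (EuclideanSpace ℝ (Fin (n + 2)))) + ‖x‖ ^ 2 / 8 ≤ Fe x := by
  have ha := al_pos n
  have h0 : Fe (0 : (EuclideanSpace ℝ (Fin (n + 2)))) = ∑ j : Fin (n + 2), 2 * gam n (1 + al n) ^ 2 := by
    unfold Fe
    rw [Fintype.sum_prod_type]
    refine Finset.sum_congr rfl fun j _ => ?_
    rw [Fintype.sum_bool, zero_sub, zero_sub, norm_neg, norm_neg, norm_pt, norm_pt]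
    ring
  have h1 : ‖x‖ ^ 2 / 8 = ∑ j : Fin (n + 2), x j ^ 2 / 8 := by
    rw [EuclideanSpace.real_norm_sq_eq, Finset.sum_div]
  rw [h0, h1, ← Finset.sum_add_distrib]
  unfold Fe
  rw [Fintype.sum_prod_type]
  refine Finset.sum_le_sum fun j _ => ?_
  rw [Fintype.sum_bool]
  set s := ‖x - pt (j, true)‖ with hs
  set t := ‖x - pt (j, false)‖ with ht
  have a1 := dist_pt x (j, true)
  have a2 := dist_pt x (j, false)
  rw [← hs] at a1
  rw [← ht] at a2
  have s1 : s ∈ Icc (1 : ℝ) (1 + 2 * al n) := ⟨by linarith, by linarith⟩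
  have t1 : t ∈ Icc (1 : ℝ) (1 + 2 * al n) := ⟨by linarith, by linarith⟩
  have c := gam_sq_convex s1 t1
  have tri : 2 * (1 + al n) ≤ s + t := by
    rw [← opp_pt j, hs, ht, norm_sub_rev x (pt (j, true))]
    exact norm_sub_le_norm_sub_add_norm_sub _ _ _
  have m1 : gam n (1 + al n) ^ 2 ≤ gam n ((s + t) / 2) ^ 2 := by
    have h3 := (gam_anti (n := n)).antitoneOn (show (1 + al n) ∈ Ioi (0 : ℝ) by rw [mem_Ioi]; linarith)
      (show (s + t) / 2 ∈ Ioi (0 : ℝ) by rw [mem_Ioi]; linarith) (by linarith : 1 + al n ≤ (s + t) / 2)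
    have := gam_le_one (n := n) (show 1 ≤ 1 + al n by linarith)
    nlinarith
  have p := pair_pt x j
  rw [← hs, ← ht] at p
  have q : x j ^ 2 ≤ (s - t) ^ 2 := by
    have e : (t - s) * (t + s) = 4 * (1 + al n) * x j := by rw [← p]; ring
    have e2 : (t - s) ^ 2 * (t + s) ^ 2 = (4 * (1 + al n)) ^ 2 * x j ^ 2 := by
      rw [← mul_pow, e]; ring
    have e3 : (t + s) ^ 2 ≤ (4 * (1 + al n)) ^ 2 := pow_le_pow_left₀ (by linarith) (by linarith) 2
    have e4 : (4 * (1 + al n)) ^ 2 * x j ^ 2 ≤ (4 * (1 + al n)) ^ 2 * (t - s) ^ 2 := by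
      rw [← e2, mul_comm]
      exact mul_le_mul_of_nonneg_right e3 (sq_nonneg _)
    have := le_of_mul_le_mul_left e4 (by positivity)
    nlinarith
  linarith

end Pool.Agent.KS6_36.BO
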