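import Pool.Agent.KS6_36.BO.A

/-! Radial solutions of the Helmholtz equation. -/

open Set Metric Filter Topology InnerProductSpace MeasureTheory Real
open scoped Laplacian ContDiff

namespace Pool.Agent.KS6_36.BO

section general
variable {E : Type*} [NormedAddCommGroup E] [InnerProductSpace ℝ E] [FiniteDimensional ℝ E]

/-- The Laplacian computed from the second derivative. -/
lemma laplacian_eq_of_hasFDerivAt {f : E → ℝ} {f' : E → E →L[ℝ] ℝ}
    {f'' : E →L[ℝ] E →L[ℝ] ℝ} {x : E} {ι : Type*} [Fintype ι] (b : OrthonormalBasis ι ℝ E)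
    (h : ∀ᶠ y in nhds x, HasFDerivAt f (f' y) y) (h' : HasFDerivAt f' f'' x) :
    Δ f x = ∑ i, f'' (b i) (b i) := by
  rw [laplacian_eq_iteratedFDeriv_orthonormalBasis f b]
  refine Finset.sum_congr rfl fun i _ => ?_
  rw [iteratedFDeriv_two_apply]
  have h1 : fderiv ℝ f =ᶠ[nhds x] f' := by
    filter_upwards [h] with y hy using hy.fderiv
  rw [h1.fderiv_eq, h'.fderiv]
  simp

omit [FiniteDimensional ℝ E] in
lemma bilin_aux (w e : E) (he : inner ℝ e e = (1 : ℝ)) (α β : ℝ) :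
    (α • (2 • (innerSL ℝ : E →L[ℝ] E →L[ℝ] ℝ)) +
      (β • (2 • (innerSL ℝ w))).smulRight ((2 : ℕ) • (innerSL ℝ w))) e e =
      4 * β * (inner ℝ w e) ^ 2 + 2 * α := by
  rw [add_apply, ContinuousLinearMap.smulRight_apply]
  simp [he, -inner_self_eq_norm_sq_to_K]
  ring

/-- Laplacian of a function of `‖x - c‖²`. -/
lemma laplacian_comp_normSq {U U' : ℝ → ℝ} {u : ℝ} (c x : E)
    (h : ∀ᶠ s in 𝓝 (‖x - c‖ ^ 2), HasDerivAt U (U' s) s) (h' : HasDerivAt U' u (‖x - c‖ ^ 2)) :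
    Δ (fun y : E => U (‖y - c‖ ^ 2)) x =
      4 * ‖x - c‖ ^ 2 * u +
        2 * (Module.finrank ℝ E : ℝ) * U' (‖x - c‖ ^ 2) := by
  have hn : ∀ y : E, HasFDerivAt (fun y : E => ‖y - c‖ ^ 2) (2 • (innerSL ℝ (y - c))) y :=
    fun y => by
      have h1 := (hasStrictFDerivAt_norm_sq (y - c)).hasFDerivAt
      have h2 := h1.comp y ((hasFDerivAt_id y).sub_const c)
      exact h2
  have hc : ContinuousAt (fun y : E => ‖y - c‖ ^ 2) x := (hn x).continuousAt
  have h1 : ∀ᶠ y in 𝓝 x, HasFDerivAt (fun y : E => U (‖y - c‖ ^ 2))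
      (U' (‖y - c‖ ^ 2) • (2 • (innerSL ℝ (y - c)))) y := by
    filter_upwards [hc.eventually h] with y hy using hy.comp_hasFDerivAt y (hn y)
  have h2 : HasFDerivAt (fun y : E => U' (‖y - c‖ ^ 2))
      (u • (2 • (innerSL ℝ (x - c)))) x :=
    HasDerivAt.comp_hasFDerivAt x h' (hn x)
  have h3 : HasFDerivAt (fun y : E => (2 : ℕ) • (innerSL ℝ (y - c)))
      (2 • (innerSL ℝ : E →L[ℝ] E →L[ℝ] ℝ)) x := by
    have := (((2 : ℕ) • (innerSL ℝ : E →L[ℝ] E →L[ℝ] ℝ)).hasFDerivAt (x := x - c)).comp x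
      ((hasFDerivAt_id x).sub_const c)
    exact this
  have h4 := h2.smul h3
  rw [laplacian_eq_of_hasFDerivAt (stdOrthonormalBasis ℝ E) h1 h4]
  have hsum := (stdOrthonormalBasis ℝ E).sum_sq_inner_left (x - c)
  rw [Finset.sum_congr rfl fun i _ => bilin_aux (x - c) ((stdOrthonormalBasis ℝ E) i)
    (by simp) _ _]
  rw [Finset.sum_add_distrib, ← Finset.mul_sum, hsum]
  simp
  ring

end general

/-- `U` is smooth at `s` and `y ↦ U (‖y‖²)` solves the Helmholtz equation in dimension `n + 2`. -/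
def Rad (n : ℕ) (U : ℝ → ℝ) (s : ℝ) : Prop :=
  ContDiffAt ℝ ∞ U s ∧ 4 * s * deriv (deriv U) s + 2 * (n + 2) * deriv U s + U s = 0

variable {n : ℕ}

lemma Rad.sol {U : ℝ → ℝ} {k : ℝ} {p x : (EuclideanSpace ℝ (Fin (n + 2)))} (h : Rad n U (k ^ 2 * ‖x - p‖ ^ 2)) :
    Sol k (fun y => U (k ^ 2 * ‖y - p‖ ^ 2)) x := by
  obtain ⟨h1, h2⟩ := h
  constructor
  · refine ContDiffAt.comp x h1 ?_
    have : ContDiff ℝ ∞ fun y : (EuclideanSpace ℝ (Fin (n + 2))) => k ^ 2 * ‖y - p‖ ^ 2 :=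
      contDiff_const.mul ((contDiff_id.sub contDiff_const).norm_sq ℝ)
    exact this.contDiffAt
  · have hl : ContinuousAt (fun s : ℝ => k ^ 2 * s) (‖x - p‖ ^ 2) := by fun_prop
    have e1 : ∀ᶠ s in 𝓝 (‖x - p‖ ^ 2), HasDerivAt (fun s => U (k ^ 2 * s))
        (k ^ 2 * deriv U (k ^ 2 * s)) s := by
      have := ((h1.of_le two).eventually (by simp)).mono fun s (hs : ContDiffAt ℝ 2 U s) =>
        (hs.differentiableAt (by simp)).hasDerivAt
      filter_upwards [hl.eventually this] with s hs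
      have := hs.comp s ((hasDerivAt_id s).const_mul (k ^ 2))
      exact this.congr_deriv (by ring)
    have e2 : HasDerivAt (fun s => k ^ 2 * deriv U (k ^ 2 * s))
        (k ^ 2 * (k ^ 2 * deriv (deriv U) (k ^ 2 * ‖x - p‖ ^ 2))) (‖x - p‖ ^ 2) := by
      have h3 : HasDerivAt (deriv U) (deriv (deriv U) (k ^ 2 * ‖x - p‖ ^ 2))
          (k ^ 2 * ‖x - p‖ ^ 2) := by
        have h4 : ContDiffAt ℝ 1 (deriv U) (k ^ 2 * ‖x - p‖ ^ 2) := by
          have : ContDiffAt ℝ 1 (fderiv ℝ U) (k ^ 2 * ‖x - p‖ ^ 2) :=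
            (h1.of_le two).fderiv_right (m := 1) (by norm_num)
          exact this.clm_apply contDiffAt_const
        exact (h4.differentiableAt (by simp)).hasDerivAt
      have := (HasDerivAt.comp (‖x - p‖ ^ 2) (h₂ := deriv U) h3
        ((hasDerivAt_id (‖x - p‖ ^ 2)).const_mul (k ^ 2))).const_mul (k ^ 2)
      exact this.congr_deriv (by ring)
    rw [laplacian_comp_normSq (U := fun s => U (k ^ 2 * s)) p x e1 e2, finrank_euclideanSpace_fin]
    push_cast
    linear_combination k ^ 2 * h2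

lemma Rad.const_mul {U : ℝ → ℝ} {s : ℝ} (h : Rad n U s) (c : ℝ) : Rad n (fun t => c * U t) s := by
  obtain ⟨h1, h2⟩ := h
  have e1 : deriv (fun t => c * U t) =ᶠ[𝓝 s] fun t => c * deriv U t := by
    filter_upwards [(h1.of_le two).eventually (by simp)] with t ht
    exact deriv_const_mul c (ht.differentiableAt (by simp))
  have h4 : ContDiffAt ℝ 1 (deriv U) s := by
    have : ContDiffAt ℝ 1 (fderiv ℝ U) s := (h1.of_le two).fderiv_right (m := 1) (by norm_num)
    exact this.clm_apply contDiffAt_const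
  refine ⟨contDiffAt_const.mul h1, ?_⟩
  rw [e1.deriv_eq, e1.eq_of_nhds, deriv_const_mul c (h4.differentiableAt (by simp))]
  linear_combination c * h2

end Pool.Agent.KS6_36.BO
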